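import Pool.Agent.H650R3.Cyc.Meas

set_option autoImplicit false

/-! Zero sets of higher codimension and non-cyclicity (helper file). -/

namespace Pool.Agent.H650R3.Cyc
open Finset MvPowerSeries Filter Topology MeasureTheory

variable {d : ℕ}

/-- the integrals of `|q|` for the polynomials `q` homogeneous in each `z_j`, `j` in `A`, are
bounded by a constant times the square root of the sum of the squares of the coefficients -/
def SqMarginal (A : Finset (Fin d)) (μ : Measure (Fin d → ℂ)) : Prop :=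
  ∃ C : ℝ, ∀ (n : Fin d → ℕ) (q : MvPolynomial (Fin d) ℂ),
    (∀ α ∈ q.support, ∀ j ∈ A, α j = n j) →
    ∫ z, ‖MvPolynomial.eval z q‖ ∂μ ≤ C * Real.sqrt (∑ α ∈ q.support, ‖q.coeff α‖ ^ 2)

lemma fiber_gen {μ : Measure (Fin d → ℂ)} [IsFiniteMeasure μ] {J : Finset (Fin d)}
    (htor : OnTorus J μ) (C : ℝ) (s : Finset (Fin d →₀ ℕ))
    (hC : ∀ (q : MvPolynomial (Fin d) ℂ), q.support ⊆ s →
      ∫ z, ‖MvPolynomial.eval z q‖ ∂μ ≤ C * Real.sqrt (∑ α ∈ q.support, ‖q.coeff α‖ ^ 2)) :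
    ∑ α ∈ s, ‖∫ z, MvPolynomial.eval z (MvPolynomial.monomial α (1:ℂ)) ∂μ‖ ^ 2 ≤ C ^ 2 := by
  classical
  set l : (Fin d →₀ ℕ) → ℂ := fun α => ∫ z, MvPolynomial.eval z (MvPolynomial.monomial α (1:ℂ)) ∂μ
    with hl
  set S : ℝ := ∑ α ∈ s, ‖l α‖ ^ 2 with hS
  have hS0 : 0 ≤ S := Finset.sum_nonneg fun _ _ => sq_nonneg _
  set q : MvPolynomial (Fin d) ℂ :=
    ∑ α ∈ s, MvPolynomial.monomial α ((starRingEnd ℂ) (l α)) with hq
  have hc : ∀ α, q.coeff α = if α ∈ s then (starRingEnd ℂ) (l α) else 0 := by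
    intro α
    rw [hq, MvPolynomial.coeff_sum]
    simp only [MvPolynomial.coeff_monomial]
    rw [Finset.sum_ite_eq' s α]
  have hsub : q.support ⊆ s := by
    intro α hα
    by_contra h
    rw [MvPolynomial.mem_support_iff, hc, if_neg h] at hα
    exact hα rfl
  have h1 : ∑ α ∈ q.support, ‖q.coeff α‖ ^ 2 = S := by
    rw [Finset.sum_subset hsub (fun α _ h => by
      rw [MvPolynomial.notMem_support_iff.mp h, norm_zero]; norm_num)]
    apply Finset.sum_congr rfl
    intro α hα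
    rw [hc, if_pos hα, RCLike.norm_conj]
  have h2 : ∫ z, MvPolynomial.eval z q ∂μ = (S : ℂ) := by
    have e : ∀ z : Fin d → ℂ, MvPolynomial.eval z q =
        ∑ α ∈ s, (starRingEnd ℂ) (l α) * MvPolynomial.eval z (MvPolynomial.monomial α (1:ℂ)) := by
      intro z
      rw [hq, map_sum]
      apply Finset.sum_congr rfl
      intro α _
      rw [MvPolynomial.eval_monomial, MvPolynomial.eval_monomial, one_mul]
    simp only [e]
    rw [integral_finsetSum _ (fun α _ => (integ htor _).const_mul _)]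
    rw [hS, Complex.ofReal_sum]
    apply Finset.sum_congr rfl
    intro α _
    rw [integral_const_mul]
    change (starRingEnd ℂ) (l α) * l α = _
    rw [Complex.conj_mul']
    push_cast
    ring
  have h3 : S ≤ C * Real.sqrt S := by
    calc S = ‖∫ z, MvPolynomial.eval z q ∂μ‖ := by
          rw [h2, Complex.norm_real, Real.norm_of_nonneg hS0]
      _ ≤ ∫ z, ‖MvPolynomial.eval z q‖ ∂μ := norm_integral_le_integral_norm _
      _ ≤ C * Real.sqrt S := by
          rw [← h1]
          exact hC q hsub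
  have h4 := Real.sq_sqrt hS0
  have h5 := Real.sqrt_nonneg S
  change S ≤ C ^ 2
  rcases h5.eq_or_lt with h6 | h6
  · rw [← h4, ← h6]
    norm_num
    positivity
  · have h7 : Real.sqrt S ≤ C := by
      by_contra h
      push Not at h
      nlinarith
    rw [← h4]
    exact pow_le_pow_left₀ h5 h7 2

/-- the weight attached to the set `A` -/
noncomputable def GA (s : ℝ) (A : Finset (Fin d)) (α : Fin d →₀ ℕ) : ℝ :=
  ∏ j, if j ∈ A then 1 / ((α j + 1 : ℕ) : ℝ) ^ s else 1

lemma GA_nonneg (s : ℝ) (A : Finset (Fin d)) (α : Fin d →₀ ℕ) : 0 ≤ GA s A α := by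
  apply Finset.prod_nonneg
  intro j _
  split_ifs
  · positivity
  · exact zero_le_one

lemma GA_sum {μ : Measure (Fin d → ℂ)} [IsFiniteMeasure μ] {J : Finset (Fin d)}
    (htor : OnTorus J μ) {s : ℝ} (hs : 1 < s) (A : Finset (Fin d)) (hA : SqMarginal A μ) :
    ∃ B : ℝ, 0 ≤ B ∧ ∀ u : Finset (Fin d →₀ ℕ),
      ∑ α ∈ u, ‖∫ z, MvPolynomial.eval z (MvPolynomial.monomial α (1:ℂ)) ∂μ‖ ^ 2 * GA s A α ≤ B := by
  classical
  obtain ⟨C, hC⟩ := hA
  set a : ℕ → ℝ := fun k => 1 / (((k + 1 : ℕ):ℝ)) ^ s with ha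
  have hsum : Summable a :=
    (summable_nat_add_iff (f := fun k : ℕ => 1 / (k:ℝ) ^ s) 1).mpr
      (Real.summable_one_div_nat_rpow.mpr hs)
  set F : Fin d → ℕ → ℝ := fun j k => if j ∈ A then a k else (if k = 0 then 1 else 0) with hF
  have hF0 : ∀ j k, 0 ≤ F j k := by
    intro j k
    rw [hF]
    simp only
    split_ifs
    · rw [ha]
      positivity
    · exact zero_le_one
    · exact le_rfl
  have hFs : ∀ j, Summable (F j) := by
    intro j
    by_cases hj : j ∈ A
    · have : F j = a := by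
        funext k
        rw [hF]
        simp only
        rw [if_pos hj]
      rw [this]
      exact hsum
    · apply summable_of_ne_finset_zero (s := {0})
      intro k hk
      rw [Finset.mem_singleton] at hk
      rw [hF]
      simp only
      rw [if_neg hj, if_neg hk]
  set π : (Fin d →₀ ℕ) → (Fin d →₀ ℕ) := fun α => α.filter (fun j => j ∈ A) with hπ
  have hG : ∀ α, GA s A α = ∏ j, F j (π α j) := by
    intro α
    rw [GA]
    apply Finset.prod_congr rfl
    intro j _
    rw [hF, hπ]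
    simp only
    by_cases hj : j ∈ A
    · rw [if_pos hj, if_pos hj, Finsupp.filter_apply_pos (fun j => j ∈ A) α hj]
    · rw [if_neg hj, if_neg hj, Finsupp.filter_apply_neg (fun j => j ∈ A) α hj, if_pos rfl]
  have hprod0 : 0 ≤ ∏ j, ∑' k, F j k := Finset.prod_nonneg fun j _ => tsum_nonneg (hF0 j)
  refine ⟨C ^ 2 * ∏ j, ∑' k, F j k, by positivity, fun u => ?_⟩
  simp only [hG]
  rw [← Finset.sum_fiberwise_of_maps_to (t := u.image π)
      (g := π) (fun α hα => Finset.mem_image_of_mem _ hα)]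
  have h1 : ∀ β ∈ u.image π,
      ∑ α ∈ u with π α = β, ‖∫ z, MvPolynomial.eval z (MvPolynomial.monomial α (1:ℂ)) ∂μ‖ ^ 2 *
        ∏ j, F j (π α j) ≤ C ^ 2 * ∏ j, F j (β j) := by
    intro β _
    have e : ∑ α ∈ u with π α = β,
        ‖∫ z, MvPolynomial.eval z (MvPolynomial.monomial α (1:ℂ)) ∂μ‖ ^ 2 *
        ∏ j, F j (π α j) =
        (∑ α ∈ u with π α = β,
          ‖∫ z, MvPolynomial.eval z (MvPolynomial.monomial α (1:ℂ)) ∂μ‖ ^ 2) *
          ∏ j, F j (β j) := by
      rw [Finset.sum_mul]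
      apply Finset.sum_congr rfl
      intro α hα
      rw [(Finset.mem_filter.mp hα).2]
    rw [e]
    apply mul_le_mul_of_nonneg_right _ (Finset.prod_nonneg fun j _ => hF0 j _)
    apply fiber_gen htor C
    intro q hq
    apply hC (fun j => β j) q
    intro α hα j hj
    have h2 := (Finset.mem_filter.mp (hq hα)).2
    rw [← h2, hπ]
    simp only
    rw [Finsupp.filter_apply_pos (fun j => j ∈ A) α hj]
  refine (Finset.sum_le_sum h1).trans ?_
  rw [← Finset.mul_sum]
  exact mul_le_mul_of_nonneg_left (box_sum F hF0 hFs _) (sq_nonneg _)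

lemma wt_cover {t σ : ℝ} (hσ0 : 0 < σ) (hσt : σ < t) {J : Finset (Fin d)}
    (𝒜 : Finset (Finset (Fin d))) (lam : Finset (Fin d) → ℝ) (h0 : ∀ A ∈ 𝒜, 0 ≤ lam A)
    (h1 : ∑ A ∈ 𝒜, lam A = 1) (hσ : ∀ j ∈ J, ∑ A ∈ 𝒜 with j ∈ A, lam A ≤ σ)
    (α : Fin d →₀ ℕ) (hα : α.support ⊆ J) :
    (wt t α)⁻¹ ≤ ∑ A ∈ 𝒜, lam A * GA (t / σ) A α := by
  classical
  have ht0 : 0 < t := hσ0.trans hσt
  set s := t / σ with hs
  have hs0 : 0 < s := div_pos ht0 hσ0
  refine le_trans ?_ (Real.geom_mean_le_arith_mean_weighted 𝒜 lam (fun A => GA s A α) h0 h1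
    (fun A _ => GA_nonneg s A α))
  set x : Fin d → ℝ := fun j => 1 / ((α j + 1 : ℕ) : ℝ) ^ s with hx
  have hx0 : ∀ j, 0 < x j := fun j => by rw [hx]; positivity
  have e1 : ∏ A ∈ 𝒜, GA s A α ^ lam A =
      ∏ j, x j ^ (∑ A ∈ 𝒜 with j ∈ A, lam A) := by
    have e2 : ∀ A ∈ 𝒜, GA s A α ^ lam A = ∏ j, (if j ∈ A then x j else 1) ^ lam A := by
      intro A _
      rw [GA]
      symm
      apply Real.finset_prod_rpow
      intro j _
      split_ifs
      · exact (hx0 j).le
      · exact zero_le_one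
    rw [Finset.prod_congr rfl e2, Finset.prod_comm]
    apply Finset.prod_congr rfl
    intro j _
    rw [Real.rpow_sum_of_pos (hx0 j), Finset.prod_filter]
    apply Finset.prod_congr rfl
    intro A _
    split_ifs
    · rfl
    · exact Real.one_rpow _
  rw [e1, wt, ← Finset.prod_inv_distrib]
  apply Finset.prod_le_prod
  · intro j _
    positivity
  · intro j _
    by_cases hj : j ∈ J
    · have h2 := hσ j hj
      set M := ∑ A ∈ 𝒜 with j ∈ A, lam A with hM
      have h3 : x j ^ M = (1 + (α j : ℝ)) ^ (-(s * M)) := by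
        rw [hx]
        simp only
        rw [one_div, ← Real.rpow_neg (by positivity), ← Real.rpow_mul (by positivity)]
        push_cast
        rw [add_comm (α j : ℝ) 1]
        congr 1
        ring
      rw [h3, ← Real.rpow_neg (by positivity)]
      have h4 : (0:ℝ) ≤ α j := Nat.cast_nonneg _
      apply Real.rpow_le_rpow_of_exponent_le (by linarith)
      have h5 : s * M ≤ s * σ := mul_le_mul_of_nonneg_left h2 hs0.le
      have h6 : s * σ = t := by rw [hs]; field_simp
      linarith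
    · have h2 : α j = 0 := by
        by_contra h
        exact hj (hα (Finsupp.mem_support_iff.mpr h))
      have h3 : x j = 1 := by
        rw [hx]
        simp only
        rw [h2]
        simp
      rw [h3, Real.one_rpow, h2]
      simp

theorem codim_nec {t σ : ℝ} {μ : Measure (Fin d → ℂ)} [IsFiniteMeasure μ] {J : Finset (Fin d)}
    (hσ0 : 0 < σ) (hσt : σ < t) (𝒜 : Finset (Finset (Fin d))) (lam : Finset (Fin d) → ℝ)
    (hl0 : ∀ A ∈ 𝒜, 0 ≤ lam A) (hl1 : ∑ A ∈ 𝒜, lam A = 1)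
    (hσ : ∀ j ∈ J, ∑ A ∈ 𝒜 with j ∈ A, lam A ≤ σ) (hμ : μ ≠ 0) (htor : OnTorus J μ)
    (hm : ∀ A ∈ 𝒜, SqMarginal A μ) {P : MvPolynomial (Fin d) ℂ}
    (h0 : ∀ᵐ z ∂μ, MvPolynomial.eval z P = 0) :
    ¬ ShiftCyclic t (P : MvPowerSeries (Fin d) ℂ) := by
  classical
  intro hcyc
  have hs1 : 1 < t / σ := (one_lt_div hσ0).mpr hσt
  have hB : ∀ A, ∃ B : ℝ, 0 ≤ B ∧ (A ∈ 𝒜 → ∀ u : Finset (Fin d →₀ ℕ),
      ∑ α ∈ u, ‖∫ z, MvPolynomial.eval z (MvPolynomial.monomial α (1:ℂ)) ∂μ‖ ^ 2 *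
        GA (t / σ) A α ≤ B) := by
    intro A
    by_cases hA : A ∈ 𝒜
    · obtain ⟨B, hB0, hB⟩ := GA_sum htor hs1 A (hm A hA)
      exact ⟨B, hB0, fun _ => hB⟩
    · exact ⟨0, le_rfl, fun h => absurd h hA⟩
  choose B hB0 hBs using hB
  set l : (Fin d →₀ ℕ) → ℂ := fun α => ∫ z, MvPolynomial.eval z (MvPolynomial.monomial α (1:ℂ)) ∂μ
    with hl
  set A : ℝ := ∑ K ∈ 𝒜, lam K * B K with hA
  have hA0 : 0 ≤ A := Finset.sum_nonneg fun K hK => mul_nonneg (hl0 K hK) (hB0 K)
  have hbd : ∀ s : Finset (Fin d →₀ ℕ), ∑ α ∈ s, ‖l α‖ ^ 2 / wt t α ≤ A := by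
    intro s
    have h1 : ∑ α ∈ s, ‖l α‖ ^ 2 / wt t α ≤
        ∑ α ∈ s, ∑ K ∈ 𝒜, lam K * (‖l α‖ ^ 2 * GA (t / σ) K α) := by
      apply Finset.sum_le_sum
      intro α _
      by_cases hα : α.support ⊆ J
      swap
      · have hl0 : l α = 0 := by
          rw [Finset.not_subset] at hα
          obtain ⟨i, hi, hiJ⟩ := hα
          apply integral_eq_zero_of_ae
          filter_upwards [htor] with z hz
          rw [MvPolynomial.eval_monomial, one_mul, Finsupp.prod_fintype _ _ (fun _ => pow_zero _)]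
          apply Finset.prod_eq_zero (mem_univ i)
          rw [(hz i).2 hiJ, zero_pow (Finsupp.mem_support_iff.mp hi)]
        rw [hl0, norm_zero]
        norm_num
      rw [div_eq_mul_inv]
      refine (mul_le_mul_of_nonneg_left (wt_cover hσ0 hσt 𝒜 lam hl0 hl1 hσ α hα)
        (sq_nonneg _)).trans (le_of_eq ?_)
      rw [Finset.mul_sum]
      apply Finset.sum_congr rfl
      intro K _
      ring
    refine h1.trans ?_
    rw [Finset.sum_comm, hA]
    apply Finset.sum_le_sum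
    intro K hK
    rw [← Finset.mul_sum]
    exact mul_le_mul_of_nonneg_left (hBs K hK s) (hl0 K hK)
  have hb : ∀ f : MvPolynomial (Fin d) ℂ,
      ‖∫ z, MvPolynomial.eval z f ∂μ‖ ^ 2 ≤ A * normSq t (f : MvPowerSeries (Fin d) ℂ) := by
    intro f
    have h1 : ‖∫ z, MvPolynomial.eval z f ∂μ‖ ≤
        ∑ α ∈ f.support, ‖coeff α (f : MvPowerSeries (Fin d) ℂ)‖ * ‖l α‖ := by
      have e : ∀ z : Fin d → ℂ, MvPolynomial.eval z f =
          ∑ α ∈ f.support, f.coeff α * MvPolynomial.eval z (MvPolynomial.monomial α (1:ℂ)) := by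
        intro z
        conv_lhs => rw [f.as_sum]
        rw [map_sum]
        apply Finset.sum_congr rfl
        intro α _
        rw [MvPolynomial.eval_monomial, MvPolynomial.eval_monomial, one_mul]
      simp only [e]
      rw [integral_finsetSum _ (fun α _ => (integ htor _).const_mul _)]
      refine (norm_sum_le _ _).trans (le_of_eq ?_)
      apply Finset.sum_congr rfl
      intro α _
      rw [integral_const_mul, norm_mul, MvPolynomial.coeff_coe]
    refine (pow_le_pow_left₀ (norm_nonneg _) h1 2).trans ?_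
    apply cs_bound t _ (mem_poly t f) f.support (fun α => ‖l α‖) (fun α => norm_nonneg _) A
    exact hbd f.support
  set m : ℝ := μ.real Set.univ with hmd
  have hm0 : 0 < m := by
    rw [hmd, measureReal_def]
    apply ENNReal.toReal_pos
    · rwa [Ne, Measure.measure_univ_eq_zero]
    · exact measure_ne_top μ _
  obtain ⟨Q, _, hQ⟩ := hcyc.2 1 (mem_one t) (m ^ 2 / (A + 1)) (by positivity)
  have h1 := hb (Q * P - 1)
  have h2 : ∫ z, MvPolynomial.eval z (Q * P - 1) ∂μ = -(m : ℂ) := by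
    have e : ∀ᵐ z ∂μ, MvPolynomial.eval z (Q * P - 1) = -1 := by
      filter_upwards [h0] with z hz
      rw [map_sub, map_mul, hz, mul_zero, map_one, zero_sub]
    rw [integral_congr_ae e, integral_const]
    simp [hmd]
  rw [h2, norm_neg, Complex.norm_real, Real.norm_of_nonneg hm0.le,
    coe_sub', MvPolynomial.coe_mul, MvPolynomial.coe_one] at h1
  have h3 : A * normSq t ((Q : MvPowerSeries (Fin d) ℂ) * (P : MvPowerSeries (Fin d) ℂ) - 1) ≤
      A * (m ^ 2 / (A + 1)) := mul_le_mul_of_nonneg_left hQ.le hA0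
  have h4 : A * (m ^ 2 / (A + 1)) < m ^ 2 := by
    rw [mul_div_assoc', div_lt_iff₀ (by positivity)]
    nlinarith [sq_pos_of_pos hm0]
  linarith

end Pool.Agent.H650R3.Cyc
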