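import Pool.Agent.H650R3.Cyc.Crit

set_option autoImplicit false

/-! Polynomials vanishing on a coset of a subgroup of the torus (helper file). -/

namespace Pool.Agent.H650R3.Cyc
open Finset MvPowerSeries Filter Topology

variable {d : ℕ}

/-- the exponent as an integer vector -/
def toZ (α : Fin d →₀ ℕ) : Fin d → ℤ := fun j => (α j : ℤ)

lemma toZ_add (α β : Fin d →₀ ℕ) : toZ (α + β) = toZ α + toZ β := by
  funext j
  simp [toZ]

open Classical in
/-- the terms `1 / w_t(β)` over the `β` in `L` with nonnegative entries, zero elsewhere -/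
noncomputable def cosTerm (t : ℝ) (L : AddSubgroup (Fin d → ℤ)) (β : Fin d →₀ ℕ) : ℝ :=
  if toZ β ∈ L then (wt t β)⁻¹ else 0

lemma cosTerm_nonneg (t : ℝ) (L : AddSubgroup (Fin d → ℤ)) (β : Fin d →₀ ℕ) :
    0 ≤ cosTerm t L β := by
  unfold cosTerm
  split_ifs
  · exact inv_nonneg.mpr (wt_pos t β).le
  · exact le_rfl

open Classical in
/-- all the sums of `c_α ζ^α` over the exponents `α` of `P` in one class modulo `L` vanish -/
def ClassSumsZero (P : MvPolynomial (Fin d) ℂ) (ζ : Fin d → ℂ) (L : AddSubgroup (Fin d → ℤ)) :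
    Prop :=
  ∀ γ : Fin d → ℤ, ∑ α ∈ P.support with toZ α - γ ∈ L, P.coeff α * ∏ j, ζ j ^ α j = 0

theorem coset_nec {t : ℝ} {P : MvPolynomial (Fin d) ℂ} {L : AddSubgroup (Fin d → ℤ)}
    {ζ : Fin d → ℂ} (hζ : ∀ j, ‖ζ j‖ = 1) (h0 : ClassSumsZero P ζ L)
    (hs : Summable (cosTerm t L)) : ¬ ShiftCyclic t (P : MvPowerSeries (Fin d) ℂ) := by
  classical
  intro hcyc
  set χ : (Fin d →₀ ℕ) → ℂ := fun α => if toZ α ∈ L then ev ζ α else 0 with hχ
  have hχn : ∀ α, ‖χ α‖ ^ 2 / wt t α = cosTerm t L α := by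
    intro α
    rw [hχ, cosTerm]
    simp only
    split_ifs
    · rw [ev_norm hζ, one_pow, one_div]
    · rw [norm_zero]
      simp
  let Λ : MvPolynomial (Fin d) ℂ →ₗ[ℂ] ℂ := (MvPolynomial.basisMonomials (Fin d) ℂ).constr ℂ χ
  have hLm : ∀ α, Λ (MvPolynomial.monomial α 1) = χ α := by
    intro α
    have := (MvPolynomial.basisMonomials (Fin d) ℂ).constr_basis ℂ χ α
    rwa [MvPolynomial.coe_basisMonomials] at this
  have hLmc : ∀ α c, Λ (MvPolynomial.monomial α c) = c * χ α := by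
    intro α c
    have e : MvPolynomial.monomial α c = c • MvPolynomial.monomial α (1:ℂ) := by
      rw [MvPolynomial.smul_monomial, smul_eq_mul, mul_one]
    rw [e, map_smul, hLm, smul_eq_mul]
  have hLf : ∀ f : MvPolynomial (Fin d) ℂ, Λ f = ∑ α ∈ f.support, f.coeff α * χ α := by
    intro f
    conv_lhs => rw [f.as_sum]
    rw [map_sum]
    apply Finset.sum_congr rfl
    intro α _
    rw [hLmc]
  have hann : ∀ γ, Λ (P * MvPolynomial.monomial γ 1) = 0 := by
    intro γ
    have e : P * MvPolynomial.monomial γ (1:ℂ) =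
        ∑ α ∈ P.support, MvPolynomial.monomial (γ + α) (P.coeff α) := by
      conv_lhs => rw [P.as_sum]
      rw [Finset.sum_mul]
      apply Finset.sum_congr rfl
      intro α _
      rw [MvPolynomial.monomial_mul, mul_one, add_comm]
    rw [e, map_sum]
    have h1 := h0 (-(toZ γ))
    have h2 : ∑ α ∈ P.support, Λ (MvPolynomial.monomial (γ + α) (P.coeff α)) =
        ev ζ γ * ∑ α ∈ P.support with toZ α - (-(toZ γ)) ∈ L, P.coeff α * ∏ j, ζ j ^ α j := by
      rw [Finset.sum_filter, Finset.mul_sum]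
      apply Finset.sum_congr rfl
      intro α _
      rw [hLmc, hχ]
      simp only
      have h3 : toZ (γ + α) = toZ α - (-(toZ γ)) := by
        rw [toZ_add, sub_neg_eq_add, add_comm]
      rw [h3]
      split_ifs
      · rw [ev_add, ev, ev]
        ring
      · ring
    rw [h2, h1, mul_zero]
  have hann2 : ∀ Q : MvPolynomial (Fin d) ℂ, Λ (Q * P) = 0 := by
    intro Q
    have e : Q * P = ∑ γ ∈ Q.support, Q.coeff γ • (P * MvPolynomial.monomial γ (1:ℂ)) := by
      conv_lhs => rw [Q.as_sum]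
      rw [Finset.sum_mul]
      apply Finset.sum_congr rfl
      intro γ _
      rw [← mul_smul_comm, MvPolynomial.smul_monomial, smul_eq_mul, mul_one, mul_comm]
    rw [e, map_sum]
    apply Finset.sum_eq_zero
    intro γ _
    rw [map_smul, hann, smul_zero]
  have hL1 : Λ 1 = 1 := by
    have h1 := hLm 0
    have h2 : toZ (0 : Fin d →₀ ℕ) ∈ L := by
      have : toZ (0 : Fin d →₀ ℕ) = 0 := by
        funext j
        simp [toZ]
      rw [this]
      exact L.zero_mem
    rw [hχ] at h1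
    simp only at h1
    rw [if_pos h2] at h1
    have h3 : ev ζ 0 = 1 := by
      rw [ev]
      simp
    rw [h3] at h1
    exact h1
  set A := ∑' α, cosTerm t L α with hA
  have hA0 : 0 ≤ A := tsum_nonneg (cosTerm_nonneg t L)
  have hb : ∀ f : MvPolynomial (Fin d) ℂ,
      ‖Λ f‖ ^ 2 ≤ A * normSq t (f : MvPowerSeries (Fin d) ℂ) := by
    intro f
    have h1 : ‖Λ f‖ ≤ ∑ α ∈ f.support, ‖coeff α (f : MvPowerSeries (Fin d) ℂ)‖ * ‖χ α‖ := by
      rw [hLf]
      refine (norm_sum_le _ _).trans (le_of_eq ?_)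
      apply Finset.sum_congr rfl
      intro α _
      rw [norm_mul, MvPolynomial.coeff_coe]
    refine (pow_le_pow_left₀ (norm_nonneg _) h1 2).trans ?_
    apply cs_bound t _ (mem_poly t f) f.support (fun α => ‖χ α‖) (fun α => norm_nonneg _) A
    simp only [hχn]
    exact hs.sum_le_tsum _ fun α _ => cosTerm_nonneg t L α
  obtain ⟨Q, _, hQ⟩ := hcyc.2 1 (mem_one t) (1 / (A + 1)) (by positivity)
  have h1 := hb (Q * P - 1)
  rw [map_sub, hann2, hL1, zero_sub, norm_neg, norm_one, one_pow,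
    coe_sub', MvPolynomial.coe_mul, MvPolynomial.coe_one] at h1
  have h2 : A * normSq t ((Q : MvPowerSeries (Fin d) ℂ) * (P : MvPowerSeries (Fin d) ℂ) - 1) ≤
      A * (1 / (A + 1)) := mul_le_mul_of_nonneg_left hQ.le hA0
  have h3 : A * (1 / (A + 1)) < 1 := by
    rw [mul_one_div, div_lt_one (by positivity)]
    linarith
  linarith

end Pool.Agent.H650R3.Cyc
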