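import Pool.Agent.H650R3.Cyc.Nil

set_option autoImplicit false

/-! The lattice sum criterion (helper file). -/

namespace Pool.Agent.H650R3.Cyc
open Finset MvPowerSeries Filter Topology

variable {d : ℕ}

/-- `β` is a difference of two sums of exponents of `P`, that is, `β` has nonnegative entries and
lies in the subgroup of `ℤ^d` generated by the exponents of `P` -/
def InLattice (P : MvPolynomial (Fin d) ℂ) (β : Fin d →₀ ℕ) : Prop :=
  ∃ μ ∈ AddSubmonoid.closure (P.support : Set (Fin d →₀ ℕ)),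
    β + μ ∈ AddSubmonoid.closure (P.support : Set (Fin d →₀ ℕ))

open Classical in
/-- the terms `1 / w_t(β)` over the `β` in the lattice, zero elsewhere -/
noncomputable def latTerm (t : ℝ) (P : MvPolynomial (Fin d) ℂ) (β : Fin d →₀ ℕ) : ℝ :=
  if InLattice P β then (wt t β)⁻¹ else 0

lemma latTerm_nonneg (t : ℝ) (P : MvPolynomial (Fin d) ℂ) (β : Fin d →₀ ℕ) :
    0 ≤ latTerm t P β := by
  unfold latTerm
  split_ifs
  · exact inv_nonneg.mpr (wt_pos t β).le
  · exact le_rfl

/-- `z^α` at the point `ζ` -/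
noncomputable def ev (ζ : Fin d → ℂ) (α : Fin d →₀ ℕ) : ℂ := ∏ j, ζ j ^ α j

lemma ev_norm {ζ : Fin d → ℂ} (hζ : ∀ j, ‖ζ j‖ = 1) (α : Fin d →₀ ℕ) : ‖ev ζ α‖ = 1 := by
  rw [ev, norm_prod]
  apply Finset.prod_eq_one
  intro j _
  rw [norm_pow, hζ, one_pow]

lemma ev_ne {ζ : Fin d → ℂ} (hζ : ∀ j, ‖ζ j‖ = 1) (α : Fin d →₀ ℕ) : ev ζ α ≠ 0 := by
  intro h
  have := ev_norm hζ α
  rw [h, norm_zero] at this
  exact zero_ne_one this

lemma ev_add (ζ : Fin d → ℂ) (α β : Fin d →₀ ℕ) : ev ζ (α + β) = ev ζ α * ev ζ β := by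
  rw [ev, ev, ev, ← Finset.prod_mul_distrib]
  apply Finset.prod_congr rfl
  intro j _
  rw [Finsupp.add_apply, pow_add]

/-- summability of the lattice sum from an annihilating functional -/
lemma lat_summable {t : ℝ} {P : MvPolynomial (Fin d) ℂ} {L : MvPolynomial (Fin d) ℂ →ₗ[ℂ] ℂ}
    (hL : Bdd t L) (u : (Fin d →₀ ℕ) → ℂ) (hu : ∀ α, ‖u α‖ = 1)
    (g : MvPolynomial (Fin d) ℂ) (hg : ∃ f, L (g * f) ≠ 0)
    (hann : ∀ α ∈ P.support.erase 0, ∀ f,
      L (g * ((1 - MvPolynomial.monomial α (u α)) * f)) = 0) :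
    Summable (latTerm t P) := by
  classical
  obtain ⟨A, hA, hs⟩ := bdd_sum (bdd_mul hL g)
  set l : (Fin d →₀ ℕ) → ℝ := fun γ => ‖L (g * MvPolynomial.monomial γ 1)‖ with hl
  have hs' : ∀ s : Finset (Fin d →₀ ℕ), ∑ γ ∈ s, l γ ^ 2 / wt t γ ≤ A := hs
  obtain ⟨γ0, hγ0⟩ : ∃ γ0, l γ0 ≠ 0 := by
    by_contra hne
    push Not at hne
    obtain ⟨f, hf⟩ := hg
    apply hf
    rw [f.as_sum, Finset.mul_sum, map_sum]
    apply Finset.sum_eq_zero
    intro γ _
    have e : g * MvPolynomial.monomial γ (f.coeff γ) =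
        f.coeff γ • (g * MvPolynomial.monomial γ (1:ℂ)) := by
      rw [← mul_smul_comm, MvPolynomial.smul_monomial, smul_eq_mul, mul_one]
    rw [e, map_smul, norm_eq_zero.mp (hne γ), smul_zero]
  have hstep : ∀ α ∈ P.support, ∀ γ, l (γ + α) = l γ := by
    intro α hα γ
    by_cases h0 : α = 0
    · rw [h0, add_zero]
    · have h1 := hann α (Finset.mem_erase.mpr ⟨h0, hα⟩) (MvPolynomial.monomial γ 1)
      have e : g * ((1 - MvPolynomial.monomial α (u α)) * MvPolynomial.monomial γ (1:ℂ)) =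
          g * MvPolynomial.monomial γ (1:ℂ) -
            u α • (g * MvPolynomial.monomial (γ + α) (1:ℂ)) := by
        rw [sub_mul, one_mul, mul_sub, MvPolynomial.monomial_mul, mul_one, add_comm α γ,
          ← mul_smul_comm, MvPolynomial.smul_monomial, smul_eq_mul, mul_one]
      rw [e, map_sub, sub_eq_zero, map_smul, smul_eq_mul] at h1
      rw [hl]
      simp only
      rw [h1, norm_mul, hu, one_mul]
  have hmon : ∀ μ ∈ AddSubmonoid.closure (P.support : Set (Fin d →₀ ℕ)), ∀ γ,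
      l (γ + μ) = l γ := by
    intro μ hμ
    induction hμ using AddSubmonoid.closure_induction with
    | mem x hx => exact hstep x hx
    | zero => intro γ; rw [add_zero]
    | add x y _ _ hx hy => intro γ; rw [← add_assoc, hy, hx]
  have hlat : ∀ β, InLattice P β → l (β + γ0) = l γ0 := by
    rintro β ⟨μ, hμ, hβμ⟩
    rw [← hmon μ hμ (β + γ0), ← hmon _ hβμ γ0]
    congr 1
    abel
  have hpos : 0 < l γ0 := lt_of_le_of_ne (norm_nonneg _) (Ne.symm hγ0)
  refine summable_of_sum_le (c := wt |t| γ0 * (A / l γ0 ^ 2)) (latTerm_nonneg t P) ?_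
  intro s
  have h1 : ∑ β ∈ s, latTerm t P β = ∑ β ∈ s.filter (InLattice P), (wt t β)⁻¹ := by
    rw [Finset.sum_filter]
    apply Finset.sum_congr rfl
    intro β _
    rfl
  rw [h1]
  have h2 : ∑ β ∈ s.filter (InLattice P), (wt t β)⁻¹ ≤
      ∑ β ∈ s.filter (InLattice P), wt |t| γ0 * (wt t (β + γ0))⁻¹ := by
    apply Finset.sum_le_sum
    intro β _
    have h3 := wt_add t β γ0
    have h4 := wt_pos t β
    have h5 := wt_pos t (β + γ0)
    rw [← div_eq_mul_inv, le_div_iff₀ h5, ← div_eq_inv_mul, div_le_iff₀ h4]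
    exact h3
  refine h2.trans ?_
  rw [← Finset.mul_sum]
  apply mul_le_mul_of_nonneg_left _ (wt_pos |t| γ0).le
  rw [le_div_iff₀ (by positivity)]
  have h6 := hs' ((s.filter (InLattice P)).image fun β => β + γ0)
  rw [Finset.sum_image (fun x _ y _ hxy => add_right_cancel hxy)] at h6
  refine le_trans (le_of_eq ?_) h6
  rw [Finset.sum_mul]
  apply Finset.sum_congr rfl
  intro β hβ
  rw [hlat β (Finset.mem_filter.mp hβ).2]
  ring

theorem dom_suff {t : ℝ} {P : MvPolynomial (Fin d) ℂ} (hc0 : P.coeff 0 ≠ 0)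
    (hdom : ∑ α ∈ P.support.erase 0, ‖P.coeff α‖ ≤ ‖P.coeff 0‖)
    {ζ : Fin d → ℂ} (hζ : ∀ j, ‖ζ j‖ = 1) (h0 : MvPolynomial.eval ζ P = 0)
    (hns : ¬ Summable (latTerm t P)) : Approx t P 1 := by
  classical
  by_contra happ
  obtain ⟨L, hL, hL1, hLP⟩ := not_approx_dual happ
  apply hns
  set c0 := P.coeff 0 with hc
  set S := P.support.erase 0 with hS
  set r : (Fin d →₀ ℕ) → ℝ := fun α => ‖P.coeff α‖ / ‖c0‖ with hr
  have hn0 : 0 < ‖c0‖ := norm_pos_iff.mpr hc0
  set u : (Fin d →₀ ℕ) → ℂ := fun α => (ev ζ α)⁻¹ with hu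
  have hun : ∀ α, ‖u α‖ = 1 := fun α => by
    rw [hu]
    simp only
    rw [norm_inv, ev_norm hζ, inv_one]
  have hsupp : P.support = insert 0 S := by
    rw [hS, Finset.insert_erase]
    exact MvPolynomial.mem_support_iff.mpr hc0
  have hP : P = MvPolynomial.C c0 + ∑ α ∈ S, MvPolynomial.monomial α (P.coeff α) := by
    conv_lhs => rw [P.as_sum]
    rw [hsupp, Finset.sum_insert (Finset.notMem_erase _ _)]
    rfl
  have heval : c0 + ∑ α ∈ S, P.coeff α * ev ζ α = 0 := by
    rw [← h0, MvPolynomial.eval_eq', hsupp, Finset.sum_insert (Finset.notMem_erase _ _)]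
    congr 1
    simp [hc]
  set q : (Fin d →₀ ℕ) → ℂ := fun α => -(P.coeff α * ev ζ α) / c0 with hq
  have hqn : ∀ α, ‖q α‖ = r α := fun α => by
    rw [hq, hr]
    simp only
    rw [norm_div, norm_neg, norm_mul, ev_norm hζ, mul_one]
  have hqs : ∑ α ∈ S, q α = 1 := by
    rw [hq, ← Finset.sum_div, Finset.sum_neg_distrib, div_eq_one_iff_eq hc0]
    linear_combination -heval
  have hrs : ∑ α ∈ S, r α ≤ 1 := by
    rw [hr, ← Finset.sum_div, div_le_one hn0]
    exact hdom
  have hre : ∑ α ∈ S, (q α).re = 1 := by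
    have := congrArg Complex.re hqs
    rwa [Complex.re_sum, Complex.one_re] at this
  have hle : ∀ α ∈ S, 0 ≤ r α - (q α).re := fun α _ => by
    have := Complex.re_le_norm (q α)
    rw [hqn] at this
    linarith
  have hz : ∑ α ∈ S, (r α - (q α).re) = 0 := by
    apply le_antisymm _ (Finset.sum_nonneg hle)
    rw [Finset.sum_sub_distrib, hre]
    linarith
  have hzz := (Finset.sum_eq_zero_iff_of_nonneg hle).mp hz
  have hqr : ∀ α ∈ S, q α = (r α : ℂ) := by
    intro α hα
    have h1 : (q α).re = ‖q α‖ := by rw [hqn]; linarith [hzz α hα]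
    have h2 := Complex.sq_norm (q α)
    rw [Complex.normSq_apply] at h2
    have h3 : (q α).im = 0 := by
      rw [← h1] at h2
      nlinarith
    apply Complex.ext
    · rw [Complex.ofReal_re, h1, hqn]
    · rw [Complex.ofReal_im, h3]
  have hr1 : ∑ α ∈ S, r α = 1 := by
    rw [Finset.sum_sub_distrib, hre] at hz
    linarith
  have hcoef : ∀ α ∈ S, (r α : ℂ) * u α = -(P.coeff α) / c0 := by
    intro α hα
    rw [← hqr α hα, hq, hu]
    simp only
    have := ev_ne hζ α
    field_simp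
  set w : (Fin d →₀ ℕ) → MvPolynomial (Fin d) ℂ := fun α => MvPolynomial.monomial α (u α) with hw
  have hwn : ∀ α, n1 (w α) ≤ 1 := fun α => by
    rw [hw]
    simp only
    rw [n1_monomial, hun]
  set ψ : MvPolynomial (Fin d) ℂ := ∑ α ∈ S, MvPolynomial.C (r α : ℂ) *
    (MvPolynomial.C (1 / 2) * (1 + w α)) with hψ
  have hψ2 : ψ = 1 - MvPolynomial.C (1 / (2 * c0)) * P := by
    have e1 : ψ = MvPolynomial.C (1 / 2) * MvPolynomial.C (((∑ α ∈ S, r α : ℝ)) : ℂ) +
        ∑ α ∈ S, MvPolynomial.C (1 / 2) * MvPolynomial.monomial α (-(P.coeff α) / c0) := by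
      rw [hψ]
      push_cast
      rw [map_sum, Finset.mul_sum, ← Finset.sum_add_distrib]
      apply Finset.sum_congr rfl
      intro α hα
      rw [← hcoef α hα, ← MvPolynomial.C_mul_monomial]
      ring
    rw [e1, hr1, Complex.ofReal_one, map_one, mul_one]
    conv_rhs => rw [hP]
    rw [mul_add, ← map_mul, Finset.mul_sum]
    have e2 : (1 / (2 * c0)) * c0 = 1 / 2 := by field_simp
    have e3 : (1 : MvPolynomial (Fin d) ℂ) =
        MvPolynomial.C (1 / 2) + MvPolynomial.C (1 / 2) := by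
      rw [← map_add, add_halves, map_one]
    have e4 : ∑ α ∈ S, MvPolynomial.C (1 / (2 * c0)) * MvPolynomial.monomial α (P.coeff α) =
        - ∑ α ∈ S, MvPolynomial.C (1 / 2) * MvPolynomial.monomial α (-(P.coeff α) / c0) := by
      rw [← Finset.sum_neg_distrib]
      apply Finset.sum_congr rfl
      intro α _
      rw [MvPolynomial.C_mul_monomial, MvPolynomial.C_mul_monomial, ← map_neg]
      congr 1
      field_simp
    rw [e2, e4]
    linear_combination (-1 : MvPolynomial (Fin d) ℂ) * e3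
  have hLψ : ∀ f, L (ψ * f) = L f := by
    intro f
    have e : ψ * f = f - P * (MvPolynomial.C (1 / (2 * c0)) * f) := by
      rw [hψ2]
      ring
    rw [e, map_sub, hLP, sub_zero]
  have hvan : ∀ α ∈ S, ∃ N : ℕ, ∀ f, L ((1 - w α) ^ N * f) = 0 := by
    intro α hα
    have hpos : 0 < r α := by
      rw [hr]
      apply div_pos _ hn0
      rw [norm_pos_iff]
      exact MvPolynomial.mem_support_iff.mp (Finset.mem_of_mem_erase hα)
    have hsplit : r α + ∑ β ∈ S.erase α, r β = 1 := by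
      rw [Finset.add_sum_erase S r hα, hr1]
    have hr0 : ∀ β, 0 ≤ r β := fun β => by rw [hr]; positivity
    have hre0 : 0 ≤ ∑ β ∈ S.erase α, r β := Finset.sum_nonneg fun β _ => hr0 β
    apply vanish hL (w α) (∑ β ∈ S.erase α, MvPolynomial.C (r β : ℂ) *
      (MvPolynomial.C (1 / 2) * (1 + w β))) ψ (hwn α) (r α) hpos (by linarith) _ _ hLψ
    · have : 1 - r α = ∑ β ∈ S.erase α, r β := by linarith
      rw [this]
      refine (n1_sum _ _).trans ?_
      apply Finset.sum_le_sum
      intro β _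
      refine (n1_C_mul _ _).trans ?_
      rw [Complex.norm_real, Real.norm_of_nonneg (hr0 β)]
      have h1 : n1 (MvPolynomial.C (1 / 2) * (1 + w β)) ≤ 1 := by
        refine (n1_C_mul _ _).trans ?_
        have h2 := n1_add 1 (w β)
        rw [n1_one] at h2
        have h3 := hwn β
        have h4 : ‖(1 / 2 : ℂ)‖ = 1 / 2 := by norm_num
        rw [h4]
        linarith
      nlinarith [hr0 β]
    · rw [hψ]
      exact (Finset.add_sum_erase S _ hα).symm
  obtain ⟨g, hg1, hg2⟩ := elim L (fun α => 1 - w α) ⟨1, hL1⟩ S hvan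
  exact lat_summable hL u hun g hg1 hg2

/-- necessity, for every polynomial with a zero on the torus -/
theorem dom_nec {t : ℝ} {P : MvPolynomial (Fin d) ℂ}
    {ζ : Fin d → ℂ} (hζ : ∀ j, ‖ζ j‖ = 1) (h0 : MvPolynomial.eval ζ P = 0)
    (hs : Summable (latTerm t P)) : ¬ ShiftCyclic t (P : MvPowerSeries (Fin d) ℂ) := by
  classical
  intro hcyc
  set M := AddSubmonoid.closure (P.support : Set (Fin d →₀ ℕ)) with hM
  set χ : (Fin d →₀ ℕ) → ℂ := fun α => if InLattice P α then ev ζ α else 0 with hχ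
  have hχn : ∀ α, ‖χ α‖ ^ 2 / wt t α = latTerm t P α := by
    intro α
    rw [hχ, latTerm]
    simp only
    split_ifs
    · rw [ev_norm hζ, one_pow, one_div]
    · rw [norm_zero]
      simp
  let L : MvPolynomial (Fin d) ℂ →ₗ[ℂ] ℂ := (MvPolynomial.basisMonomials (Fin d) ℂ).constr ℂ χ
  have hLm : ∀ α, L (MvPolynomial.monomial α 1) = χ α := by
    intro α
    have := (MvPolynomial.basisMonomials (Fin d) ℂ).constr_basis ℂ χ α
    rwa [MvPolynomial.coe_basisMonomials] at this
  have hLmc : ∀ α c, L (MvPolynomial.monomial α c) = c * χ α := by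
    intro α c
    have e : MvPolynomial.monomial α c = c • MvPolynomial.monomial α (1:ℂ) := by
      rw [MvPolynomial.smul_monomial, smul_eq_mul, mul_one]
    rw [e, map_smul, hLm, smul_eq_mul]
  have hLf : ∀ f : MvPolynomial (Fin d) ℂ, L f = ∑ α ∈ f.support, f.coeff α * χ α := by
    intro f
    conv_lhs => rw [f.as_sum]
    rw [map_sum]
    apply Finset.sum_congr rfl
    intro α _
    rw [hLmc]
  have hlat : ∀ α ∈ P.support, ∀ γ, InLattice P (γ + α) ↔ InLattice P γ := by
    intro α hα γ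
    have hαM : α ∈ M := AddSubmonoid.subset_closure hα
    constructor
    · rintro ⟨μ, hμ, h⟩
      refine ⟨α + μ, M.add_mem hαM hμ, ?_⟩
      rwa [← add_assoc]
    · rintro ⟨μ, hμ, h⟩
      refine ⟨μ, hμ, ?_⟩
      have e : γ + α + μ = (γ + μ) + α := by abel
      rw [e]
      exact M.add_mem h hαM
  have hann : ∀ γ, L (P * MvPolynomial.monomial γ 1) = 0 := by
    intro γ
    have e : P * MvPolynomial.monomial γ (1:ℂ) =
        ∑ α ∈ P.support, MvPolynomial.monomial (γ + α) (P.coeff α) := by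
      conv_lhs => rw [P.as_sum]
      rw [Finset.sum_mul]
      apply Finset.sum_congr rfl
      intro α _
      rw [MvPolynomial.monomial_mul, mul_one, add_comm]
    rw [e, map_sum]
    by_cases hγ : InLattice P γ
    · have h1 : ∑ α ∈ P.support, L (MvPolynomial.monomial (γ + α) (P.coeff α)) =
          ev ζ γ * MvPolynomial.eval ζ P := by
        rw [MvPolynomial.eval_eq', Finset.mul_sum]
        apply Finset.sum_congr rfl
        intro α hα
        rw [hLmc, hχ]
        simp only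
        rw [if_pos ((hlat α hα γ).mpr hγ), ev_add, ev, ev]
        ring
      rw [h1, h0, mul_zero]
    · apply Finset.sum_eq_zero
      intro α hα
      rw [hLmc, hχ]
      simp only
      rw [if_neg (fun h => hγ ((hlat α hα γ).mp h)), mul_zero]
  have hann2 : ∀ Q : MvPolynomial (Fin d) ℂ, L (Q * P) = 0 := by
    intro Q
    have e : Q * P = ∑ γ ∈ Q.support, Q.coeff γ • (P * MvPolynomial.monomial γ (1:ℂ)) := by
      conv_lhs => rw [Q.as_sum]
      rw [Finset.sum_mul]
      apply Finset.sum_congr rfl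
      intro γ _
      rw [← mul_smul_comm, MvPolynomial.smul_monomial, smul_eq_mul, mul_one, mul_comm]
    rw [e, map_sum]
    apply Finset.sum_eq_zero
    intro γ _
    rw [map_smul, hann, smul_zero]
  have hL1 : L 1 = 1 := by
    have h1 := hLm 0
    have h2 : InLattice P 0 := ⟨0, M.zero_mem, by simpa using M.zero_mem⟩
    rw [hχ] at h1
    simp only at h1
    rw [if_pos h2] at h1
    have h3 : ev ζ 0 = 1 := by
      rw [ev]
      simp
    rw [h3] at h1
    exact h1
  set A := ∑' α, latTerm t P α with hA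
  have hA0 : 0 ≤ A := tsum_nonneg (latTerm_nonneg t P)
  have hb : ∀ f : MvPolynomial (Fin d) ℂ,
      ‖L f‖ ^ 2 ≤ A * normSq t (f : MvPowerSeries (Fin d) ℂ) := by
    intro f
    have h1 : ‖L f‖ ≤ ∑ α ∈ f.support, ‖coeff α (f : MvPowerSeries (Fin d) ℂ)‖ * ‖χ α‖ := by
      rw [hLf]
      refine (norm_sum_le _ _).trans (le_of_eq ?_)
      apply Finset.sum_congr rfl
      intro α _
      rw [norm_mul, MvPolynomial.coeff_coe]
    refine (pow_le_pow_left₀ (norm_nonneg _) h1 2).trans ?_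
    apply cs_bound t _ (mem_poly t f) f.support (fun α => ‖χ α‖) (fun α => norm_nonneg _) A
    simp only [hχn]
    exact hs.sum_le_tsum _ fun α _ => latTerm_nonneg t P α
  obtain ⟨Q, _, hQ⟩ := hcyc.2 1 (mem_one t) (1 / (A + 1)) (by positivity)
  have h1 := hb (Q * P - 1)
  rw [map_sub, hann2, hL1, zero_sub, norm_neg, norm_one, one_pow,
    coe_sub', MvPolynomial.coe_mul, MvPolynomial.coe_one] at h1
  have h2 : A * normSq t ((Q : MvPowerSeries (Fin d) ℂ) * (P : MvPowerSeries (Fin d) ℂ) - 1) ≤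
      A * (1 / (A + 1)) := mul_le_mul_of_nonneg_left hQ.le hA0
  have h3 : A * (1 / (A + 1)) < 1 := by
    rw [mul_one_div, div_lt_one (by positivity)]
    linarith
  linarith

end Pool.Agent.H650R3.Cyc
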