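import Mathlib

set_option autoImplicit false

/-! The Dirichlet-type spaces of the polydisk and shift-cyclicity (definitions). -/

namespace Pool.Agent.H650R3.Cyc

variable {d : ℕ}

/-- the weight `∏_j (1 + α_j)^t` -/
noncomputable def wt (t : ℝ) (α : Fin d →₀ ℕ) : ℝ := ∏ j, (1 + (α j : ℝ)) ^ t

/-- membership of a power series in `D_t(𝔻^d)`: the weighted sum of the squares of the
coefficients converges -/
def MemD (t : ℝ) (f : MvPowerSeries (Fin d) ℂ) : Prop :=
  Summable fun α : Fin d →₀ ℕ => wt t α * ‖MvPowerSeries.coeff α f‖ ^ 2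

/-- the square of the norm of `D_t(𝔻^d)` -/
noncomputable def normSq (t : ℝ) (f : MvPowerSeries (Fin d) ℂ) : ℝ :=
  ∑' α : Fin d →₀ ℕ, wt t α * ‖MvPowerSeries.coeff α f‖ ^ 2

/-- `f` is shift-cyclic in `D_t(𝔻^d)`: `f` lies in the space and every element `g` of the space is
a limit (in the norm of the space) of polynomial multiples of `f` -/
def ShiftCyclic (t : ℝ) (f : MvPowerSeries (Fin d) ℂ) : Prop :=
  MemD t f ∧ ∀ g : MvPowerSeries (Fin d) ℂ, MemD t g → ∀ ε : ℝ, 0 < ε →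
    ∃ Q : MvPolynomial (Fin d) ℂ, MemD t ((Q : MvPowerSeries (Fin d) ℂ) * f - g) ∧
      normSq t ((Q : MvPowerSeries (Fin d) ℂ) * f - g) < ε

/-- the polynomial has no zero in the open unit polydisk -/
def ZeroFree (P : MvPolynomial (Fin d) ℂ) : Prop :=
  ∀ z : Fin d → ℂ, (∀ j, ‖z j‖ < 1) → MvPolynomial.eval z P ≠ 0

end Pool.Agent.H650R3.Cyc
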