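import Pool.Agent.H650R3.Cyc.Final

set_option autoImplicit false

/-! Duality for shift-cyclicity (helper file). -/

namespace Pool.Agent.H650R3.Cyc
open Finset MvPowerSeries Filter Topology
open scoped InnerProductSpace

variable {d : ℕ}

/-- the functional is bounded in the norm of `D_t` -/
def Bdd (t : ℝ) (L : MvPolynomial (Fin d) ℂ →ₗ[ℂ] ℂ) : Prop :=
  ∃ A : ℝ, 0 ≤ A ∧ ∀ f : MvPolynomial (Fin d) ℂ,
    ‖L f‖ ^ 2 ≤ A * normSq t (f : MvPowerSeries (Fin d) ℂ)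

lemma not_approx_dual {t : ℝ} {P : MvPolynomial (Fin d) ℂ} (h : ¬ Approx t P 1) :
    ∃ L : MvPolynomial (Fin d) ℂ →ₗ[ℂ] ℂ, Bdd t L ∧ L 1 ≠ 0 ∧ ∀ f, L (P * f) = 0 := by
  classical
  let V : Submodule ℂ (lp (fun _ : (Fin d →₀ ℕ) => ℂ) 2) :=
    { carrier := {x | ∃ Q : MvPolynomial (Fin d) ℂ, ∀ α, x α = ((Real.sqrt (wt t α) : ℝ) : ℂ) *
        coeff α ((Q : MvPowerSeries (Fin d) ℂ) * (P : MvPowerSeries (Fin d) ℂ))}
      add_mem' := by
        rintro x y ⟨Q1, h1⟩ ⟨Q2, h2⟩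
        refine ⟨Q1 + Q2, fun α => ?_⟩
        rw [lp.coeFn_add, Pi.add_apply, h1, h2, MvPolynomial.coe_add, add_mul, map_add]
        ring
      zero_mem' := by
        refine ⟨0, fun α => ?_⟩
        rw [lp.coeFn_zero, Pi.zero_apply, MvPolynomial.coe_zero, zero_mul, map_zero, mul_zero]
      smul_mem' := by
        rintro c x ⟨Q, h⟩
        refine ⟨MvPolynomial.C c * Q, fun α => ?_⟩
        rw [lp.coeFn_smul, Pi.smul_apply, h, MvPolynomial.coe_mul, MvPolynomial.coe_C, mul_assoc,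
          coeff_C_mul, smul_eq_mul]
        ring }
  have hJ1 : J t 1 (mem_one t) ∉ Vᗮᗮ := by
    intro hJ1
    apply h
    rw [Submodule.orthogonal_orthogonal_eq_closure, ← SetLike.mem_coe,
        Submodule.topologicalClosure_coe, Metric.mem_closure_iff] at hJ1
    intro ε hε
    obtain ⟨x, ⟨Q, hQ⟩, hx⟩ := hJ1 (Real.sqrt ε) (Real.sqrt_pos.mpr hε)
    have hQP : MemD t ((Q : MvPowerSeries (Fin d) ℂ) * (P : MvPowerSeries (Fin d) ℂ)) := by
      rw [← MvPolynomial.coe_mul]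
      exact mem_poly t _
    have hd : MemD t ((Q : MvPowerSeries (Fin d) ℂ) * (P : MvPowerSeries (Fin d) ℂ) - 1) := by
      rw [sub_eq_add_neg]
      exact (mem_add hQP (mem_neg (mem_one t)).1).1
    have hxJ : x = J t _ hQP := by
      ext α
      rw [hQ, J_apply]
    refine ⟨Q, hd, ?_⟩
    rw [hxJ, dist_comm, dist_eq_norm, J_sub t _ _ hQP (mem_one t) hd] at hx
    rw [← J_norm t _ hd]
    calc ‖J t _ hd‖ ^ 2 < Real.sqrt ε ^ 2 := pow_lt_pow_left₀ hx (norm_nonneg _) two_ne_zero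
      _ = ε := Real.sq_sqrt hε.le
  rw [Submodule.mem_orthogonal] at hJ1
  push Not at hJ1
  obtain ⟨y, hy, hy1⟩ := hJ1
  let L : MvPolynomial (Fin d) ℂ →ₗ[ℂ] ℂ :=
    { toFun := fun f => ⟪y, J t (f : MvPowerSeries (Fin d) ℂ) (mem_poly t f)⟫_ℂ
      map_add' := by
        intro f g
        rw [← inner_add_right]
        congr 1
        ext α
        rw [lp.coeFn_add, Pi.add_apply, J_apply, J_apply, J_apply, MvPolynomial.coe_add, map_add]
        ring
      map_smul' := by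
        intro c f
        rw [RingHom.id_apply, smul_eq_mul, ← inner_smul_right]
        congr 1
        ext α
        rw [lp.coeFn_smul, Pi.smul_apply, J_apply, J_apply, MvPolynomial.smul_eq_C_mul,
          MvPolynomial.coe_mul, MvPolynomial.coe_C, coeff_C_mul, smul_eq_mul]
        ring }
  refine ⟨L, ⟨‖y‖ ^ 2, by positivity, fun f => ?_⟩, ?_, fun f => ?_⟩
  · change ‖⟪y, J t (f : MvPowerSeries (Fin d) ℂ) (mem_poly t f)⟫_ℂ‖ ^ 2 ≤ _
    rw [← J_norm t _ (mem_poly t f), ← mul_pow]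
    exact pow_le_pow_left₀ (norm_nonneg _) (norm_inner_le_norm _ _) 2
  · change ⟪y, J t ((1 : MvPolynomial (Fin d) ℂ) : MvPowerSeries (Fin d) ℂ) (mem_poly t 1)⟫_ℂ ≠ 0
    have e : J t ((1 : MvPolynomial (Fin d) ℂ) : MvPowerSeries (Fin d) ℂ) (mem_poly t 1) =
        J t 1 (mem_one t) := by
      ext α
      rw [J_apply, J_apply, MvPolynomial.coe_one]
    rw [e]
    exact hy1
  · change ⟪y, J t ((P * f : MvPolynomial (Fin d) ℂ) : MvPowerSeries (Fin d) ℂ)
      (mem_poly t (P * f))⟫_ℂ = 0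
    rw [Submodule.mem_orthogonal'] at hy
    apply hy
    refine ⟨f, fun α => ?_⟩
    rw [J_apply, MvPolynomial.coe_mul, mul_comm (P : MvPowerSeries (Fin d) ℂ)]

lemma coeff_mono (γ : Fin d →₀ ℕ) (a : ℂ) (α : Fin d →₀ ℕ) :
    coeff α ((MvPolynomial.monomial γ a : MvPolynomial (Fin d) ℂ) : MvPowerSeries (Fin d) ℂ) =
      if γ = α then a else 0 := by
  classical
  rw [MvPolynomial.coeff_coe, MvPolynomial.coeff_monomial]

/-- bounded functionals have square summable coefficients -/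
lemma bdd_sum {t : ℝ} {L : MvPolynomial (Fin d) ℂ →ₗ[ℂ] ℂ} (h : Bdd t L) :
    ∃ A : ℝ, 0 ≤ A ∧ ∀ s : Finset (Fin d →₀ ℕ),
      ∑ γ ∈ s, ‖L (MvPolynomial.monomial γ 1)‖ ^ 2 / wt t γ ≤ A := by
  classical
  obtain ⟨A, hA, hL⟩ := h
  refine ⟨A, hA, fun s => ?_⟩
  set l : (Fin d →₀ ℕ) → ℂ := fun γ => L (MvPolynomial.monomial γ 1) with hl
  set f : MvPolynomial (Fin d) ℂ :=
    ∑ γ ∈ s, MvPolynomial.monomial γ ((starRingEnd ℂ) (l γ) / (wt t γ : ℂ)) with hf
  set S : ℝ := ∑ γ ∈ s, ‖l γ‖ ^ 2 / wt t γ with hS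
  have hS0 : 0 ≤ S := Finset.sum_nonneg fun γ _ => div_nonneg (sq_nonneg _) (wt_pos t γ).le
  have h1 : L f = (S : ℂ) := by
    rw [hf, map_sum, hS, Complex.ofReal_sum]
    apply Finset.sum_congr rfl
    intro γ _
    have e : MvPolynomial.monomial γ ((starRingEnd ℂ) (l γ) / (wt t γ : ℂ)) =
        ((starRingEnd ℂ) (l γ) / (wt t γ : ℂ)) • MvPolynomial.monomial γ (1:ℂ) := by
      rw [MvPolynomial.smul_monomial, smul_eq_mul, mul_one]
    rw [e, map_smul, smul_eq_mul]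
    change _ * l γ = _
    rw [div_mul_eq_mul_div, Complex.conj_mul']
    push_cast
    ring
  have hc : ∀ α, coeff α (f : MvPowerSeries (Fin d) ℂ) =
      if α ∈ s then (starRingEnd ℂ) (l α) / (wt t α : ℂ) else 0 := by
    intro α
    rw [MvPolynomial.coeff_coe, hf, MvPolynomial.coeff_sum]
    simp only [MvPolynomial.coeff_monomial]
    rw [Finset.sum_ite_eq' s α]
  have h2 : normSq t (f : MvPowerSeries (Fin d) ℂ) = S := by
    rw [normSq, tsum_eq_sum (s := s)]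
    · rw [hS]
      apply Finset.sum_congr rfl
      intro α hα
      rw [hc, if_pos hα, norm_div, RCLike.norm_conj, Complex.norm_real,
        Real.norm_of_nonneg (wt_pos t α).le]
      have := wt_pos t α
      field_simp
    · intro α hα
      rw [hc, if_neg hα]
      simp
  have h3 := hL f
  rw [h1, h2, Complex.norm_real, Real.norm_of_nonneg hS0] at h3
  by_contra hlt
  push Not at hlt
  nlinarith

lemma bdd_mul {t : ℝ} {L : MvPolynomial (Fin d) ℂ →ₗ[ℂ] ℂ} (h : Bdd t L)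
    (g : MvPolynomial (Fin d) ℂ) :
    Bdd t (L.comp (LinearMap.mulLeft ℂ g)) := by
  obtain ⟨A, hA, hL⟩ := h
  obtain ⟨C, hC, hC1⟩ := mem_poly_mul t g
  refine ⟨A * C, by positivity, fun f => ?_⟩
  rw [LinearMap.comp_apply, LinearMap.mulLeft_apply]
  refine (hL _).trans ?_
  rw [mul_assoc]
  apply mul_le_mul_of_nonneg_left _ hA
  rw [MvPolynomial.coe_mul]
  exact (hC1 _ (mem_poly t f)).2

end Pool.Agent.H650R3.Cyc
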