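import Mathlib

set_option autoImplicit false

/-! The Wiener norm of polynomials and differences of powers (helper file). -/

namespace Pool.Agent.H650R3.Cyc
open Finset

variable {d : ℕ}

/-- the sum of the absolute values of the coefficients -/
noncomputable def n1 (f : MvPolynomial (Fin d) ℂ) : ℝ := ∑ α ∈ f.support, ‖f.coeff α‖

lemma n1_eq {f : MvPolynomial (Fin d) ℂ} {s : Finset (Fin d →₀ ℕ)} (h : f.support ⊆ s) :
    n1 f = ∑ α ∈ s, ‖f.coeff α‖ :=
  Finset.sum_subset h fun α _ hα => by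
    rw [MvPolynomial.notMem_support_iff.mp hα, norm_zero]

lemma n1_nonneg (f : MvPolynomial (Fin d) ℂ) : 0 ≤ n1 f :=
  Finset.sum_nonneg fun _ _ => norm_nonneg _

lemma n1_add (f g : MvPolynomial (Fin d) ℂ) : n1 (f + g) ≤ n1 f + n1 g := by
  classical
  rw [n1_eq (MvPolynomial.support_add (p := f) (q := g)), n1_eq (Finset.subset_union_left (s₁ := f.support) (s₂ := g.support)),
    n1_eq (Finset.subset_union_right (s₁ := f.support) (s₂ := g.support)), ← Finset.sum_add_distrib]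
  apply Finset.sum_le_sum
  intro α _
  rw [MvPolynomial.coeff_add]
  exact norm_add_le _ _

lemma n1_zero : n1 (0 : MvPolynomial (Fin d) ℂ) = 0 := by
  rw [n1, MvPolynomial.support_zero, Finset.sum_empty]

lemma n1_sum {ι : Type*} (s : Finset ι) (F : ι → MvPolynomial (Fin d) ℂ) :
    n1 (∑ i ∈ s, F i) ≤ ∑ i ∈ s, n1 (F i) := by
  classical
  induction s using Finset.induction_on with
  | empty => rw [Finset.sum_empty, Finset.sum_empty, n1_zero]
  | insert a s ha ih =>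
    rw [Finset.sum_insert ha, Finset.sum_insert ha]
    exact (n1_add _ _).trans (by linarith)

lemma n1_monomial (β : Fin d →₀ ℕ) (c : ℂ) : n1 (MvPolynomial.monomial β c) = ‖c‖ := by
  classical
  rw [n1_eq MvPolynomial.support_monomial_subset, Finset.sum_singleton,
    MvPolynomial.coeff_monomial, if_pos rfl]

lemma n1_monomial_mul (β : Fin d →₀ ℕ) (c : ℂ) (f : MvPolynomial (Fin d) ℂ) :
    n1 (MvPolynomial.monomial β c * f) ≤ ‖c‖ * n1 f := by
  conv_lhs => rw [f.as_sum]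
  rw [Finset.mul_sum]
  refine (n1_sum _ _).trans (le_of_eq ?_)
  rw [n1, Finset.mul_sum]
  apply Finset.sum_congr rfl
  intro γ _
  rw [MvPolynomial.monomial_mul, n1_monomial, norm_mul]

lemma n1_mul (f g : MvPolynomial (Fin d) ℂ) : n1 (f * g) ≤ n1 f * n1 g := by
  conv_lhs => rw [f.as_sum]
  rw [Finset.sum_mul]
  refine (n1_sum _ _).trans ?_
  rw [n1, Finset.sum_mul]
  apply Finset.sum_le_sum
  intro γ _
  exact n1_monomial_mul _ _ _

lemma n1_one : n1 (1 : MvPolynomial (Fin d) ℂ) = 1 := by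
  have := n1_monomial (d := d) 0 1
  rwa [norm_one] at this

lemma n1_pow (f : MvPolynomial (Fin d) ℂ) (n : ℕ) : n1 (f ^ n) ≤ n1 f ^ n := by
  induction n with
  | zero => rw [pow_zero, pow_zero, n1_one]
  | succ n ih =>
    rw [pow_succ, pow_succ]
    exact (n1_mul _ _).trans (mul_le_mul_of_nonneg_right ih (n1_nonneg _))

lemma n1_C_mul (c : ℂ) (f : MvPolynomial (Fin d) ℂ) :
    n1 (MvPolynomial.C c * f) ≤ ‖c‖ * n1 f := n1_monomial_mul 0 c f

lemma var_sum (n : ℕ) : ∑ j ∈ range (n + 1), (n.choose j : ℝ) * ((n:ℝ) - 2 * j) ^ 2 =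
    (n:ℝ) * (2:ℝ) ^ n := by
  have h := bernsteinPolynomial.variance (R := ℝ) n
  have h1 := congrArg (Polynomial.eval (1 / 2 : ℝ)) h
  simp only [bernsteinPolynomial, Polynomial.eval_finsetSum, Polynomial.eval_mul,
    Polynomial.eval_pow, Polynomial.eval_sub, Polynomial.eval_X, Polynomial.eval_one,
    Polynomial.eval_natCast, Polynomial.eval_smul, nsmul_eq_mul] at h1
  have h2 : ∑ j ∈ range (n + 1), (n.choose j : ℝ) * ((n:ℝ) - 2 * j) ^ 2 = 4 * 2 ^ n *
      ∑ x ∈ range (n + 1), ((n:ℝ) * (1 / 2) - x) ^ 2 * ((n.choose x : ℝ) * (1 / 2) ^ x *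
        (1 - 1 / 2) ^ (n - x)) := by
    rw [Finset.mul_sum]
    apply Finset.sum_congr rfl
    intro x hx
    rw [mem_range] at hx
    have e : (1 / 2 : ℝ) ^ x * (1 - 1 / 2) ^ (n - x) * 2 ^ n = 1 := by
      have e1 : (1 - 1 / 2 : ℝ) = 1 / 2 := by norm_num
      rw [e1, ← pow_add]
      rw [show x + (n - x) = n by omega, ← mul_pow]
      norm_num
    linear_combination (-(n.choose x : ℝ) * ((n:ℝ) - 2 * x) ^ 2) * e
  rw [h2, h1]
  ring

lemma mean_id {R : Type*} [CommRing R] (w : R) (k : ℕ) :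
    ∑ j ∈ range (k + 2), (((k + 1).choose j : ℕ) : R) * (((k + 1 : ℕ) : R) - 2 * (j : R)) * w ^ j =
      ((k + 1 : ℕ) : R) * ((1 - w) * (1 + w) ^ k) := by
  have h1 : ∑ j ∈ range (k + 2), (((k + 1).choose j : ℕ) : R) * w ^ j = (1 + w) ^ (k + 1) := by
    rw [add_comm 1 w, add_pow]
    apply Finset.sum_congr rfl
    intro j _
    rw [one_pow]
    ring
  have h0 : ∑ j ∈ range (k + 1), ((k.choose j : ℕ) : R) * w ^ j = (1 + w) ^ k := by
    rw [add_comm 1 w, add_pow]
    apply Finset.sum_congr rfl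
    intro j _
    rw [one_pow]
    ring
  have h2 : ∑ j ∈ range (k + 2), (((k + 1).choose j : ℕ) : R) * (j : R) * w ^ j =
      ((k + 1 : ℕ) : R) * (w * (1 + w) ^ k) := by
    rw [Finset.sum_range_succ', ← h0, Finset.mul_sum, Finset.mul_sum]
    simp only [Nat.cast_zero, mul_zero, zero_mul, add_zero]
    apply Finset.sum_congr rfl
    intro j _
    have h3 := Nat.add_one_mul_choose_eq k j
    have h4 : ((k + 1 : ℕ) : R) * ((k.choose j : ℕ) : R) =
        (((k + 1).choose (j + 1) : ℕ) : R) * ((j + 1 : ℕ) : R) := by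
      rw [← Nat.cast_mul, ← Nat.cast_mul]
      exact congrArg _ h3
    rw [← h4, pow_succ]
    ring
  have h5 : ∑ j ∈ range (k + 2), (((k + 1).choose j : ℕ) : R) *
      (((k + 1 : ℕ) : R) - 2 * (j : R)) * w ^ j =
      ((k + 1 : ℕ) : R) * ∑ j ∈ range (k + 2), (((k + 1).choose j : ℕ) : R) * w ^ j -
      2 * ∑ j ∈ range (k + 2), (((k + 1).choose j : ℕ) : R) * (j : R) * w ^ j := by
    rw [Finset.mul_sum, Finset.mul_sum, ← Finset.sum_sub_distrib]
    apply Finset.sum_congr rfl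
    intro j _
    ring
  rw [h5, h1, h2]
  ring

lemma diff1 (w : MvPolynomial (Fin d) ℂ) (hw : n1 w ≤ 1) (k : ℕ) :
    n1 ((1 - w) * (MvPolynomial.C (1 / 2) * (1 + w)) ^ k) ≤ 2 / Real.sqrt (k + 1) := by
  set s : ℝ := ∑ j ∈ range (k + 2), ((k + 1).choose j : ℝ) * |(((k + 1 : ℕ):ℝ)) - 2 * j| with hs
  have hs2 : s ^ 2 ≤ 2 ^ (k + 1) * (((k + 1 : ℕ):ℝ) * 2 ^ (k + 1)) := by
    have e : s = ∑ j ∈ range (k + 2), Real.sqrt ((k + 1).choose j : ℝ) *
        (Real.sqrt ((k + 1).choose j : ℝ) * |(((k + 1 : ℕ):ℝ)) - 2 * j|) := by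
      rw [hs]
      apply Finset.sum_congr rfl
      intro j _
      rw [← mul_assoc, Real.mul_self_sqrt (Nat.cast_nonneg _)]
    rw [e]
    refine (Finset.sum_mul_sq_le_sq_mul_sq _ _ _).trans (le_of_eq ?_)
    congr 1
    · have h1 := Nat.sum_range_choose (k + 1)
      have h2 : ∑ j ∈ range (k + 2), Real.sqrt ((k + 1).choose j : ℝ) ^ 2 =
          ((∑ j ∈ range (k + 1 + 1), (k + 1).choose j : ℕ) : ℝ) := by
        push_cast
        apply Finset.sum_congr rfl
        intro j _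
        rw [Real.sq_sqrt (Nat.cast_nonneg _)]
      rw [h2, h1]
      push_cast
      ring
    · rw [← var_sum (k + 1)]
      apply Finset.sum_congr rfl
      intro j _
      rw [mul_pow, Real.sq_sqrt (Nat.cast_nonneg _), sq_abs]
  have hsle : s ≤ 2 ^ (k + 1) * Real.sqrt (k + 1) := by
    apply le_of_sq_le_sq _ (by positivity)
    rw [mul_pow, Real.sq_sqrt (by positivity)]
    refine hs2.trans (le_of_eq ?_)
    push_cast
    ring
  have hkey : n1 ((((k + 1 : ℕ) : MvPolynomial (Fin d) ℂ)) * ((1 - w) * (1 + w) ^ k)) ≤ s := by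
    rw [← mean_id w k]
    refine (n1_sum _ _).trans ?_
    rw [hs]
    apply Finset.sum_le_sum
    intro j _
    have e : (((k + 1).choose j : ℕ) : MvPolynomial (Fin d) ℂ) *
        (((k + 1 : ℕ) : MvPolynomial (Fin d) ℂ) - 2 * (j : MvPolynomial (Fin d) ℂ)) * w ^ j =
        MvPolynomial.C ((((k + 1).choose j : ℝ) * ((((k + 1 : ℕ):ℝ)) - 2 * j) : ℝ) : ℂ) *
          w ^ j := by
      push_cast
      simp only [map_mul, map_sub, map_natCast, map_add, map_one, map_ofNat]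
    rw [e]
    refine (n1_C_mul _ _).trans ?_
    rw [Complex.norm_real, Real.norm_eq_abs, abs_mul, Nat.abs_cast]
    have h1 : n1 (w ^ j) ≤ 1 := (n1_pow w j).trans (pow_le_one₀ (n1_nonneg _) hw)
    have h2 : 0 ≤ ((k + 1).choose j : ℝ) * |(((k + 1 : ℕ):ℝ)) - 2 * j| := by positivity
    nlinarith
  have e2 : (1 - w) * (MvPolynomial.C (1 / 2) * (1 + w)) ^ k =
      MvPolynomial.C (((1 / 2) ^ k / ((k:ℝ) + 1) : ℝ) : ℂ) *
        ((((k + 1 : ℕ) : MvPolynomial (Fin d) ℂ)) * ((1 - w) * (1 + w) ^ k)) := by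
    have h3 : (((k + 1 : ℕ) : MvPolynomial (Fin d) ℂ)) =
        MvPolynomial.C (((k:ℝ) + 1 : ℝ) : ℂ) := by
      push_cast
      simp only [map_add, map_natCast, map_one]
    rw [h3, ← mul_assoc (MvPolynomial.C _) (MvPolynomial.C _), ← map_mul, ← Complex.ofReal_mul,
      div_mul_cancel₀ _ (by positivity : (k:ℝ) + 1 ≠ 0), mul_pow, ← map_pow]
    push_cast
    ring
  rw [e2]
  refine (n1_C_mul _ _).trans ?_
  rw [Complex.norm_real, Real.norm_of_nonneg (by positivity)]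
  refine (mul_le_mul_of_nonneg_left (hkey.trans hsle) (by positivity)).trans (le_of_eq ?_)
  have h4 : Real.sqrt ((k:ℝ) + 1) * Real.sqrt ((k:ℝ) + 1) = (k:ℝ) + 1 :=
    Real.mul_self_sqrt (by positivity)
  have h5 : 0 < Real.sqrt ((k:ℝ) + 1) := Real.sqrt_pos.mpr (by positivity)
  have h6 : (1 / 2 : ℝ) ^ k * 2 ^ (k + 1) = 2 := by
    rw [pow_succ, ← mul_assoc, ← mul_pow]
    norm_num
  rw [eq_div_iff h5.ne', div_mul_eq_mul_div, div_mul_eq_mul_div,
    div_eq_iff (by positivity : (k:ℝ) + 1 ≠ 0)]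
  linear_combination (Real.sqrt ((k:ℝ) + 1) * Real.sqrt ((k:ℝ) + 1)) * h6 + 2 * h4

lemma binom_avg (p : ℝ) (hp : 0 < p) (hp1 : p ≤ 1) (n : ℕ) :
    ∑ k ∈ range (n + 1), (n.choose k : ℝ) * p ^ k * (1 - p) ^ (n - k) * (2 / Real.sqrt (k + 1)) ≤
      2 / Real.sqrt (p * (n + 1)) := by
  have hq : 0 ≤ 1 - p := by linarith
  set W : ℕ → ℝ := fun k => (n.choose k : ℝ) * p ^ k * (1 - p) ^ (n - k) with hW
  have hW0 : ∀ k, 0 ≤ W k := fun k => by rw [hW]; positivity
  have hW1 : ∑ k ∈ range (n + 1), W k = 1 := by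
    have h := add_pow p (1 - p) n
    rw [add_sub_cancel, one_pow] at h
    rw [h]
    apply Finset.sum_congr rfl
    intro k _
    rw [hW]
    ring
  have h1 : (n + 1) * p * ∑ k ∈ range (n + 1), W k / ((k:ℝ) + 1) ≤ 1 := by
    have h := add_pow p (1 - p) (n + 1)
    rw [add_sub_cancel, one_pow, Finset.sum_range_succ'] at h
    have h2 : ((n:ℝ) + 1) * p * ∑ k ∈ range (n + 1), W k / ((k:ℝ) + 1) =
        ∑ k ∈ range (n + 1), p ^ (k + 1) * (1 - p) ^ (n + 1 - (k + 1)) *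
          (((n + 1).choose (k + 1) : ℕ) : ℝ) := by
      rw [Finset.mul_sum]
      apply Finset.sum_congr rfl
      intro k _
      have h3 := Nat.add_one_mul_choose_eq n k
      have h4 : ((n:ℝ) + 1) * (n.choose k : ℝ) =
          (((n + 1).choose (k + 1) : ℕ) : ℝ) * ((k:ℝ) + 1) := by
        exact_mod_cast h3
      rw [Nat.add_sub_add_right, hW]
      simp only
      rw [mul_div_assoc', div_eq_iff (by positivity : (k:ℝ) + 1 ≠ 0)]
      linear_combination (p ^ (k + 1) * (1 - p) ^ (n - k)) * h4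
    rw [h2]
    have : 0 ≤ p ^ 0 * (1 - p) ^ (n + 1 - 0) * (((n + 1).choose 0 : ℕ) : ℝ) := by positivity
    linarith [h]
  set S := ∑ k ∈ range (n + 1), W k / ((k:ℝ) + 1) with hS
  have hS0 : 0 ≤ S := Finset.sum_nonneg fun k _ => div_nonneg (hW0 k) (by positivity)
  have h5 : (∑ k ∈ range (n + 1), W k * (1 / Real.sqrt (k + 1))) ^ 2 ≤ 1 * S := by
    have e : ∑ k ∈ range (n + 1), W k * (1 / Real.sqrt (k + 1)) =
        ∑ k ∈ range (n + 1), Real.sqrt (W k) * (Real.sqrt (W k) * (1 / Real.sqrt (k + 1))) := by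
      apply Finset.sum_congr rfl
      intro k _
      rw [← mul_assoc, Real.mul_self_sqrt (hW0 k)]
    rw [e]
    refine (Finset.sum_mul_sq_le_sq_mul_sq _ _ _).trans (le_of_eq ?_)
    congr 1
    · rw [← hW1]
      apply Finset.sum_congr rfl
      intro k _
      rw [Real.sq_sqrt (hW0 k)]
    · rw [hS]
      apply Finset.sum_congr rfl
      intro k _
      rw [mul_pow, Real.sq_sqrt (hW0 k), div_pow, one_pow, Real.sq_sqrt (by positivity),
        mul_one_div]
  have h6 : ∑ k ∈ range (n + 1), W k * (1 / Real.sqrt (k + 1)) ≤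
      1 / Real.sqrt (p * (n + 1)) := by
    apply le_of_sq_le_sq _ (by positivity)
    refine h5.trans ?_
    rw [one_mul, div_pow, one_pow, Real.sq_sqrt (by positivity), le_div_iff₀ (by positivity)]
    linarith [h1, mul_comm S (p * (n + 1)), mul_comm (p:ℝ) (n + 1)]
  calc ∑ k ∈ range (n + 1), (n.choose k : ℝ) * p ^ k * (1 - p) ^ (n - k) *
        (2 / Real.sqrt (k + 1))
      = 2 * ∑ k ∈ range (n + 1), W k * (1 / Real.sqrt (k + 1)) := by
        rw [Finset.mul_sum]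
        apply Finset.sum_congr rfl
        intro k _
        rw [hW]
        ring
    _ ≤ 2 * (1 / Real.sqrt (p * (n + 1))) := by linarith
    _ = _ := by ring

lemma diff2 (w ρ : MvPolynomial (Fin d) ℂ) (hw : n1 w ≤ 1) (p : ℝ) (hp : 0 < p) (hp1 : p ≤ 1)
    (hρ : n1 ρ ≤ 1 - p) (n : ℕ) :
    n1 ((1 - w) * (MvPolynomial.C (p : ℂ) * (MvPolynomial.C (1 / 2) * (1 + w)) + ρ) ^ n) ≤
      2 / Real.sqrt (p * (n + 1)) := by
  refine le_trans ?_ (binom_avg p hp hp1 n)
  rw [add_pow, Finset.mul_sum]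
  refine (n1_sum _ _).trans ?_
  apply Finset.sum_le_sum
  intro k _
  have e : (1 - w) * ((MvPolynomial.C (p : ℂ) * (MvPolynomial.C (1 / 2) * (1 + w))) ^ k *
      ρ ^ (n - k) * ((n.choose k : ℕ) : MvPolynomial (Fin d) ℂ)) =
      MvPolynomial.C (((n.choose k : ℝ) * p ^ k : ℝ) : ℂ) *
        (((1 - w) * (MvPolynomial.C (1 / 2) * (1 + w)) ^ k) * ρ ^ (n - k)) := by
    rw [mul_pow (MvPolynomial.C (p:ℂ))]
    push_cast
    simp only [map_mul, map_natCast, map_pow]
    ring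
  rw [e]
  refine (n1_C_mul _ _).trans ?_
  rw [Complex.norm_real, Real.norm_of_nonneg (by positivity)]
  have h1 : n1 (((1 - w) * (MvPolynomial.C (1 / 2) * (1 + w)) ^ k) * ρ ^ (n - k)) ≤
      (2 / Real.sqrt (k + 1)) * (1 - p) ^ (n - k) := by
    refine (n1_mul _ _).trans ?_
    apply mul_le_mul (diff1 w hw k) _ (n1_nonneg _) (by positivity)
    exact (n1_pow _ _).trans (pow_le_pow_left₀ (n1_nonneg _) hρ _)
  refine (mul_le_mul_of_nonneg_left h1 (by positivity)).trans (le_of_eq ?_)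
  ring

end Pool.Agent.H650R3.Cyc
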