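import Pool.Agent.H650R3.Cyc.Main

set_option autoImplicit false

/-! Necessity, sharpness, products of binomials (helper file). -/

namespace Pool.Agent.H650R3.Cyc
open Finset MvPowerSeries Filter Topology

variable {d : ℕ}

lemma coe_sub' (p q : MvPolynomial (Fin d) ℂ) :
    ((p - q : MvPolynomial (Fin d) ℂ) : MvPowerSeries (Fin d) ℂ) =
      (p : MvPowerSeries (Fin d) ℂ) - (q : MvPowerSeries (Fin d) ℂ) :=
  map_sub MvPolynomial.coeToMvPowerSeries.ringHom p q

lemma cs_bound (t : ℝ) (h : MvPowerSeries (Fin d) ℂ) (hh : MemD t h) (s : Finset (Fin d →₀ ℕ))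
    (v : (Fin d →₀ ℕ) → ℝ) (hv : ∀ α, 0 ≤ v α) (A : ℝ)
    (hA : ∑ α ∈ s, v α ^ 2 / wt t α ≤ A) :
    (∑ α ∈ s, ‖coeff α h‖ * v α) ^ 2 ≤ A * normSq t h := by
  have h1 : ∑ α ∈ s, ‖coeff α h‖ * v α =
      ∑ α ∈ s, (Real.sqrt (wt t α) * ‖coeff α h‖) * (v α / Real.sqrt (wt t α)) := by
    apply Finset.sum_congr rfl
    intro α _
    have := Real.sqrt_pos.mpr (wt_pos t α)
    field_simp
  rw [h1]
  refine (Finset.sum_mul_sq_le_sq_mul_sq _ _ _).trans ?_
  have h2 : ∑ α ∈ s, (Real.sqrt (wt t α) * ‖coeff α h‖) ^ 2 ≤ normSq t h := by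
    have e : ∑ α ∈ s, (Real.sqrt (wt t α) * ‖coeff α h‖) ^ 2 =
        ∑ α ∈ s, wt t α * ‖coeff α h‖ ^ 2 := by
      apply Finset.sum_congr rfl
      intro α _
      rw [mul_pow, Real.sq_sqrt (wt_pos t α).le]
    rw [e]
    exact Summable.sum_le_tsum s (fun α _ => term_nonneg t h α) hh
  have h3 : ∑ α ∈ s, (v α / Real.sqrt (wt t α)) ^ 2 ≤ A := by
    have e : ∑ α ∈ s, (v α / Real.sqrt (wt t α)) ^ 2 = ∑ α ∈ s, v α ^ 2 / wt t α := by
      apply Finset.sum_congr rfl
      intro α _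
      rw [div_pow, Real.sq_sqrt (wt_pos t α).le]
    rw [e]
    exact hA
  rw [mul_comm A]
  apply mul_le_mul h2 h3 _ (normSq_nonneg _ _)
  exact Finset.sum_nonneg fun _ _ => sq_nonneg _

lemma box_sum (F : Fin d → ℕ → ℝ) (hF : ∀ j k, 0 ≤ F j k) (hs : ∀ j, Summable (F j))
    (s : Finset (Fin d →₀ ℕ)) : ∑ α ∈ s, ∏ j, F j (α j) ≤ ∏ j, ∑' k, F j k := by
  classical
  have h1 : ∑ α ∈ s, ∏ j, F j (α j) =
      ∑ a ∈ s.image (fun α : Fin d →₀ ℕ => (α : Fin d → ℕ)), ∏ j, F j (a j) := by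
    rw [Finset.sum_image]
    intro a _ b _ hab
    exact DFunLike.coe_injective hab
  rw [h1]
  set K := (s.sup fun α => ∑ j, α j) + 1 with hK
  have h2 : ∑ a ∈ s.image (fun α : Fin d →₀ ℕ => (α : Fin d → ℕ)), ∏ j, F j (a j) ≤
      ∑ a ∈ Fintype.piFinset (fun _ : Fin d => range K), ∏ j, F j (a j) := by
    apply Finset.sum_le_sum_of_subset_of_nonneg
    · intro a ha
      rw [Finset.mem_image] at ha
      obtain ⟨α, hα, rfl⟩ := ha
      rw [Fintype.mem_piFinset]
      intro j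
      rw [mem_range, hK]
      have h3 := Finset.le_sup (f := fun α : Fin d →₀ ℕ => ∑ j, α j) hα
      have h4 : α j ≤ ∑ i, α i := Finset.single_le_sum (fun _ _ => Nat.zero_le _) (mem_univ j)
      omega
    · intro a _ _
      exact Finset.prod_nonneg fun j _ => hF j _
  refine h2.trans ?_
  rw [← Finset.prod_univ_sum]
  apply Finset.prod_le_prod
  · intro j _
    exact Finset.sum_nonneg fun k _ => hF j k
  · intro j _
    exact (hs j).sum_le_tsum _ fun k _ => hF j k

lemma eval_bound (t : ℝ) (z : Fin d → ℂ) (hz : ∀ j, ‖z j‖ < 1) : ∃ A : ℝ, 0 ≤ A ∧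
    ∀ h : MvPolynomial (Fin d) ℂ,
      ‖MvPolynomial.eval z h‖ ^ 2 ≤ A * normSq t (h : MvPowerSeries (Fin d) ℂ) := by
  set T := ⌈|t|⌉₊ with hT
  set x : Fin d → ℝ := fun j => max (‖z j‖ ^ 2) (1 / 2) with hx
  have hx0 : ∀ j, 0 < x j := fun j => lt_of_lt_of_le (by norm_num) (le_max_right _ _)
  have hx1 : ∀ j, x j < 1 := by
    intro j
    apply max_lt _ (by norm_num)
    have h0 := norm_nonneg (z j)
    have := hz j
    nlinarith
  set F : Fin d → ℕ → ℝ := fun j k => ((k:ℝ) + 1) ^ T * x j ^ k with hF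
  have hF0 : ∀ j k, 0 ≤ F j k := fun j k => by
    have := (hx0 j).le
    rw [hF]
    positivity
  refine ⟨∏ j, ∑' k, F j k, Finset.prod_nonneg fun j _ => tsum_nonneg (hF0 j), fun h => ?_⟩
  have h1 : ‖MvPolynomial.eval z h‖ ≤ ∑ α ∈ h.support,
      ‖coeff α (h : MvPowerSeries (Fin d) ℂ)‖ * ∏ j, ‖z j‖ ^ α j := by
    rw [MvPolynomial.eval_eq']
    refine (norm_sum_le _ _).trans (le_of_eq ?_)
    apply Finset.sum_congr rfl
    intro α _
    rw [norm_mul, MvPolynomial.coeff_coe, norm_prod]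
    simp only [norm_pow]
  have h2 := cs_bound t (h : MvPowerSeries (Fin d) ℂ) (mem_poly t h) h.support
    (fun α => ∏ j, ‖z j‖ ^ α j) (fun α => Finset.prod_nonneg fun j _ => by positivity)
    (∏ j, ∑' k, F j k) ?_
  · exact (pow_le_pow_left₀ (norm_nonneg _) h1 2).trans h2
  · refine le_trans ?_ (box_sum F hF0 (fun j => summ T (x j) (hx0 j) (hx1 j)) h.support)
    apply Finset.sum_le_sum
    intro α _
    rw [← Finset.prod_pow, wt, ← Finset.prod_div_distrib]
    apply Finset.prod_le_prod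
    · intro j _
      positivity
    · intro j _
      have ha : (0:ℝ) ≤ α j := Nat.cast_nonneg _
      have h3 : (‖z j‖ ^ α j) ^ 2 ≤ x j ^ α j := by
        rw [← pow_mul, mul_comm, pow_mul]
        exact pow_le_pow_left₀ (by positivity) (le_max_left _ _) _
      have h4 : ((1 + (α j:ℝ)) ^ t)⁻¹ ≤ ((α j:ℝ) + 1) ^ T := by
        rw [← Real.rpow_neg (by positivity), add_comm, ← Real.rpow_natCast]
        apply Real.rpow_le_rpow_of_exponent_le (by linarith)
        exact (neg_le_abs t).trans (Nat.le_ceil _)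
      rw [div_eq_mul_inv, hF]
      simp only
      rw [mul_comm]
      exact mul_le_mul h4 h3 (by positivity) (by positivity)

theorem zeroFree_of_cyclic {t : ℝ} {P : MvPolynomial (Fin d) ℂ}
    (h : ShiftCyclic t (P : MvPowerSeries (Fin d) ℂ)) : ZeroFree P := by
  intro z hz h0
  obtain ⟨A, hA, hb⟩ := eval_bound t z hz
  obtain ⟨Q, _, hQ⟩ := h.2 1 (mem_one t) (1 / (A + 1)) (by positivity)
  have h1 := hb (Q * P - 1)
  rw [map_sub, map_mul, h0, mul_zero, map_one, zero_sub, norm_neg, norm_one, one_pow,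
    coe_sub', MvPolynomial.coe_mul, MvPolynomial.coe_one] at h1
  have h2 : A * normSq t ((Q : MvPowerSeries (Fin d) ℂ) * (P : MvPowerSeries (Fin d) ℂ) - 1) ≤
      A * (1 / (A + 1)) := mul_le_mul_of_nonneg_left hQ.le hA
  have h3 : A * (1 / (A + 1)) < 1 := by
    rw [mul_one_div, div_lt_one (by positivity)]
    linarith
  linarith

/-- the binomial `1 - c z^β` -/
noncomputable def binom (c : ℂ) (β : Fin d →₀ ℕ) : MvPolynomial (Fin d) ℂ :=
  1 - MvPolynomial.monomial β c

lemma binom_zeroFree {c : ℂ} (hc : ‖c‖ = 1) {β : Fin d →₀ ℕ} (hβ : β ≠ 0) :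
    ZeroFree (binom c β) := by
  classical
  intro z hz h
  rw [binom, map_sub, map_one, MvPolynomial.eval_monomial,
    Finsupp.prod_fintype _ _ (fun _ => pow_zero _), sub_eq_zero] at h
  obtain ⟨j0, hj0⟩ : ∃ j, β j ≠ 0 := by
    by_contra hne
    push Not at hne
    exact hβ (Finsupp.ext hne)
  have h1 := congrArg norm h
  rw [norm_one, norm_mul, hc, one_mul, norm_prod] at h1
  have h2 : ∏ j, ‖z j ^ β j‖ < 1 := by
    rw [← Finset.mul_prod_erase univ (fun j => ‖z j ^ β j‖) (mem_univ j0)]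
    have h3 : ‖z j0 ^ β j0‖ < 1 := by
      rw [norm_pow]
      exact pow_lt_one₀ (norm_nonneg _) (hz j0) hj0
    have h4 : ∏ j ∈ univ.erase j0, ‖z j ^ β j‖ ≤ 1 := by
      apply Finset.prod_le_one
      · intro j _
        exact norm_nonneg _
      · intro j _
        rw [norm_pow]
        exact pow_le_one₀ (norm_nonneg _) (hz j).le
    have h5 : 0 ≤ ∏ j ∈ univ.erase j0, ‖z j ^ β j‖ :=
      Finset.prod_nonneg fun j _ => norm_nonneg _
    have h6 := norm_nonneg (z j0 ^ β j0)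
    nlinarith
  linarith

lemma binom_vars (c : ℂ) (β : Fin d →₀ ℕ) : (binom c β).vars.card ≤ β.support.card := by
  classical
  apply Finset.card_le_card
  refine (MvPolynomial.vars_sub_subset _).trans ?_
  rw [MvPolynomial.vars_one, Finset.empty_union]
  by_cases hc : c = 0
  · rw [hc, MvPolynomial.monomial_zero, MvPolynomial.vars_0]
    exact Finset.empty_subset _
  · rw [MvPolynomial.vars_monomial hc]

lemma coeff_binom (c : ℂ) (β : Fin d →₀ ℕ) (Q : MvPolynomial (Fin d) ℂ) (k : ℕ) :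
    MvPolynomial.coeff ((k + 1) • β) (Q * binom c β) =
      MvPolynomial.coeff ((k + 1) • β) Q - c * MvPolynomial.coeff (k • β) Q := by
  rw [binom, mul_sub, mul_one, MvPolynomial.coeff_sub, add_smul, one_smul,
    MvPolynomial.coeff_mul_monomial, mul_comm c]

lemma coeff_binom_zero (c : ℂ) {β : Fin d →₀ ℕ} (hβ : β ≠ 0) (Q : MvPolynomial (Fin d) ℂ) :
    MvPolynomial.coeff ((0:ℕ) • β) (Q * binom c β) = MvPolynomial.coeff ((0:ℕ) • β) Q := by
  classical
  rw [binom, mul_sub, mul_one, MvPolynomial.coeff_sub, zero_smul,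
    MvPolynomial.coeff_mul_monomial', if_neg, sub_zero]
  intro h
  exact hβ (le_antisymm h zero_le)

lemma tele (c : ℂ) (hc : c ≠ 0) {β : Fin d →₀ ℕ} (hβ : β ≠ 0) (Q : MvPolynomial (Fin d) ℂ)
    (K : ℕ) : ∑ k ∈ range (K + 1), c⁻¹ ^ k * MvPolynomial.coeff (k • β) (Q * binom c β) =
      c⁻¹ ^ K * MvPolynomial.coeff (K • β) Q := by
  induction K with
  | zero =>
    rw [zero_add, Finset.sum_range_one, coeff_binom_zero c hβ]
  | succ K ih =>
    rw [Finset.sum_range_succ, ih, coeff_binom, pow_succ]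
    field_simp
    ring

lemma smul_inj {β : Fin d →₀ ℕ} (hβ : β ≠ 0) : Function.Injective fun k : ℕ => k • β := by
  intro a b hab
  obtain ⟨j, hj⟩ : ∃ j, β j ≠ 0 := by
    by_contra hne
    push Not at hne
    exact hβ (Finsupp.ext hne)
  have := DFunLike.congr_fun hab j
  simp only [Finsupp.smul_apply, smul_eq_mul] at this
  exact Nat.eq_of_mul_eq_mul_right (Nat.pos_of_ne_zero hj) this

lemma binom_lower {t : ℝ} {c : ℂ} (hc : ‖c‖ = 1) {β : Fin d →₀ ℕ} (hβ : β ≠ 0)
    (ht : 1 < t * β.support.card) : ∃ A : ℝ, 0 ≤ A ∧ ∀ Q : MvPolynomial (Fin d) ℂ,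
      1 ≤ A * normSq t ((Q : MvPowerSeries (Fin d) ℂ) *
        (binom c β : MvPowerSeries (Fin d) ℂ) - 1) := by
  classical
  have hc0 : c ≠ 0 := by
    rintro rfl
    simp at hc
  have ht0 : 0 < t := by
    by_contra h
    have : t * (β.support.card : ℝ) ≤ 0 := mul_nonpos_of_nonpos_of_nonneg (not_lt.mp h) (Nat.cast_nonneg _)
    linarith
  set a : ℕ → ℝ := fun k => 1 / (((k + 1 : ℕ):ℝ)) ^ (t * (β.support.card:ℝ)) with ha
  have hsum : Summable a :=
    (summable_nat_add_iff (f := fun k : ℕ => 1 / (k:ℝ) ^ (t * (β.support.card:ℝ))) 1).mpr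
      (Real.summable_one_div_nat_rpow.mpr ht)
  have ha0 : ∀ k, 0 ≤ a k := fun k => by rw [ha]; positivity
  refine ⟨∑' k, a k, tsum_nonneg ha0, fun Q => ?_⟩
  set h : MvPolynomial (Fin d) ℂ := Q * binom c β - 1 with hh
  have hcoe : (h : MvPowerSeries (Fin d) ℂ) = (Q : MvPowerSeries (Fin d) ℂ) *
        (binom c β : MvPowerSeries (Fin d) ℂ) - 1 := by
    rw [hh, coe_sub', MvPolynomial.coe_mul, MvPolynomial.coe_one]
  rw [← hcoe]
  set K := Q.totalDegree + 1 with hK
  have hQK : MvPolynomial.coeff (K • β) Q = 0 := by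
    apply MvPolynomial.coeff_eq_zero_of_totalDegree_lt
    obtain ⟨j, hj⟩ : ∃ j, β j ≠ 0 := by
      by_contra hne
      push Not at hne
      exact hβ (Finsupp.ext hne)
    have hj2 : j ∈ (K • β).support := by
      rw [Finsupp.mem_support_iff, Finsupp.smul_apply, smul_eq_mul]
      exact mul_ne_zero (by omega) hj
    have h1 : (K • β) j ≤ ∑ i ∈ (K • β).support, (K • β) i :=
      Finset.single_le_sum (fun _ _ => Nat.zero_le _) hj2
    rw [Finsupp.smul_apply, smul_eq_mul] at h1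
    have h2 : K ≤ K * β j := Nat.le_mul_of_pos_right K (Nat.pos_of_ne_zero hj)
    omega
  have hLam : ∑ k ∈ range (K + 1), c⁻¹ ^ k * MvPolynomial.coeff (k • β) h = -1 := by
    have e : ∀ k ∈ range (K + 1), c⁻¹ ^ k * MvPolynomial.coeff (k • β) h =
        c⁻¹ ^ k * MvPolynomial.coeff (k • β) (Q * binom c β) - (if k = 0 then 1 else 0) := by
      intro k _
      rw [hh, MvPolynomial.coeff_sub, mul_sub, MvPolynomial.coeff_one]
      congr 1
      by_cases hk : k = 0
      · rw [hk]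
        simp
      · rw [if_neg hk, if_neg, mul_zero]
        intro h0
        apply hk
        apply smul_inj hβ
        simp only [zero_smul]
        exact h0.symm
    rw [Finset.sum_congr rfl e, Finset.sum_sub_distrib, tele c hc0 hβ, hQK, mul_zero,
      Finset.sum_ite_eq' (range (K + 1)) 0, if_pos (mem_range.mpr (by omega)), zero_sub]
  set s := (range (K + 1)).image (fun k : ℕ => k • β) with hs
  have h3 := cs_bound t (h : MvPowerSeries (Fin d) ℂ) (mem_poly t h) s (fun _ => 1)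
    (fun _ => zero_le_one) (∑' k, a k) ?_
  · refine le_trans ?_ h3
    have h4 : 1 ≤ ∑ α ∈ s, ‖coeff α (h : MvPowerSeries (Fin d) ℂ)‖ * 1 := by
      rw [hs, Finset.sum_image (fun x _ y _ hxy => smul_inj hβ hxy)]
      calc (1:ℝ) = ‖∑ k ∈ range (K + 1), c⁻¹ ^ k * MvPolynomial.coeff (k • β) h‖ := by
            rw [hLam, norm_neg, norm_one]
        _ ≤ ∑ k ∈ range (K + 1), ‖c⁻¹ ^ k * MvPolynomial.coeff (k • β) h‖ := norm_sum_le _ _
        _ = _ := by
            apply Finset.sum_congr rfl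
            intro k _
            rw [norm_mul, norm_pow, norm_inv, hc, inv_one, one_pow, one_mul, mul_one,
              MvPolynomial.coeff_coe]
    nlinarith
  · rw [hs, Finset.sum_image (fun x _ y _ hxy => smul_inj hβ hxy)]
    refine le_trans ?_ (hsum.sum_le_tsum (range (K + 1)) fun k _ => ha0 k)
    apply Finset.sum_le_sum
    intro k _
    rw [one_pow, ha]
    simp only
    apply one_div_le_one_div_of_le (by positivity)
    have e1 : wt t (k • β) = ∏ j ∈ β.support, (1 + (((k • β) j : ℕ):ℝ)) ^ t := by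
      rw [wt]
      symm
      apply Finset.prod_subset (subset_univ _)
      intro j _ hj
      rw [Finsupp.notMem_support_iff] at hj
      rw [Finsupp.smul_apply, hj]
      simp
    have e2 : (((k + 1 : ℕ):ℝ)) ^ (t * (β.support.card:ℝ)) =
        ∏ _j ∈ β.support, (((k + 1 : ℕ):ℝ)) ^ t := by
      rw [Finset.prod_const, Real.rpow_mul (by positivity), Real.rpow_natCast]
    rw [e1, e2]
    apply Finset.prod_le_prod
    · intro j _
      positivity
    · intro j hj
      apply Real.rpow_le_rpow (by positivity) _ ht0.le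
      rw [Finsupp.mem_support_iff] at hj
      rw [Finsupp.smul_apply, smul_eq_mul]
      have : k ≤ k * β j := Nat.le_mul_of_pos_right k (Nat.pos_of_ne_zero hj)
      have : (k:ℝ) ≤ ((k * β j : ℕ):ℝ) := by exact_mod_cast this
      push_cast at this ⊢
      linarith

/-- no multiple of `1 - c z^β` is shift-cyclic for `t > 1 / |supp β|` -/
theorem binom_not_cyclic {t : ℝ} {c : ℂ} (hc : ‖c‖ = 1) {β : Fin d →₀ ℕ} (hβ : β ≠ 0)
    (ht : 1 < t * β.support.card) (R : MvPolynomial (Fin d) ℂ) :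
    ¬ ShiftCyclic t ((R * binom c β : MvPolynomial (Fin d) ℂ) : MvPowerSeries (Fin d) ℂ) := by
  intro h
  obtain ⟨A, hA, hb⟩ := binom_lower hc hβ ht
  obtain ⟨Q, _, hQ⟩ := h.2 1 (mem_one t) (1 / (A + 1)) (by positivity)
  have h1 := hb (Q * R)
  rw [MvPolynomial.coe_mul, mul_assoc, ← MvPolynomial.coe_mul] at h1
  have h2 : A * normSq t ((Q : MvPowerSeries (Fin d) ℂ) *
      ((R * binom c β : MvPolynomial (Fin d) ℂ) : MvPowerSeries (Fin d) ℂ) - 1) ≤
      A * (1 / (A + 1)) := mul_le_mul_of_nonneg_left hQ.le hA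
  have h3 : A * (1 / (A + 1)) < 1 := by
    rw [mul_one_div, div_lt_one (by positivity)]
    linarith
  linarith

end Pool.Agent.H650R3.Cyc
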