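import Pool.Agent.H650R3.Cyc.Space

set_option autoImplicit false

/-! Bounded sequences with convergent coefficients (helper file). -/

namespace Pool.Agent.H650R3.Cyc
open Finset MvPowerSeries Filter Topology
open scoped InnerProductSpace

variable {d : ℕ}

lemma cnorm (t : ℝ) (α : Fin d →₀ ℕ) (z : ℂ) :
    ‖((Real.sqrt (wt t α) : ℝ) : ℂ) * z‖ ^ 2 = wt t α * ‖z‖ ^ 2 := by
  rw [norm_mul, mul_pow, Complex.norm_real, Real.norm_of_nonneg (Real.sqrt_nonneg _),
    Real.sq_sqrt (wt_pos t α).le]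

/-- the isometry with `ℓ²` -/
noncomputable def J (t : ℝ) (f : MvPowerSeries (Fin d) ℂ) (hf : MemD t f) :
    lp (fun _ : (Fin d →₀ ℕ) => ℂ) 2 :=
  ⟨fun α => ((Real.sqrt (wt t α) : ℝ) : ℂ) * coeff α f, by
    apply memℓp_gen
    have h : ∀ α : Fin d →₀ ℕ,
        ‖((Real.sqrt (wt t α) : ℝ) : ℂ) * coeff α f‖ ^ (2 : ENNReal).toReal =
        wt t α * ‖coeff α f‖ ^ 2 := by
      intro α
      rw [← cnorm]
      norm_num
    simp only [h]
    exact hf⟩

lemma J_apply (t : ℝ) (f : MvPowerSeries (Fin d) ℂ) (hf : MemD t f) (α : Fin d →₀ ℕ) :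
    J t f hf α = ((Real.sqrt (wt t α) : ℝ) : ℂ) * coeff α f := rfl

lemma lp_sq (x : lp (fun _ : (Fin d →₀ ℕ) => ℂ) 2) : ‖x‖ ^ 2 = ∑' α, ‖x α‖ ^ 2 := by
  have h := lp.norm_rpow_eq_tsum (p := 2) (by norm_num) x
  norm_num at h
  exact h

lemma J_norm (t : ℝ) (f : MvPowerSeries (Fin d) ℂ) (hf : MemD t f) :
    ‖J t f hf‖ ^ 2 = normSq t f := by
  rw [lp_sq]
  simp only [J_apply, cnorm]
  rfl

lemma J_sub (t : ℝ) (f g : MvPowerSeries (Fin d) ℂ) (hf : MemD t f) (hg : MemD t g)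
    (hfg : MemD t (f - g)) : J t f hf - J t g hg = J t (f - g) hfg := by
  ext α
  rw [lp.coeFn_sub, Pi.sub_apply, J_apply, J_apply, J_apply, map_sub]
  ring

lemma weak_closure (t : ℝ) (P : MvPolynomial (Fin d) ℂ) (g : ℕ → MvPowerSeries (Fin d) ℂ) (C : ℝ)
    (hm : ∀ m, MemD t (g m)) (hC : ∀ m, normSq t (g m) ≤ C) (happ : ∀ m, Approx t P (g m))
    (hlim : ∀ α, Tendsto (fun m => coeff α (g m)) atTop
      (𝓝 (coeff α (1 : MvPowerSeries (Fin d) ℂ)))) : Approx t P 1 := by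
  classical
  let V : Submodule ℂ (lp (fun _ : (Fin d →₀ ℕ) => ℂ) 2) :=
    { carrier := {x | ∃ Q : MvPolynomial (Fin d) ℂ, ∀ α, x α = ((Real.sqrt (wt t α) : ℝ) : ℂ) *
        coeff α ((Q : MvPowerSeries (Fin d) ℂ) * (P : MvPowerSeries (Fin d) ℂ))}
      add_mem' := by
        rintro x y ⟨Q1, h1⟩ ⟨Q2, h2⟩
        refine ⟨Q1 + Q2, fun α => ?_⟩
        rw [lp.coeFn_add, Pi.add_apply, h1, h2, MvPolynomial.coe_add, add_mul, map_add]
        ring
      zero_mem' := by
        refine ⟨0, fun α => ?_⟩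
        rw [lp.coeFn_zero, Pi.zero_apply, MvPolynomial.coe_zero, zero_mul, map_zero, mul_zero]
      smul_mem' := by
        rintro c x ⟨Q, h⟩
        refine ⟨MvPolynomial.C c * Q, fun α => ?_⟩
        rw [lp.coeFn_smul, Pi.smul_apply, h, MvPolynomial.coe_mul, MvPolynomial.coe_C, mul_assoc,
          coeff_C_mul, smul_eq_mul]
        ring }
  have hJg : ∀ m, J t (g m) (hm m) ∈ Vᗮᗮ := by
    intro m
    rw [Submodule.orthogonal_orthogonal_eq_closure, ← SetLike.mem_coe,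
      Submodule.topologicalClosure_coe, Metric.mem_closure_iff]
    intro ε hε
    obtain ⟨Q, hQ1, hQ2⟩ := happ m (ε ^ 2) (by positivity)
    have hQP : MemD t ((Q : MvPowerSeries (Fin d) ℂ) * (P : MvPowerSeries (Fin d) ℂ)) := by
      rw [← MvPolynomial.coe_mul]
      exact mem_poly t _
    refine ⟨J t _ hQP, ⟨Q, fun α => rfl⟩, ?_⟩
    rw [dist_comm, dist_eq_norm, J_sub t _ _ hQP (hm m) hQ1]
    apply lt_of_pow_lt_pow_left₀ 2 hε.le
    rw [J_norm]
    exact hQ2
  have hJ1 : J t 1 (mem_one t) ∈ Vᗮᗮ := by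
    rw [Submodule.mem_orthogonal]
    intro y hy
    have hz : ∀ m, ⟪y, J t (g m) (hm m)⟫_ℂ = 0 := fun m =>
      (Submodule.mem_orthogonal _ _).mp (hJg m) y hy
    set D := ‖J t (1 : MvPowerSeries (Fin d) ℂ) (mem_one t)‖ + Real.sqrt C with hD
    have hD0 : 0 ≤ D := by positivity
    have hbd : ∀ m, ‖J t (1 : MvPowerSeries (Fin d) ℂ) (mem_one t) - J t (g m) (hm m)‖ ≤ D := by
      intro m
      refine (norm_sub_le _ _).trans ?_
      have : ‖J t (g m) (hm m)‖ ≤ Real.sqrt C := by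
        apply Real.le_sqrt_of_sq_le
        rw [J_norm]
        exact hC m
      rw [hD]
      linarith
    have key : ∀ ε : ℝ, 0 < ε → ‖⟪y, J t (1 : MvPowerSeries (Fin d) ℂ) (mem_one t)⟫_ℂ‖ ≤ ε * D := by
      intro ε hε
      have hsum := lp.hasSum_single (p := 2) (by norm_num) y
      rw [HasSum, SummationFilter.unconditional_filter, Metric.tendsto_atTop] at hsum
      obtain ⟨s, hs⟩ := hsum ε hε
      have hs1 := hs s le_rfl
      set y' := ∑ i ∈ s, lp.single (E := fun _ : (Fin d →₀ ℕ) => ℂ) 2 i (y i) with hy'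
      rw [dist_eq_norm, norm_sub_rev] at hs1
      have hlim2 : Tendsto (fun m => ‖⟪y', J t (1 : MvPowerSeries (Fin d) ℂ) (mem_one t) -
          J t (g m) (hm m)⟫_ℂ‖) atTop (𝓝 0) := by
        have e : ∀ m, ⟪y', J t (1 : MvPowerSeries (Fin d) ℂ) (mem_one t) - J t (g m) (hm m)⟫_ℂ =
            ∑ i ∈ s, ⟪y i, ((Real.sqrt (wt t i) : ℝ) : ℂ) *
              (coeff i (1 : MvPowerSeries (Fin d) ℂ) - coeff i (g m))⟫_ℂ := by
          intro m
          rw [hy', sum_inner]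
          apply Finset.sum_congr rfl
          intro i _
          rw [lp.inner_single_left, lp.coeFn_sub, Pi.sub_apply, J_apply, J_apply, mul_sub]
        simp only [e]
        have h0 : Tendsto (fun m => ∑ i ∈ s, ⟪y i, ((Real.sqrt (wt t i) : ℝ) : ℂ) *
              (coeff i (1 : MvPowerSeries (Fin d) ℂ) - coeff i (g m))⟫_ℂ) atTop
              (𝓝 (∑ i ∈ s, ⟪y i, ((Real.sqrt (wt t i) : ℝ) : ℂ) *
              (coeff i (1 : MvPowerSeries (Fin d) ℂ) -
                coeff i (1 : MvPowerSeries (Fin d) ℂ))⟫_ℂ)) := by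
          apply tendsto_finsetSum
          intro i _
          exact Tendsto.inner tendsto_const_nhds
            (Tendsto.const_mul _ (Tendsto.const_sub _ (hlim i)))
        simp only [sub_self, mul_zero, inner_zero_right, Finset.sum_const_zero] at h0
        simpa using h0.norm
      have hle : ∀ m, ‖⟪y, J t (1 : MvPowerSeries (Fin d) ℂ) (mem_one t)⟫_ℂ‖ ≤
          ε * D + ‖⟪y', J t (1 : MvPowerSeries (Fin d) ℂ) (mem_one t) -
          J t (g m) (hm m)⟫_ℂ‖ := by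
        intro m
        have e : ⟪y, J t (1 : MvPowerSeries (Fin d) ℂ) (mem_one t)⟫_ℂ =
            ⟪y - y', J t (1 : MvPowerSeries (Fin d) ℂ) (mem_one t) - J t (g m) (hm m)⟫_ℂ +
            ⟪y', J t (1 : MvPowerSeries (Fin d) ℂ) (mem_one t) - J t (g m) (hm m)⟫_ℂ := by
          rw [← inner_add_left, sub_add_cancel, inner_sub_right, hz m, sub_zero]
        rw [e]
        refine (norm_add_le _ _).trans ?_
        have h1 : ‖⟪y - y', J t (1 : MvPowerSeries (Fin d) ℂ) (mem_one t) -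
            J t (g m) (hm m)⟫_ℂ‖ ≤ ε * D :=
          (norm_inner_le_norm _ _).trans (mul_le_mul hs1.le (hbd m) (norm_nonneg _) hε.le)
        linarith
      have := le_of_tendsto_of_tendsto' tendsto_const_nhds (hlim2.const_add (ε * D)) hle
      rwa [add_zero] at this
    have h0 : ‖⟪y, J t (1 : MvPowerSeries (Fin d) ℂ) (mem_one t)⟫_ℂ‖ ≤ 0 := by
      apply le_of_forall_pos_le_add
      intro δ hδ
      have := key (δ / (D + 1)) (by positivity)
      refine this.trans ?_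
      rw [zero_add, div_mul_eq_mul_div, div_le_iff₀ (by positivity)]
      nlinarith
    exact norm_le_zero_iff.mp h0
  rw [Submodule.orthogonal_orthogonal_eq_closure, ← SetLike.mem_coe,
      Submodule.topologicalClosure_coe, Metric.mem_closure_iff] at hJ1
  intro ε hε
  obtain ⟨x, ⟨Q, hQ⟩, hx⟩ := hJ1 (Real.sqrt ε) (Real.sqrt_pos.mpr hε)
  have hQP : MemD t ((Q : MvPowerSeries (Fin d) ℂ) * (P : MvPowerSeries (Fin d) ℂ)) := by
    rw [← MvPolynomial.coe_mul]
    exact mem_poly t _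
  have hd : MemD t ((Q : MvPowerSeries (Fin d) ℂ) * (P : MvPowerSeries (Fin d) ℂ) - 1) := by
    rw [sub_eq_add_neg]
    exact (mem_add hQP (mem_neg (mem_one t)).1).1
  have hxJ : x = J t _ hQP := by
    ext α
    rw [hQ, J_apply]
  refine ⟨Q, hd, ?_⟩
  rw [hxJ, dist_comm, dist_eq_norm, J_sub t _ _ hQP (mem_one t) hd] at hx
  rw [← J_norm t _ hd]
  calc ‖J t _ hd‖ ^ 2 < Real.sqrt ε ^ 2 := pow_lt_pow_left₀ hx (norm_nonneg _) two_ne_zero
    _ = ε := Real.sq_sqrt hε.le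

end Pool.Agent.H650R3.Cyc
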