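import Pool.Agent.H650R3.Cyc.Hilb

set_option autoImplicit false

/-! Zero-free polynomials are shift-cyclic for small parameters (helper file). -/

namespace Pool.Agent.H650R3.Cyc
open Finset MvPowerSeries Filter Topology

variable {d : ℕ}

lemma coeff_resc (r : ℂ) (f : MvPowerSeries (Fin d) ℂ) (α : Fin d →₀ ℕ) :
    coeff α (rescale (fun _ => r) f) = r ^ (∑ j, α j) * coeff α f := by
  rw [coeff_rescale, Finsupp.prod_fintype _ _ (fun _ => pow_zero _), Finset.prod_pow_eq_pow_sum]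

lemma const_ne {P : MvPolynomial (Fin d) ℂ} (hz : ZeroFree P) :
    constantCoeff (P : MvPowerSeries (Fin d) ℂ) ≠ 0 := by
  have h := hz (fun _ => 0) (by simp)
  have e : MvPolynomial.eval (fun _ : Fin d => (0:ℂ)) P = MvPolynomial.coeff 0 P := by
    have := MvPolynomial.eval_zero' (σ := Fin d) (R := ℂ)
    have h2 : MvPolynomial.eval (fun _ : Fin d => (0:ℂ)) P = MvPolynomial.constantCoeff P := by
      rw [← this]
    rw [h2, MvPolynomial.constantCoeff_eq]
  rw [← coeff_zero_eq_constantCoeff_apply, MvPolynomial.coeff_coe, ← e]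
  exact h

lemma pslice_zero_free {P : MvPolynomial (Fin d) ℂ} (hz : ZeroFree P) {ζ : Fin d → ℂ}
    (hζ : ∀ j, ‖ζ j‖ = 1) (z : ℂ) (h : ‖z‖ < 1) : (pslice ζ P).eval z ≠ 0 := by
  rw [pslice_eval]
  apply hz
  intro j
  rw [norm_mul, hζ, one_mul]
  exact h

lemma slice_one (ζ : Fin d → ℂ) : slice ζ (1 : MvPowerSeries (Fin d) ℂ) = 1 := by
  have := slice_C ζ 1
  rwa [map_one, map_one] at this

lemma inv_bound {P : MvPolynomial (Fin d) ℂ} (hz : ZeroFree P) (u : MvPowerSeries (Fin d) ℂ)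
    (hu : u * (P : MvPowerSeries (Fin d) ℂ) = 1) (n : ℕ) :
    ∑ α ∈ fa d n, ‖coeff α u‖ ^ 2 ≤
      (((n:ℝ) + 1) ^ P.totalDegree / ‖constantCoeff (P : MvPowerSeries (Fin d) ℂ)‖) ^ 2 := by
  have h := avg_le (n + 1) (fun m => if m = n then (1:ℝ) else 0) (fun α => coeff α u)
    ((((n:ℝ) + 1) ^ P.totalDegree / ‖constantCoeff (P : MvPowerSeries (Fin d) ℂ)‖) ^ 2) ?_
  · rw [Finset.sum_eq_single n] at h
    · simpa using h
    · intro b _ hb
      rw [if_neg hb, zero_mul]
    · intro h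
      exact absurd (mem_range.mpr (Nat.lt_succ_self n)) h
  · intro ζ hζ
    rw [Finset.sum_eq_single n]
    · rw [if_pos rfl, one_mul, ← coeff_slice]
      apply pow_le_pow_left₀ (norm_nonneg _)
      have h1 := one_var_inv P.totalDegree (pslice ζ P) (pslice_natDegree ζ P)
        (fun z hz1 => pslice_zero_free hz hζ z hz1) (slice ζ u)
        (by rw [← slice_poly, ← slice_mul, hu, slice_one]) n
      have h2 : (pslice ζ P).coeff 0 = constantCoeff (P : MvPowerSeries (Fin d) ℂ) := by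
        rw [Polynomial.coeff_zero_eq_eval_zero, pslice_eval,
          ← coeff_zero_eq_constantCoeff_apply, MvPolynomial.coeff_coe,
          ← MvPolynomial.constantCoeff_eq, ← MvPolynomial.eval_zero']
        simp
      rwa [h2] at h1
    · intro b _ hb
      rw [if_neg hb, zero_mul]
    · intro h
      exact absurd (mem_range.mpr (Nat.lt_succ_self n)) h

lemma le_deg {n : ℕ} {α : Fin d →₀ ℕ} (hα : α ∈ fa d n) (j : Fin d) : (α j : ℝ) ≤ n := by
  rw [mem_fa] at hα
  have : α j ≤ ∑ i, α i := Finset.single_le_sum (fun _ _ => Nat.zero_le _) (mem_univ j)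
  rw [hα] at this
  exact_mod_cast this

lemma wt_le_pow {t : ℝ} (ht : t ≤ 1) {n : ℕ} {α : Fin d →₀ ℕ} (hα : α ∈ fa d n) :
    wt t α ≤ (1 + (n:ℝ)) ^ d := by
  have h : wt t α ≤ ∏ _j : Fin d, (1 + (n:ℝ)) := by
    apply Finset.prod_le_prod
    · intro j _
      positivity
    · intro j _
      have h1 := le_deg hα j
      have h0 : (0:ℝ) ≤ α j := Nat.cast_nonneg _
      calc (1 + (α j:ℝ)) ^ t ≤ (1 + (α j:ℝ)) ^ (1:ℝ) :=
            Real.rpow_le_rpow_of_exponent_le (by linarith) ht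
        _ = 1 + (α j:ℝ) := Real.rpow_one _
        _ ≤ 1 + n := by linarith
  rwa [Finset.prod_const, Finset.card_univ, Fintype.card_fin] at h

lemma wt_le_one_add {t : ℝ} {k : ℕ} (ht : t * k ≤ 1) {n : ℕ} {α : Fin d →₀ ℕ} (hα : α ∈ fa d n)
    (S : Finset (Fin d)) (hS : S.card ≤ k) (hsupp : ∀ j, j ∉ S → α j = 0) :
    wt t α ≤ 1 + (n:ℝ) := by
  have hn : (0:ℝ) ≤ n := Nat.cast_nonneg _
  have e : wt t α = ∏ j ∈ S, (1 + (α j:ℝ)) ^ t := by
    rw [wt]
    symm
    apply Finset.prod_subset (subset_univ S)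
    intro j _ hj
    rw [hsupp j hj]
    simp
  rw [e]
  rcases le_or_gt 0 t with h0 | h0
  · have h1 : ∏ j ∈ S, (1 + (α j:ℝ)) ^ t ≤ ∏ _j ∈ S, (1 + (n:ℝ)) ^ t := by
      apply Finset.prod_le_prod
      · intro j _
        positivity
      · intro j _
        exact Real.rpow_le_rpow (by positivity) (by linarith [le_deg hα j]) h0
    rw [Finset.prod_const, ← Real.rpow_natCast, ← Real.rpow_mul (by positivity)] at h1
    refine h1.trans ?_
    calc (1 + (n:ℝ)) ^ (t * (S.card:ℝ)) ≤ (1 + (n:ℝ)) ^ (1:ℝ) := by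
          apply Real.rpow_le_rpow_of_exponent_le (by linarith)
          have : (S.card:ℝ) ≤ k := by exact_mod_cast hS
          nlinarith
      _ = 1 + n := Real.rpow_one _
  · have h1 : ∏ j ∈ S, (1 + (α j:ℝ)) ^ t ≤ ∏ _j ∈ S, (1:ℝ) := by
      apply Finset.prod_le_prod
      · intro j _
        positivity
      · intro j _
        have h2 : (0:ℝ) ≤ α j := Nat.cast_nonneg _
        exact Real.rpow_le_one_of_one_le_of_nonpos (by linarith) h0.le
    rw [Finset.prod_const_one] at h1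
    linarith

lemma summ (k : ℕ) (x : ℝ) (hx : 0 < x) (hx1 : x < 1) :
    Summable fun n : ℕ => ((n:ℝ) + 1) ^ k * x ^ n := by
  have h1 : Summable fun n : ℕ => ((n:ℝ)) ^ k * x ^ n :=
    summable_pow_mul_geometric_of_norm_lt_one k (by rw [Real.norm_of_nonneg hx.le]; exact hx1)
  have h2 := (summable_nat_add_iff 1).mpr h1
  have h3 := h2.mul_left x⁻¹
  refine h3.congr fun n => ?_
  push_cast
  rw [pow_succ]
  field_simp

lemma mem_inv {t : ℝ} (ht : t ≤ 1) {P : MvPolynomial (Fin d) ℂ} (hz : ZeroFree P)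
    (u : MvPowerSeries (Fin d) ℂ) (hu : u * (P : MvPowerSeries (Fin d) ℂ) = 1)
    (r : ℝ) (hr : 0 < r) (hr1 : r < 1) : MemD t (rescale (fun _ => (r:ℂ)) u) := by
  set p0 := ‖constantCoeff (P : MvPowerSeries (Fin d) ℂ)‖ with hp0
  have hp : 0 < p0 := norm_pos_iff.mpr (const_ne hz)
  set b : ℕ → ℝ := fun n => (((n:ℝ) + 1) ^ (d + 2 * P.totalDegree) * (r ^ 2) ^ n) * (p0 ^ 2)⁻¹
    with hb
  have hbs : Summable b := (summ _ _ (by positivity) (by nlinarith)).mul_right _
  have hb0 : ∀ n, 0 ≤ b n := fun n => by rw [hb]; positivity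
  refine (graded (term_nonneg t _) (B := ∑' n, b n) fun M => ?_).1
  refine le_trans ?_ (hbs.sum_le_tsum (range M) fun n _ => hb0 n)
  apply Finset.sum_le_sum
  intro n _
  have h1 : ∀ α ∈ fa d n, wt t α * ‖coeff α (rescale (fun _ => (r:ℂ)) u)‖ ^ 2 ≤
      ((1 + (n:ℝ)) ^ d * (r ^ 2) ^ n) * ‖coeff α u‖ ^ 2 := by
    intro α hα
    have h2 := wt_le_pow ht hα
    rw [mem_fa] at hα
    rw [coeff_resc, hα, norm_mul, norm_pow, Complex.norm_real, Real.norm_of_nonneg hr.le, mul_pow,
      ← pow_mul, mul_comm n 2, pow_mul]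
    have h3 : 0 ≤ (r ^ 2) ^ n * ‖coeff α u‖ ^ 2 := by positivity
    calc wt t α * ((r ^ 2) ^ n * ‖coeff α u‖ ^ 2)
        ≤ (1 + (n:ℝ)) ^ d * ((r ^ 2) ^ n * ‖coeff α u‖ ^ 2) := mul_le_mul_of_nonneg_right h2 h3
      _ = _ := by ring
  refine (Finset.sum_le_sum h1).trans ?_
  rw [← Finset.mul_sum]
  have h4 := inv_bound hz u hu n
  rw [← hp0] at h4
  calc ((1 + (n:ℝ)) ^ d * (r ^ 2) ^ n) * ∑ α ∈ fa d n, ‖coeff α u‖ ^ 2
      ≤ ((1 + (n:ℝ)) ^ d * (r ^ 2) ^ n) * (((n:ℝ) + 1) ^ P.totalDegree / p0) ^ 2 :=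
        mul_le_mul_of_nonneg_left h4 (by positivity)
    _ = b n := by
        rw [hb]
        simp only
        rw [add_comm (1:ℝ) n, div_pow, pow_add, mul_comm 2, pow_mul]
        field_simp

/-- a polynomial with at most `k` variables and no zero in the open polydisk -/
theorem cyc_main {t : ℝ} {k : ℕ} (hk : 1 ≤ k) (ht : t * k ≤ 1) (P : MvPolynomial (Fin d) ℂ)
    (hv : P.vars.card ≤ k) (hz : ZeroFree P) : Approx t P 1 := by
  classical
  have hk1 : (1:ℝ) ≤ k := by exact_mod_cast hk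
  have ht1 : t ≤ 1 := by
    rcases le_or_gt t 0 with h | h
    · linarith
    · nlinarith
  set u : MvPowerSeries (Fin d) ℂ := (P : MvPowerSeries (Fin d) ℂ)⁻¹ with hud
  have hu : u * (P : MvPowerSeries (Fin d) ℂ) = 1 := MvPowerSeries.inv_mul_cancel _ (const_ne hz)
  set r : ℕ → ℝ := fun m => ((m:ℝ) + 1) / ((m:ℝ) + 2) with hr
  have hr0 : ∀ m, 0 < r m := fun m => by rw [hr]; positivity
  have hr1 : ∀ m, r m < 1 := fun m => by
    rw [hr]
    simp only
    rw [div_lt_one (by positivity)]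
    linarith
  have hrlim : Tendsto r atTop (𝓝 1) := by
    have h1 : Tendsto (fun m : ℕ => 1 - 1 / (((m + 1 : ℕ):ℝ) + 1)) atTop (𝓝 (1 - 0)) :=
      Tendsto.const_sub _ ((tendsto_add_atTop_iff_nat 1).mpr tendsto_one_div_add_atTop_nhds_zero_nat)
    rw [sub_zero] at h1
    refine h1.congr fun m => ?_
    rw [hr]
    push_cast
    field_simp
    ring
  set G : ℕ → MvPowerSeries (Fin d) ℂ := fun m =>
    (P : MvPowerSeries (Fin d) ℂ) * rescale (fun _ => ((r m : ℝ):ℂ)) u with hG
  obtain ⟨C, hC, hCP⟩ := mem_poly_mul t P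
  have hvm : ∀ m, MemD t (rescale (fun _ => ((r m : ℝ):ℂ)) u) := fun m =>
    mem_inv ht1 hz u hu (r m) (hr0 m) (hr1 m)
  -- the support
  set S := P.vars with hS
  set a : Fin d → ℂ := fun j => if j ∈ S then 1 else 0 with ha
  have haP : rescale a (P : MvPowerSeries (Fin d) ℂ) = (P : MvPowerSeries (Fin d) ℂ) := by
    ext α
    rw [coeff_rescale, Finsupp.prod_fintype _ _ (fun _ => pow_zero _), MvPolynomial.coeff_coe]
    by_cases h : MvPolynomial.coeff α P = 0
    · rw [h, mul_zero]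
    · have h1 : ∏ j, a j ^ α j = 1 := by
        apply Finset.prod_eq_one
        intro j _
        by_cases hj : α j = 0
        · rw [hj, pow_zero]
        · have : j ∈ S := by
            rw [hS, MvPolynomial.mem_vars_iff_mem_support]
            exact ⟨α, MvPolynomial.mem_support_iff.mpr h, Finsupp.mem_support_iff.mpr hj⟩
          rw [ha]
          simp only
          rw [if_pos this, one_pow]
      rw [h1, one_mul]
  have hau : rescale a u = u := by
    calc rescale a u = rescale a u * (u * (P : MvPowerSeries (Fin d) ℂ)) := by rw [hu, mul_one]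
      _ = rescale a (u * (P : MvPowerSeries (Fin d) ℂ)) * u := by rw [map_mul, haP]; ring
      _ = u := by rw [hu, map_one, one_mul]
  have haG : ∀ m, rescale a (G m) = G m := by
    intro m
    rw [hG]
    simp only
    rw [map_mul, haP]
    congr 1
    conv_rhs => rw [← hau]
    ext α
    simp only [coeff_rescale]
    ring
  have hsuppG : ∀ m (α : Fin d →₀ ℕ), coeff α (G m) ≠ 0 → ∀ j, j ∉ S → α j = 0 := by
    intro m α h j hj
    by_contra hne
    apply h
    rw [← haG m, coeff_rescale, Finsupp.prod_fintype _ _ (fun _ => pow_zero _),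
      Finset.prod_eq_zero (mem_univ j), zero_mul]
    rw [ha]
    simp only
    rw [if_neg hj, zero_pow hne]
  have hGmem : ∀ m, MemD t (G m) := fun m => (hCP _ (hvm m)).1
  apply weak_closure t P G (Kc P.totalDegree) hGmem
  · intro m
    refine (graded (term_nonneg t (G m)) fun M => ?_).2
    have h1 : ∑ n ∈ range M, ∑ α ∈ fa d n, wt t α * ‖coeff α (G m)‖ ^ 2 ≤
        ∑ n ∈ range M, (1 + (n:ℝ)) * ∑ α ∈ fa d n, ‖coeff α (G m)‖ ^ 2 := by
      apply Finset.sum_le_sum
      intro n _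
      rw [Finset.mul_sum]
      apply Finset.sum_le_sum
      intro α hα
      by_cases h0 : coeff α (G m) = 0
      · rw [h0]
        simp
      · exact mul_le_mul_of_nonneg_right
          (wt_le_one_add ht hα S hv (hsuppG m α h0)) (sq_nonneg _)
    refine h1.trans ?_
    apply avg_le M (fun n => 1 + (n:ℝ)) (fun α => coeff α (G m))
    intro ζ hζ
    have h2 : slice ζ (G m) * PowerSeries.rescale ((r m : ℝ):ℂ)
        ((pslice ζ P : Polynomial ℂ) : PowerSeries ℂ) =
        ((pslice ζ P : Polynomial ℂ) : PowerSeries ℂ) := by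
      rw [← slice_poly, ← slice_rescale, ← slice_mul]
      congr 1
      rw [hG]
      simp only
      rw [mul_assoc, ← map_mul, hu, map_one, mul_one]
    have h3 := one_var_quot P.totalDegree (pslice ζ P) (pslice_natDegree ζ P)
      (fun z hz1 => pslice_zero_free hz hζ z hz1) (r m) (hr0 m).le (hr1 m) _ h2 M
    simp only [coeff_slice] at h3
    exact h3
  · intro m ε hε
    obtain ⟨R, hR1, hR2⟩ := trunc (hvm m) (ε / (C + 1)) (by positivity)
    obtain ⟨h1, h2⟩ := hCP _ hR1
    have e : (R : MvPowerSeries (Fin d) ℂ) * (P : MvPowerSeries (Fin d) ℂ) - G m =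
        (P : MvPowerSeries (Fin d) ℂ) *
          ((R : MvPowerSeries (Fin d) ℂ) - rescale (fun _ => ((r m : ℝ):ℂ)) u) := by
      rw [hG]
      ring
    refine ⟨R, ?_, ?_⟩
    · rw [e]
      exact h1
    · rw [e]
      refine h2.trans_lt ?_
      have h3 : C * normSq t ((R : MvPowerSeries (Fin d) ℂ) -
          rescale (fun _ => ((r m : ℝ):ℂ)) u) ≤ C * (ε / (C + 1)) :=
        mul_le_mul_of_nonneg_left hR2.le hC
      have h4 : C * (ε / (C + 1)) < ε := by
        rw [mul_div_assoc', div_lt_iff₀ (by positivity)]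
        nlinarith
      linarith
  · intro α
    have e1 : coeff α (1 : MvPowerSeries (Fin d) ℂ) =
        ∑ p ∈ antidiagonal α, coeff p.1 (P : MvPowerSeries (Fin d) ℂ) *
          ((1:ℂ) ^ (∑ j, p.2 j) * coeff p.2 u) := by
      rw [← hu, mul_comm u, coeff_mul]
      simp only [one_pow, one_mul]
    rw [e1]
    have e2 : ∀ m, coeff α (G m) =
        ∑ p ∈ antidiagonal α, coeff p.1 (P : MvPowerSeries (Fin d) ℂ) *
          (((r m : ℝ):ℂ) ^ (∑ j, p.2 j) * coeff p.2 u) := by
      intro m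
      rw [hG]
      simp only
      rw [coeff_mul]
      simp only [coeff_resc]
    simp only [e2]
    have hrc : Tendsto (fun m => ((r m : ℝ):ℂ)) atTop (𝓝 (1:ℂ)) := by
      have := (Complex.continuous_ofReal.tendsto 1).comp hrlim
      rw [Complex.ofReal_one] at this
      exact this
    apply tendsto_finsetSum
    intro p _
    exact Tendsto.const_mul _ (Tendsto.mul_const _ (hrc.pow _))

end Pool.Agent.H650R3.Cyc
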