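import Pool.Agent.H650R3.Cyc.Final
import Pool.Agent.H650R3.Cyc.Est

set_option autoImplicit false

/-! Measures on the zero set and non-cyclicity (helper file). -/

namespace Pool.Agent.H650R3.Cyc
open Finset MvPowerSeries Filter Topology MeasureTheory

variable {d : ℕ}

/-- for every `j` in `J`, the integrals of `|q|` for the polynomials `q` homogeneous in `z_j` are
bounded by a constant times the square root of the sum of the squares of the coefficients -/
def SqMarginals (J : Finset (Fin d)) (μ : Measure (Fin d → ℂ)) : Prop :=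
  ∀ j ∈ J, ∃ C : ℝ, ∀ (n : ℕ) (q : MvPolynomial (Fin d) ℂ), (∀ α ∈ q.support, α j = n) →
    ∫ z, ‖MvPolynomial.eval z q‖ ∂μ ≤ C * Real.sqrt (∑ α ∈ q.support, ‖q.coeff α‖ ^ 2)

/-- almost every point has `|z_j| = 1` for `j` in `J` and `z_j = 0` for the other `j` -/
def OnTorus (J : Finset (Fin d)) (μ : Measure (Fin d → ℂ)) : Prop :=
  ∀ᵐ z ∂μ, ∀ j, (j ∈ J → ‖z j‖ = 1) ∧ (j ∉ J → z j = 0)

lemma eval_le (f : MvPolynomial (Fin d) ℂ) (z : Fin d → ℂ) (hz : ∀ j, ‖z j‖ ≤ 1) :
    ‖MvPolynomial.eval z f‖ ≤ n1 f := by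
  rw [MvPolynomial.eval_eq', n1]
  refine (norm_sum_le _ _).trans ?_
  apply Finset.sum_le_sum
  intro α _
  rw [norm_mul, norm_prod]
  have : ∏ j, ‖z j ^ α j‖ ≤ 1 := by
    apply Finset.prod_le_one
    · intro j _
      exact norm_nonneg _
    · intro j _
      rw [norm_pow]
      exact pow_le_one₀ (norm_nonneg _) (hz j)
  exact mul_le_of_le_one_right (norm_nonneg _) this

lemma integ {μ : Measure (Fin d → ℂ)} [IsFiniteMeasure μ] {J : Finset (Fin d)}
    (htor : OnTorus J μ)
    (f : MvPolynomial (Fin d) ℂ) : Integrable (fun z => MvPolynomial.eval z f) μ := by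
  apply Integrable.of_bound (C := n1 f)
  · exact (MvPolynomial.continuous_eval f).aestronglyMeasurable
  · filter_upwards [htor] with z hz
    apply eval_le f z
    intro j
    by_cases hj : j ∈ J
    · exact ((hz j).1 hj).le
    · rw [(hz j).2 hj, norm_zero]
      exact zero_le_one

lemma fiber {μ : Measure (Fin d → ℂ)} [IsFiniteMeasure μ] {J : Finset (Fin d)}
    (htor : OnTorus J μ)
    (j : Fin d) (C : ℝ)
    (hC : ∀ (n : ℕ) (q : MvPolynomial (Fin d) ℂ), (∀ α ∈ q.support, α j = n) →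
      ∫ z, ‖MvPolynomial.eval z q‖ ∂μ ≤ C * Real.sqrt (∑ α ∈ q.support, ‖q.coeff α‖ ^ 2))
    (n : ℕ) (s : Finset (Fin d →₀ ℕ)) (hs : ∀ α ∈ s, α j = n) :
    ∑ α ∈ s, ‖∫ z, MvPolynomial.eval z (MvPolynomial.monomial α (1:ℂ)) ∂μ‖ ^ 2 ≤ C ^ 2 := by
  classical
  set l : (Fin d →₀ ℕ) → ℂ := fun α => ∫ z, MvPolynomial.eval z (MvPolynomial.monomial α (1:ℂ)) ∂μ
    with hl
  set S : ℝ := ∑ α ∈ s, ‖l α‖ ^ 2 with hS
  have hS0 : 0 ≤ S := Finset.sum_nonneg fun _ _ => sq_nonneg _
  set q : MvPolynomial (Fin d) ℂ :=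
    ∑ α ∈ s, MvPolynomial.monomial α ((starRingEnd ℂ) (l α)) with hq
  have hc : ∀ α, q.coeff α = if α ∈ s then (starRingEnd ℂ) (l α) else 0 := by
    intro α
    rw [hq, MvPolynomial.coeff_sum]
    simp only [MvPolynomial.coeff_monomial]
    rw [Finset.sum_ite_eq' s α]
  have hsub : q.support ⊆ s := by
    intro α hα
    by_contra h
    rw [MvPolynomial.mem_support_iff, hc, if_neg h] at hα
    exact hα rfl
  have h1 : ∑ α ∈ q.support, ‖q.coeff α‖ ^ 2 = S := by
    rw [Finset.sum_subset hsub (fun α _ h => by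
      rw [MvPolynomial.notMem_support_iff.mp h, norm_zero]; norm_num)]
    apply Finset.sum_congr rfl
    intro α hα
    rw [hc, if_pos hα, RCLike.norm_conj]
  have h2 : ∫ z, MvPolynomial.eval z q ∂μ = (S : ℂ) := by
    have e : ∀ z : Fin d → ℂ, MvPolynomial.eval z q =
        ∑ α ∈ s, (starRingEnd ℂ) (l α) * MvPolynomial.eval z (MvPolynomial.monomial α (1:ℂ)) := by
      intro z
      rw [hq, map_sum]
      apply Finset.sum_congr rfl
      intro α _
      rw [MvPolynomial.eval_monomial, MvPolynomial.eval_monomial, one_mul]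
    simp only [e]
    rw [integral_finsetSum _ (fun α _ => (integ htor _).const_mul _)]
    rw [hS, Complex.ofReal_sum]
    apply Finset.sum_congr rfl
    intro α _
    rw [integral_const_mul]
    change (starRingEnd ℂ) (l α) * l α = _
    rw [Complex.conj_mul']
    push_cast
    ring
  have h3 : S ≤ C * Real.sqrt S := by
    calc S = ‖∫ z, MvPolynomial.eval z q ∂μ‖ := by
          rw [h2, Complex.norm_real, Real.norm_of_nonneg hS0]
      _ ≤ ∫ z, ‖MvPolynomial.eval z q‖ ∂μ := norm_integral_le_integral_norm _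
      _ ≤ C * Real.sqrt S := by
          rw [← h1]
          exact hC n q fun α hα => hs α (hsub hα)
  have h4 := Real.sq_sqrt hS0
  have h5 := Real.sqrt_nonneg S
  change S ≤ C ^ 2
  rcases h5.eq_or_lt with h6 | h6
  · rw [← h4, ← h6]
    norm_num
    positivity
  · have h7 : Real.sqrt S ≤ C := by
      by_contra h
      push Not at h
      nlinarith
    rw [← h4]
    exact pow_le_pow_left₀ h5 h7 2

lemma wt_amgm {t : ℝ} {J : Finset (Fin d)} (hJ : J.Nonempty) (α : Fin d →₀ ℕ)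
    (hα : α.support ⊆ J) :
    (wt t α)⁻¹ ≤ ∑ j ∈ J, (1 / (J.card:ℝ)) * (1 / ((α j + 1 : ℕ) : ℝ) ^ (t * J.card)) := by
  have hd0 : (0:ℝ) < J.card := by exact_mod_cast hJ.card_pos
  have h := Real.geom_mean_le_arith_mean_weighted J
    (fun _ => 1 / (J.card:ℝ)) (fun j => 1 / ((α j + 1 : ℕ) : ℝ) ^ (t * J.card))
    (fun _ _ => by positivity) (by
      rw [Finset.sum_const, nsmul_eq_mul]
      field_simp) (fun _ _ => by positivity)
  refine le_trans (le_of_eq ?_) h
  have e1 : wt t α = ∏ j ∈ J, (1 + (α j : ℝ)) ^ t := by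
    rw [wt]
    symm
    apply Finset.prod_subset (subset_univ _)
    intro j _ hj
    have : α j = 0 := by
      by_contra h
      exact hj (hα (Finsupp.mem_support_iff.mpr h))
    rw [this]
    simp
  rw [e1, ← Finset.prod_inv_distrib]
  apply Finset.prod_congr rfl
  intro j _
  rw [one_div (((α j + 1 : ℕ) : ℝ) ^ (t * J.card)), Real.inv_rpow (by positivity),
    ← Real.rpow_mul (by positivity)]
  have e : t * J.card * (1 / (J.card:ℝ)) = t := by field_simp
  rw [e]
  push_cast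
  rw [add_comm]

theorem meas_nec {t : ℝ} {μ : Measure (Fin d → ℂ)} [IsFiniteMeasure μ] {J : Finset (Fin d)}
    (hJ : J.Nonempty) (ht : 1 < t * J.card) (hμ : μ ≠ 0) (htor : OnTorus J μ)
    (hm : SqMarginals J μ) {P : MvPolynomial (Fin d) ℂ} (h0 : ∀ᵐ z ∂μ, MvPolynomial.eval z P = 0) :
    ¬ ShiftCyclic t (P : MvPowerSeries (Fin d) ℂ) := by
  classical
  intro hcyc
  have hm' : ∀ j, ∃ C : ℝ, j ∈ J → ∀ (n : ℕ) (q : MvPolynomial (Fin d) ℂ),
      (∀ α ∈ q.support, α j = n) → ∫ z, ‖MvPolynomial.eval z q‖ ∂μ ≤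
        C * Real.sqrt (∑ α ∈ q.support, ‖q.coeff α‖ ^ 2) := by
    intro j
    by_cases hj : j ∈ J
    · obtain ⟨C, hC⟩ := hm j hj
      exact ⟨C, fun _ => hC⟩
    · exact ⟨0, fun h => absurd h hj⟩
  choose C hC using hm'
  set l : (Fin d →₀ ℕ) → ℂ := fun α => ∫ z, MvPolynomial.eval z (MvPolynomial.monomial α (1:ℂ)) ∂μ
    with hl
  set a : ℕ → ℝ := fun k => 1 / (((k + 1 : ℕ):ℝ)) ^ (t * (J.card:ℝ)) with ha
  have hsum : Summable a :=
    (summable_nat_add_iff (f := fun k : ℕ => 1 / (k:ℝ) ^ (t * (J.card:ℝ))) 1).mpr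
      (Real.summable_one_div_nat_rpow.mpr ht)
  have ha0 : ∀ k, 0 ≤ a k := fun k => by rw [ha]; positivity
  set T := ∑' k, a k with hT
  set A : ℝ := ∑ j ∈ J, (1 / (J.card:ℝ)) * (C j ^ 2 * T) with hA
  have hT0 : 0 ≤ T := tsum_nonneg ha0
  have hA0 : 0 ≤ A := Finset.sum_nonneg fun j _ => by positivity
  have hfib : ∀ j ∈ J, ∀ (s : Finset (Fin d →₀ ℕ)),
      ∑ α ∈ s, ‖l α‖ ^ 2 * a (α j) ≤ C j ^ 2 * T := by
    intro j hj s
    rw [← Finset.sum_fiberwise_of_maps_to (t := s.image fun α => α j)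
      (g := fun α : Fin d →₀ ℕ => α j) (fun α hα => Finset.mem_image_of_mem _ hα)]
    have h1 : ∀ n ∈ s.image (fun α : Fin d →₀ ℕ => α j),
        ∑ α ∈ s with α j = n, ‖l α‖ ^ 2 * a (α j) ≤ C j ^ 2 * a n := by
      intro n _
      have e : ∑ α ∈ s with α j = n, ‖l α‖ ^ 2 * a (α j) =
          (∑ α ∈ s with α j = n, ‖l α‖ ^ 2) * a n := by
        rw [Finset.sum_mul]
        apply Finset.sum_congr rfl
        intro α hα
        rw [(Finset.mem_filter.mp hα).2]
      rw [e]
      apply mul_le_mul_of_nonneg_right _ (ha0 n)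
      exact fiber htor j (C j) (hC j hj) n _ fun α hα => (Finset.mem_filter.mp hα).2
    refine (Finset.sum_le_sum h1).trans ?_
    rw [← Finset.mul_sum]
    exact mul_le_mul_of_nonneg_left (hsum.sum_le_tsum _ fun k _ => ha0 k) (sq_nonneg _)
  have hbd : ∀ s : Finset (Fin d →₀ ℕ), ∑ α ∈ s, ‖l α‖ ^ 2 / wt t α ≤ A := by
    intro s
    have h1 : ∑ α ∈ s, ‖l α‖ ^ 2 / wt t α ≤
        ∑ α ∈ s, ∑ j ∈ J, (1 / (J.card:ℝ)) * (‖l α‖ ^ 2 * a (α j)) := by
      apply Finset.sum_le_sum
      intro α _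
      by_cases hα : α.support ⊆ J
      swap
      · have hl0 : l α = 0 := by
          rw [Finset.not_subset] at hα
          obtain ⟨i, hi, hiJ⟩ := hα
          apply integral_eq_zero_of_ae
          filter_upwards [htor] with z hz
          rw [MvPolynomial.eval_monomial, one_mul, Finsupp.prod_fintype _ _ (fun _ => pow_zero _)]
          apply Finset.prod_eq_zero (mem_univ i)
          rw [(hz i).2 hiJ, zero_pow (Finsupp.mem_support_iff.mp hi)]
        rw [hl0, norm_zero]
        norm_num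
      rw [div_eq_mul_inv]
      refine (mul_le_mul_of_nonneg_left (wt_amgm (t := t) hJ α hα) (sq_nonneg _)).trans
        (le_of_eq ?_)
      rw [Finset.mul_sum]
      apply Finset.sum_congr rfl
      intro j _
      rw [ha]
      ring
    refine h1.trans ?_
    rw [Finset.sum_comm, hA]
    apply Finset.sum_le_sum
    intro j hj
    rw [← Finset.mul_sum]
    exact mul_le_mul_of_nonneg_left (hfib j hj s) (by positivity)
  have hb : ∀ f : MvPolynomial (Fin d) ℂ,
      ‖∫ z, MvPolynomial.eval z f ∂μ‖ ^ 2 ≤ A * normSq t (f : MvPowerSeries (Fin d) ℂ) := by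
    intro f
    have h1 : ‖∫ z, MvPolynomial.eval z f ∂μ‖ ≤
        ∑ α ∈ f.support, ‖coeff α (f : MvPowerSeries (Fin d) ℂ)‖ * ‖l α‖ := by
      have e : ∀ z : Fin d → ℂ, MvPolynomial.eval z f =
          ∑ α ∈ f.support, f.coeff α * MvPolynomial.eval z (MvPolynomial.monomial α (1:ℂ)) := by
        intro z
        conv_lhs => rw [f.as_sum]
        rw [map_sum]
        apply Finset.sum_congr rfl
        intro α _
        rw [MvPolynomial.eval_monomial, MvPolynomial.eval_monomial, one_mul]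
      simp only [e]
      rw [integral_finsetSum _ (fun α _ => (integ htor _).const_mul _)]
      refine (norm_sum_le _ _).trans (le_of_eq ?_)
      apply Finset.sum_congr rfl
      intro α _
      rw [integral_const_mul, norm_mul, MvPolynomial.coeff_coe]
    refine (pow_le_pow_left₀ (norm_nonneg _) h1 2).trans ?_
    apply cs_bound t _ (mem_poly t f) f.support (fun α => ‖l α‖) (fun α => norm_nonneg _) A
    exact hbd f.support
  set m : ℝ := μ.real Set.univ with hmd
  have hm0 : 0 < m := by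
    rw [hmd, measureReal_def]
    apply ENNReal.toReal_pos
    · rwa [Ne, Measure.measure_univ_eq_zero]
    · exact measure_ne_top μ _
  obtain ⟨Q, _, hQ⟩ := hcyc.2 1 (mem_one t) (m ^ 2 / (A + 1)) (by positivity)
  have h1 := hb (Q * P - 1)
  have h2 : ∫ z, MvPolynomial.eval z (Q * P - 1) ∂μ = -(m : ℂ) := by
    have e : ∀ᵐ z ∂μ, MvPolynomial.eval z (Q * P - 1) = -1 := by
      filter_upwards [h0] with z hz
      rw [map_sub, map_mul, hz, mul_zero, map_one, zero_sub]
    rw [integral_congr_ae e, integral_const]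
    simp [hmd]
  rw [h2, norm_neg, Complex.norm_real, Real.norm_of_nonneg hm0.le,
    coe_sub', MvPolynomial.coe_mul, MvPolynomial.coe_one] at h1
  have h3 : A * normSq t ((Q : MvPowerSeries (Fin d) ℂ) * (P : MvPowerSeries (Fin d) ℂ) - 1) ≤
      A * (m ^ 2 / (A + 1)) := mul_le_mul_of_nonneg_left hQ.le hA0
  have h4 : A * (m ^ 2 / (A + 1)) < m ^ 2 := by
    rw [mul_div_assoc', div_lt_iff₀ (by positivity)]
    nlinarith [sq_pos_of_pos hm0]
  linarith

end Pool.Agent.H650R3.Cyc
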