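import Pool.Agent.H650R3.Cyc.Dual
import Pool.Agent.H650R3.Cyc.Est

set_option autoImplicit false

/-! Vanishing of high differences and elimination (helper file). -/

namespace Pool.Agent.H650R3.Cyc
open Finset MvPowerSeries Filter Topology

variable {d : ℕ}

lemma growth {t : ℝ} {L : MvPolynomial (Fin d) ℂ →ₗ[ℂ] ℂ} (hL : Bdd t L) :
    ∃ K : ℝ, 0 ≤ K ∧ ∀ (f : MvPolynomial (Fin d) ℂ) (D : ℕ), f.totalDegree ≤ D →
      ‖L f‖ ≤ n1 f * (K * (1 + (D:ℝ)) ^ (⌈|t|⌉₊ * d)) := by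
  classical
  obtain ⟨A, hA, hL⟩ := hL
  set B := normSq t (1 : MvPowerSeries (Fin d) ℂ) with hB
  have hB0 : 0 ≤ B := normSq_nonneg _ _
  refine ⟨Real.sqrt (A * B), Real.sqrt_nonneg _, fun f D hD => ?_⟩
  set X : ℝ := (1 + (D:ℝ)) ^ (⌈|t|⌉₊ * d) with hX
  have hX1 : 1 ≤ X := one_le_pow₀ (by linarith [(Nat.cast_nonneg D : (0:ℝ) ≤ D)])
  have hmono : ∀ γ ∈ f.support, ‖L (MvPolynomial.monomial γ 1)‖ ≤ Real.sqrt (A * B) * X := by
    intro γ hγ
    have h1 := hL (MvPolynomial.monomial γ 1)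
    have h2 := (mem_mono (mem_one t) γ 1 (t := t) (d := d)).2
    rw [mul_one, norm_one, one_pow, one_mul] at h2
    rw [MvPolynomial.coe_monomial] at h1
    have h3 : wt |t| γ ≤ X := by
      rw [wt, hX, pow_mul]
      calc ∏ j, (1 + (γ j : ℝ)) ^ |t| ≤ ∏ _j : Fin d, (1 + (D:ℝ)) ^ ⌈|t|⌉₊ := by
            apply Finset.prod_le_prod
            · intro j _
              positivity
            · intro j _
              have h4 : γ j ≤ D := by
                refine le_trans ?_ ((MvPolynomial.le_totalDegree hγ).trans hD)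
                rw [Finsupp.sum_fintype _ _ (fun _ => rfl)]
                exact Finset.single_le_sum (fun _ _ => Nat.zero_le _) (mem_univ j)
              have h5 : (γ j : ℝ) ≤ D := by exact_mod_cast h4
              have h6 : (0:ℝ) ≤ γ j := Nat.cast_nonneg _
              calc (1 + (γ j : ℝ)) ^ |t| ≤ (1 + (D : ℝ)) ^ |t| :=
                    Real.rpow_le_rpow (by positivity) (by linarith) (abs_nonneg t)
                _ ≤ (1 + (D : ℝ)) ^ ((⌈|t|⌉₊ : ℕ) : ℝ) :=
                    Real.rpow_le_rpow_of_exponent_le (by linarith) (Nat.le_ceil _)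
                _ = _ := Real.rpow_natCast _ _
        _ = _ := by rw [Finset.prod_const, Finset.card_univ, Fintype.card_fin]
    apply le_of_sq_le_sq _ (by positivity)
    rw [mul_pow, Real.sq_sqrt (by positivity)]
    refine h1.trans ?_
    have h7 : normSq t (monomial γ (1:ℂ)) ≤ X * B :=
      h2.trans (mul_le_mul_of_nonneg_right h3 hB0)
    have h8 : X * B ≤ X ^ 2 * B := mul_le_mul_of_nonneg_right (by nlinarith) hB0
    calc A * normSq t (monomial γ (1:ℂ)) ≤ A * (X ^ 2 * B) :=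
          mul_le_mul_of_nonneg_left (h7.trans h8) hA
      _ = _ := by ring
  conv_lhs => rw [f.as_sum]
  rw [map_sum, n1, Finset.sum_mul]
  refine (norm_sum_le _ _).trans ?_
  apply Finset.sum_le_sum
  intro γ hγ
  have e : MvPolynomial.monomial γ (f.coeff γ) = f.coeff γ • MvPolynomial.monomial γ (1:ℂ) := by
    rw [MvPolynomial.smul_monomial, smul_eq_mul, mul_one]
  rw [e, map_smul, smul_eq_mul, norm_mul]
  exact mul_le_mul_of_nonneg_left (hmono γ hγ) (norm_nonneg _)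

lemma vanish {t : ℝ} {L : MvPolynomial (Fin d) ℂ →ₗ[ℂ] ℂ} (hL : Bdd t L)
    (w ρ ψ : MvPolynomial (Fin d) ℂ) (hw : n1 w ≤ 1) (p : ℝ) (hp : 0 < p) (hp1 : p ≤ 1)
    (hρ : n1 ρ ≤ 1 - p)
    (hψ : ψ = MvPolynomial.C (p : ℂ) * (MvPolynomial.C (1 / 2) * (1 + w)) + ρ)
    (hLψ : ∀ f, L (ψ * f) = L f) : ∃ N : ℕ, ∀ f, L ((1 - w) ^ N * f) = 0 := by
  obtain ⟨K, hK, hg⟩ := growth hL
  set R := ⌈|t|⌉₊ * d with hR
  have hpow : ∀ n f, L (ψ ^ n * f) = L f := by
    intro n
    induction n with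
    | zero => intro f; rw [pow_zero, one_mul]
    | succ n ih => intro f; rw [pow_succ, mul_assoc, ih, hLψ]
  refine ⟨2 * (R + 1), fun f => ?_⟩
  set N := 2 * (R + 1) with hN
  set E := N * ((1 - w).totalDegree + ψ.totalDegree) + f.totalDegree with hE
  set Q : ℝ := (4 / p) ^ (R + 1) * n1 f * K * (1 + (E:ℝ)) ^ R with hQ
  have hQ0 : 0 ≤ Q := by
    have := n1_nonneg f
    positivity
  have hbound : ∀ n : ℕ, ‖L ((1 - w) ^ N * f)‖ ≤ Q / (n + 1) := by
    intro n
    have e : L ((1 - w) ^ N * f) = L (((1 - w) * ψ ^ n) ^ N * f) := by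
      rw [← hpow (n * N) ((1 - w) ^ N * f), mul_pow, ← pow_mul]
      congr 1
      ring
    rw [e]
    have hdeg : (((1 - w) * ψ ^ n) ^ N * f).totalDegree ≤ (n + 1) * E := by
      refine (MvPolynomial.totalDegree_mul _ _).trans ?_
      have h1 := MvPolynomial.totalDegree_pow ((1 - w) * ψ ^ n) N
      have h2 := MvPolynomial.totalDegree_mul (1 - w) (ψ ^ n)
      have h3 := MvPolynomial.totalDegree_pow ψ n
      have h4 : N * ((1 - w) * ψ ^ n).totalDegree ≤
          N * ((1 - w).totalDegree + n * ψ.totalDegree) :=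
        Nat.mul_le_mul_left _ (h2.trans (Nat.add_le_add_left h3 _))
      rw [hE]
      nlinarith [Nat.zero_le (n * (N * (1 - w).totalDegree)), Nat.zero_le (n * f.totalDegree),
        Nat.zero_le (N * ψ.totalDegree)]
    refine (hg _ _ hdeg).trans ?_
    have h5 : n1 (((1 - w) * ψ ^ n) ^ N * f) ≤ (2 / Real.sqrt (p * (n + 1))) ^ N * n1 f := by
      refine (n1_mul _ _).trans (mul_le_mul_of_nonneg_right ?_ (n1_nonneg _))
      refine (n1_pow _ _).trans (pow_le_pow_left₀ (n1_nonneg _) ?_ _)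
      rw [hψ]
      exact diff2 w ρ hw p hp hp1 hρ n
    have hn : (0:ℝ) < (n:ℝ) + 1 := by positivity
    have h6 : (2 / Real.sqrt (p * (n + 1))) ^ N = (4 / p) ^ (R + 1) / ((n:ℝ) + 1) ^ (R + 1) := by
      rw [hN, pow_mul, div_pow, Real.sq_sqrt (by positivity), ← div_pow]
      congr 1
      field_simp
      norm_num
    have h7 : (1 + (((n + 1) * E : ℕ) : ℝ)) ^ R ≤ ((n:ℝ) + 1) ^ R * (1 + (E:ℝ)) ^ R := by
      rw [← mul_pow]
      apply pow_le_pow_left₀ (by positivity)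
      push_cast
      have : (0:ℝ) ≤ n := Nat.cast_nonneg _
      nlinarith
    calc n1 (((1 - w) * ψ ^ n) ^ N * f) * (K * (1 + (((n + 1) * E : ℕ) : ℝ)) ^ R)
        ≤ ((2 / Real.sqrt (p * (n + 1))) ^ N * n1 f) *
          (K * (((n:ℝ) + 1) ^ R * (1 + (E:ℝ)) ^ R)) := by
          apply mul_le_mul h5 (mul_le_mul_of_nonneg_left h7 hK) (by positivity)
          have := n1_nonneg f
          positivity
      _ = Q / (n + 1) := by
          rw [h6, hQ, pow_succ ((n:ℝ) + 1)]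
          field_simp
  by_contra hne
  have hpos : 0 < ‖L ((1 - w) ^ N * f)‖ := norm_pos_iff.mpr hne
  obtain ⟨n, hn⟩ := exists_nat_gt (Q / ‖L ((1 - w) ^ N * f)‖)
  have h1 := hbound n
  rw [div_lt_iff₀ hpos] at hn
  rw [le_div_iff₀ (by positivity)] at h1
  nlinarith

lemma elim {ι : Type*} (L : MvPolynomial (Fin d) ℂ →ₗ[ℂ] ℂ) (b : ι → MvPolynomial (Fin d) ℂ)
    (h0 : ∃ f, L f ≠ 0) (S : Finset ι) (hb : ∀ i ∈ S, ∃ N : ℕ, ∀ f, L (b i ^ N * f) = 0) :
    ∃ g, (∃ f, L (g * f) ≠ 0) ∧ ∀ i ∈ S, ∀ f, L (g * (b i * f)) = 0 := by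
  classical
  induction S using Finset.induction_on with
  | empty =>
    obtain ⟨f, hf⟩ := h0
    exact ⟨1, ⟨f, by rwa [one_mul]⟩, fun i hi => by simp at hi⟩
  | insert a S ha ih =>
    obtain ⟨g, ⟨f0, hf0⟩, hg⟩ := ih fun i hi => hb i (Finset.mem_insert_of_mem hi)
    obtain ⟨N, hN⟩ := hb a (Finset.mem_insert_self _ _)
    have hex : ∃ k : ℕ, ∀ f, L (g * (b a ^ k * f)) = 0 := by
      refine ⟨N, fun f => ?_⟩
      rw [← hN (g * f)]
      congr 1
      ring
    set k := Nat.find hex with hk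
    have hk1 := Nat.find_spec hex
    rw [← hk] at hk1
    have hk0 : k ≠ 0 := by
      intro h
      apply hf0
      have := hk1 f0
      rwa [h, pow_zero, one_mul] at this
    have hk2 := Nat.find_min hex (m := k - 1) (by omega)
    push Not at hk2
    obtain ⟨f1, hf1⟩ := hk2
    refine ⟨g * b a ^ (k - 1), ⟨f1, by rwa [mul_assoc]⟩, ?_⟩
    intro i hi f
    rw [Finset.mem_insert] at hi
    rcases hi with rfl | hi
    · have := hk1 f
      rw [← this]
      congr 1
      obtain ⟨m, hm⟩ : ∃ m, k = m + 1 := ⟨k - 1, by omega⟩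
      rw [hm, Nat.add_sub_cancel, pow_succ]
      ring
    · rw [← hg i hi (b a ^ (k - 1) * f)]
      congr 1
      ring

end Pool.Agent.H650R3.Cyc
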