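import Pool.Agent.H650R3.Cyc.Crit

set_option autoImplicit false

/-! The case without zeros on the torus (helper file). -/

namespace Pool.Agent.H650R3.Cyc
open Finset MvPowerSeries Filter Topology

variable {d : ℕ}

lemma supp_split {P : MvPolynomial (Fin d) ℂ} (hc0 : P.coeff 0 ≠ 0) :
    P = MvPolynomial.C (P.coeff 0) +
      ∑ α ∈ P.support.erase 0, MvPolynomial.monomial α (P.coeff α) := by
  classical
  have hsupp : P.support = insert 0 (P.support.erase 0) := by
    rw [Finset.insert_erase]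
    exact MvPolynomial.mem_support_iff.mpr hc0
  conv_lhs => rw [P.as_sum]
  rw [hsupp, Finset.sum_insert (Finset.notMem_erase _ _), ← hsupp]
  rfl

theorem core {t : ℝ} {P : MvPolynomial (Fin d) ℂ} (hc0 : P.coeff 0 ≠ 0)
    (u : (Fin d →₀ ℕ) → ℂ) (hun : ∀ α, ‖u α‖ = 1)
    (hr1 : ∑ α ∈ P.support.erase 0, ‖P.coeff α‖ / ‖P.coeff 0‖ = 1)
    (hcoef : ∀ α ∈ P.support.erase 0,
      ((‖P.coeff α‖ / ‖P.coeff 0‖ : ℝ) : ℂ) * u α = -(P.coeff α) / P.coeff 0)
    {L : MvPolynomial (Fin d) ℂ →ₗ[ℂ] ℂ} (hL : Bdd t L) (hL1 : L 1 ≠ 0)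
    (hLP : ∀ f, L (P * f) = 0) :
    ∃ g, (∃ f, L (g * f) ≠ 0) ∧ ∀ α ∈ P.support.erase 0, ∀ f,
      L (g * ((1 - MvPolynomial.monomial α (u α)) * f)) = 0 := by
  classical
  set c0 := P.coeff 0 with hc
  have hP := supp_split hc0
  rw [← hc] at hP
  set S := P.support.erase 0 with hS
  set r : (Fin d →₀ ℕ) → ℝ := fun α => ‖P.coeff α‖ / ‖c0‖ with hr
  have hn0 : 0 < ‖c0‖ := norm_pos_iff.mpr hc0
  have hr1' : ∑ α ∈ S, r α = 1 := hr1
  set w : (Fin d →₀ ℕ) → MvPolynomial (Fin d) ℂ := fun α => MvPolynomial.monomial α (u α) with hw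
  have hwn : ∀ α, n1 (w α) ≤ 1 := fun α => by
    rw [hw]
    simp only
    rw [n1_monomial, hun]
  set ψ : MvPolynomial (Fin d) ℂ := ∑ α ∈ S, MvPolynomial.C (r α : ℂ) *
    (MvPolynomial.C (1 / 2) * (1 + w α)) with hψ
  have hψ2 : ψ = 1 - MvPolynomial.C (1 / (2 * c0)) * P := by
    have e1 : ψ = MvPolynomial.C (1 / 2) * MvPolynomial.C (((∑ α ∈ S, r α : ℝ)) : ℂ) +
        ∑ α ∈ S, MvPolynomial.C (1 / 2) * MvPolynomial.monomial α (-(P.coeff α) / c0) := by
      rw [hψ]
      push_cast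
      rw [map_sum, Finset.mul_sum, ← Finset.sum_add_distrib]
      apply Finset.sum_congr rfl
      intro α hα
      rw [← hcoef α hα, ← MvPolynomial.C_mul_monomial]
      simp only [hr]
      push_cast
      ring
    rw [e1, hr1', Complex.ofReal_one, map_one, mul_one]
    conv_rhs => rw [hP]
    rw [mul_add, ← map_mul, Finset.mul_sum]
    have e2 : (1 / (2 * c0)) * c0 = 1 / 2 := by field_simp
    have e3 : (1 : MvPolynomial (Fin d) ℂ) =
        MvPolynomial.C (1 / 2) + MvPolynomial.C (1 / 2) := by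
      rw [← map_add, add_halves, map_one]
    have e4 : ∑ α ∈ S, MvPolynomial.C (1 / (2 * c0)) * MvPolynomial.monomial α (P.coeff α) =
        - ∑ α ∈ S, MvPolynomial.C (1 / 2) * MvPolynomial.monomial α (-(P.coeff α) / c0) := by
      rw [← Finset.sum_neg_distrib]
      apply Finset.sum_congr rfl
      intro α _
      rw [MvPolynomial.C_mul_monomial, MvPolynomial.C_mul_monomial, ← map_neg]
      congr 1
      field_simp
    rw [e2, e4]
    linear_combination (-1 : MvPolynomial (Fin d) ℂ) * e3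
  have hLψ : ∀ f, L (ψ * f) = L f := by
    intro f
    have e : ψ * f = f - P * (MvPolynomial.C (1 / (2 * c0)) * f) := by
      rw [hψ2]
      ring
    rw [e, map_sub, hLP, sub_zero]
  have hvan : ∀ α ∈ S, ∃ N : ℕ, ∀ f, L ((1 - w α) ^ N * f) = 0 := by
    intro α hα
    have hpos : 0 < r α := by
      rw [hr]
      apply div_pos _ hn0
      rw [norm_pos_iff]
      exact MvPolynomial.mem_support_iff.mp (Finset.mem_of_mem_erase hα)
    have hsplit : r α + ∑ β ∈ S.erase α, r β = 1 := by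
      rw [Finset.add_sum_erase S r hα, hr1']
    have hr0 : ∀ β, 0 ≤ r β := fun β => by rw [hr]; positivity
    have hre0 : 0 ≤ ∑ β ∈ S.erase α, r β := Finset.sum_nonneg fun β _ => hr0 β
    apply vanish hL (w α) (∑ β ∈ S.erase α, MvPolynomial.C (r β : ℂ) *
      (MvPolynomial.C (1 / 2) * (1 + w β))) ψ (hwn α) (r α) hpos (by linarith) _ _ hLψ
    · have : 1 - r α = ∑ β ∈ S.erase α, r β := by linarith
      rw [this]
      refine (n1_sum _ _).trans ?_
      apply Finset.sum_le_sum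
      intro β _
      refine (n1_C_mul _ _).trans ?_
      rw [Complex.norm_real, Real.norm_of_nonneg (hr0 β)]
      have h1 : n1 (MvPolynomial.C (1 / 2) * (1 + w β)) ≤ 1 := by
        refine (n1_C_mul _ _).trans ?_
        have h2 := n1_add 1 (w β)
        rw [n1_one] at h2
        have h3 := hwn β
        have h4 : ‖(1 / 2 : ℂ)‖ = 1 / 2 := by norm_num
        rw [h4]
        linarith
      nlinarith [hr0 β]
    · rw [hψ]
      exact (Finset.add_sum_erase S _ hα).symm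
  exact elim L (fun α => 1 - w α) ⟨1, hL1⟩ S hvan

lemma torus_zero {P : MvPolynomial (Fin d) ℂ} (hc0 : P.coeff 0 ≠ 0)
    (u : (Fin d →₀ ℕ) → ℂ) (hun : ∀ α, ‖u α‖ = 1)
    (hr1 : ∑ α ∈ P.support.erase 0, ‖P.coeff α‖ / ‖P.coeff 0‖ = 1)
    (hcoef : ∀ α ∈ P.support.erase 0,
      ((‖P.coeff α‖ / ‖P.coeff 0‖ : ℝ) : ℂ) * u α = -(P.coeff α) / P.coeff 0)
    {L : MvPolynomial (Fin d) ℂ →ₗ[ℂ] ℂ} (g : MvPolynomial (Fin d) ℂ)
    (hg : ∃ f, L (g * f) ≠ 0)
    (hann : ∀ α ∈ P.support.erase 0, ∀ f,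
      L (g * ((1 - MvPolynomial.monomial α (u α)) * f)) = 0) :
    ∃ ζ : Fin d → ℂ, (∀ j, ‖ζ j‖ = 1) ∧ MvPolynomial.eval ζ P = 0 := by
  classical
  set S := P.support.erase 0 with hS
  set I : Ideal (MvPolynomial (Fin d) ℂ) :=
    Ideal.span ((fun α => 1 - MvPolynomial.monomial α (u α)) '' (S : Set (Fin d →₀ ℕ))) with hI
  have hI1 : I ≠ ⊤ := by
    intro h
    have h1 : (1 : MvPolynomial (Fin d) ℂ) ∈ I := by
      rw [h]
      trivial
    have key : ∀ x ∈ I, ∀ f, L (g * (x * f)) = 0 := by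
      intro x hx
      induction hx using Submodule.span_induction with
      | mem x hx =>
        obtain ⟨α, hα, rfl⟩ := hx
        exact hann α hα
      | zero => intro f; rw [zero_mul, mul_zero, map_zero]
      | add x y _ _ hx hy => intro f; rw [add_mul, mul_add, map_add, hx, hy, add_zero]
      | smul a x _ hx =>
        intro f
        have e : a • x * f = x * (a * f) := by
          rw [smul_eq_mul]
          ring
        rw [e]
        exact hx _
    obtain ⟨f, hf⟩ := hg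
    apply hf
    have := key 1 h1 f
    rwa [one_mul] at this
  obtain ⟨M, hM, hIM⟩ := Ideal.exists_le_maximal I hI1
  obtain ⟨x, rfl⟩ := MvPolynomial.isMaximal_iff_eq_vanishingIdeal_singleton.mp hM
  have hx : ∀ α ∈ S, u α * ev x α = 1 := by
    intro α hα
    have h1 := hIM (Ideal.subset_span ⟨α, hα, rfl⟩)
    rw [MvPolynomial.mem_vanishingIdeal_singleton_iff] at h1
    simp only [map_sub, map_one, MvPolynomial.aeval_monomial] at h1
    rw [Finsupp.prod_fintype _ _ (fun _ => pow_zero _)] at h1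
    have h2 : (algebraMap ℂ ℂ) (u α) = u α := rfl
    rw [h2] at h1
    rw [ev]
    linear_combination -h1
  set ζ : Fin d → ℂ := fun j => if x j = 0 then 1 else x j / (‖x j‖ : ℂ) with hζd
  have hζ : ∀ j, ‖ζ j‖ = 1 := by
    intro j
    rw [hζd]
    simp only
    split_ifs with h
    · exact norm_one
    · rw [norm_div, Complex.norm_real, norm_norm, div_self (norm_ne_zero_iff.mpr h)]
  have hev : ∀ α ∈ S, u α * ev ζ α = 1 := by
    intro α hα
    have h1 := hx α hα
    have h2 : ev x α ≠ 0 := by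
      intro h
      rw [h, mul_zero] at h1
      exact zero_ne_one h1
    have h3 : ev x α = ev ζ α * ((∏ j, ‖x j‖ ^ α j : ℝ) : ℂ) := by
      rw [ev, ev]
      push_cast
      rw [← Finset.prod_mul_distrib]
      apply Finset.prod_congr rfl
      intro j _
      rw [← mul_pow]
      by_cases hj : α j = 0
      · rw [hj, pow_zero, pow_zero]
      · congr 1
        have h4 : x j ≠ 0 := by
          intro h
          apply h2
          rw [ev]
          apply Finset.prod_eq_zero (mem_univ j)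
          rw [h, zero_pow hj]
        rw [hζd]
        simp only
        rw [if_neg h4, div_mul_cancel₀]
        exact_mod_cast norm_ne_zero_iff.mpr h4
    have h5 : ∏ j, ‖x j‖ ^ α j = 1 := by
      have h6 := congrArg norm h1
      rw [norm_mul, hun, one_mul, norm_one, ev, norm_prod] at h6
      rw [← h6]
      apply Finset.prod_congr rfl
      intro j _
      rw [norm_pow]
    rw [h5, Complex.ofReal_one, mul_one] at h3
    rw [← h3]
    exact h1
  refine ⟨ζ, hζ, ?_⟩
  have hP := supp_split hc0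
  rw [hP, map_add, MvPolynomial.eval_C, map_sum]
  have h7 : ∀ α ∈ S, MvPolynomial.eval ζ (MvPolynomial.monomial α (P.coeff α)) =
      -(P.coeff 0) * ((‖P.coeff α‖ / ‖P.coeff 0‖ : ℝ) : ℂ) := by
    intro α hα
    rw [MvPolynomial.eval_monomial, Finsupp.prod_fintype _ _ (fun _ => pow_zero _)]
    have h8 := hcoef α hα
    have h9 := hev α hα
    rw [ev] at h9
    have h10 : P.coeff α = -(P.coeff 0) * (((‖P.coeff α‖ / ‖P.coeff 0‖ : ℝ) : ℂ) * u α) := by
      rw [h8]
      field_simp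
    calc P.coeff α * ∏ i, ζ i ^ α i
        = -(P.coeff 0) * (((‖P.coeff α‖ / ‖P.coeff 0‖ : ℝ) : ℂ) * u α) * ∏ i, ζ i ^ α i := by
          rw [← h10]
      _ = -(P.coeff 0) * ((‖P.coeff α‖ / ‖P.coeff 0‖ : ℝ) : ℂ) * (u α * ∏ i, ζ i ^ α i) := by
          ring
      _ = _ := by rw [h9, mul_one]
  rw [Finset.sum_congr rfl h7, ← Finset.mul_sum, ← Complex.ofReal_sum, hr1]
  push_cast
  ring

theorem small_cyclic {t : ℝ} {P : MvPolynomial (Fin d) ℂ} (hc0 : P.coeff 0 ≠ 0)
    (hs : ∑ α ∈ P.support.erase 0, ‖P.coeff α‖ / ‖P.coeff 0‖ < 1)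
    {L : MvPolynomial (Fin d) ℂ →ₗ[ℂ] ℂ} (hL : Bdd t L) (hLP : ∀ f, L (P * f) = 0) :
    L 1 = 0 := by
  classical
  set c0 := P.coeff 0 with hc
  have hP := supp_split hc0
  rw [← hc] at hP
  set S := P.support.erase 0 with hS
  have hn0 : 0 < ‖c0‖ := norm_pos_iff.mpr hc0
  obtain ⟨K, hK, hg⟩ := growth hL
  set R := ⌈|t|⌉₊ * d with hR
  set φ : MvPolynomial (Fin d) ℂ := 1 - MvPolynomial.C (1 / c0) * P with hφ
  have hφ2 : φ = ∑ α ∈ S, MvPolynomial.C (-(1 / c0)) * MvPolynomial.monomial α (P.coeff α) := by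
    rw [hφ]
    conv_lhs => rw [hP]
    rw [mul_add, ← map_mul, one_div_mul_cancel hc0, map_one, ← Finset.mul_sum, map_neg]
    ring
  have hφn : n1 φ ≤ ∑ α ∈ S, ‖P.coeff α‖ / ‖c0‖ := by
    rw [hφ2]
    refine (n1_sum _ _).trans ?_
    apply Finset.sum_le_sum
    intro α _
    refine (n1_C_mul _ _).trans (le_of_eq ?_)
    rw [n1_monomial, norm_neg, norm_div, norm_one]
    ring
  set s := max (∑ α ∈ S, ‖P.coeff α‖ / ‖c0‖) (1 / 2) with hsd
  have hs1 : s < 1 := max_lt hs (by norm_num)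
  have hs0 : 0 < s := lt_of_lt_of_le (by norm_num) (le_max_right _ _)
  have hLφ : ∀ f, L (φ * f) = L f := by
    intro f
    have e : φ * f = f - P * (MvPolynomial.C (1 / c0) * f) := by
      rw [hφ]
      ring
    rw [e, map_sub, hLP, sub_zero]
  have hpow : ∀ n f, L (φ ^ n * f) = L f := by
    intro n
    induction n with
    | zero => intro f; rw [pow_zero, one_mul]
    | succ n ih => intro f; rw [pow_succ, mul_assoc, ih, hLφ]
  set E := φ.totalDegree with hE
  have hbound : ∀ n : ℕ, ‖L 1‖ ≤ (K * (1 + (E:ℝ)) ^ R / s) * (((n + 1 : ℕ) : ℝ) ^ R * s ^ (n + 1)) := by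
    intro n
    have h1 := hg (φ ^ n * 1) ((n + 1) * E) (by
      rw [mul_one]
      refine (MvPolynomial.totalDegree_pow _ _).trans ?_
      rw [hE]
      exact Nat.mul_le_mul_right _ (by omega))
    rw [hpow n 1, mul_one] at h1
    refine h1.trans ?_
    have h2 : n1 (φ ^ n) ≤ s ^ n :=
      (n1_pow _ _).trans (pow_le_pow_left₀ (n1_nonneg _) (hφn.trans (le_max_left _ _)) _)
    have h7 : (1 + (((n + 1) * E : ℕ) : ℝ)) ^ R ≤ (((n + 1 : ℕ) : ℝ)) ^ R * (1 + (E:ℝ)) ^ R := by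
      rw [← mul_pow]
      apply pow_le_pow_left₀ (by positivity)
      push_cast
      have : (0:ℝ) ≤ n := Nat.cast_nonneg _
      nlinarith
    calc n1 (φ ^ n) * (K * (1 + (((n + 1) * E : ℕ) : ℝ)) ^ R)
        ≤ s ^ n * (K * ((((n + 1 : ℕ) : ℝ)) ^ R * (1 + (E:ℝ)) ^ R)) := by
          apply mul_le_mul h2 (mul_le_mul_of_nonneg_left h7 hK) (by positivity) (by positivity)
      _ = _ := by
          rw [pow_succ s]
          field_simp
  have hlim := tendsto_pow_const_mul_const_pow_of_abs_lt_one R (r := s)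
    (by rw [abs_of_pos hs0]; exact hs1)
  have hlim1 := (tendsto_add_atTop_iff_nat 1).mpr hlim
  have hlim2 := hlim1.const_mul (K * (1 + (E:ℝ)) ^ R / s)
  rw [mul_zero] at hlim2
  have := ge_of_tendsto' hlim2 hbound
  exact norm_le_zero_iff.mp this

theorem no_zero_cyclic {t : ℝ} {P : MvPolynomial (Fin d) ℂ} (hc0 : P.coeff 0 ≠ 0)
    (hdom : ∑ α ∈ P.support.erase 0, ‖P.coeff α‖ ≤ ‖P.coeff 0‖)
    (hnz : ∀ ζ : Fin d → ℂ, (∀ j, ‖ζ j‖ = 1) → MvPolynomial.eval ζ P ≠ 0) : Approx t P 1 := by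
  classical
  by_contra happ
  obtain ⟨L, hL, hL1, hLP⟩ := not_approx_dual happ
  have hn0 : 0 < ‖P.coeff 0‖ := norm_pos_iff.mpr hc0
  have hle : ∑ α ∈ P.support.erase 0, ‖P.coeff α‖ / ‖P.coeff 0‖ ≤ 1 := by
    rw [← Finset.sum_div, div_le_one hn0]
    exact hdom
  rcases hle.lt_or_eq with hlt | heq
  · exact hL1 (small_cyclic hc0 hlt hL hLP)
  · set u : (Fin d →₀ ℕ) → ℂ := fun α =>
      if P.coeff α = 0 then 1 else -(P.coeff α) / P.coeff 0 /
        ((‖P.coeff α‖ / ‖P.coeff 0‖ : ℝ) : ℂ) with hu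
    have hun : ∀ α, ‖u α‖ = 1 := by
      intro α
      rw [hu]
      simp only
      split_ifs with h
      · exact norm_one
      · have h1 : 0 < ‖P.coeff α‖ := norm_pos_iff.mpr h
        rw [norm_div, norm_div, norm_neg, Complex.norm_real,
          Real.norm_of_nonneg (by positivity), div_self (by positivity)]
    have hcoef : ∀ α ∈ P.support.erase 0,
        ((‖P.coeff α‖ / ‖P.coeff 0‖ : ℝ) : ℂ) * u α = -(P.coeff α) / P.coeff 0 := by
      intro α hα
      have h : P.coeff α ≠ 0 := MvPolynomial.mem_support_iff.mp (Finset.mem_of_mem_erase hα)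
      rw [hu]
      simp only
      rw [if_neg h, mul_div_cancel₀]
      have h1 : 0 < ‖P.coeff α‖ := norm_pos_iff.mpr h
      exact_mod_cast (by positivity : ‖P.coeff α‖ / ‖P.coeff 0‖ ≠ 0)
    obtain ⟨g, hg1, hg2⟩ := core hc0 u hun heq hcoef hL hL1 hLP
    obtain ⟨ζ, hζ, h0⟩ := torus_zero hc0 u hun heq hcoef g hg1 hg2
    exact hnz ζ hζ h0

theorem dom_crit {t : ℝ} {P : MvPolynomial (Fin d) ℂ} (hc0 : P.coeff 0 ≠ 0)
    (hdom : ∑ α ∈ P.support.erase 0, ‖P.coeff α‖ ≤ ‖P.coeff 0‖) :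
    ShiftCyclic t (P : MvPowerSeries (Fin d) ℂ) ↔
      (∀ ζ : Fin d → ℂ, (∀ j, ‖ζ j‖ = 1) → MvPolynomial.eval ζ P ≠ 0) ∨
        ¬ Summable (latTerm t P) := by
  constructor
  · intro h
    by_contra hne
    push Not at hne
    obtain ⟨⟨ζ, hζ, h0⟩, hs⟩ := hne
    exact dom_nec hζ h0 hs h
  · intro h
    apply cyclic_of_approx
    by_cases hz : ∀ ζ : Fin d → ℂ, (∀ j, ‖ζ j‖ = 1) → MvPolynomial.eval ζ P ≠ 0
    · exact no_zero_cyclic hc0 hdom hz
    · push Not at hz
      obtain ⟨ζ, hζ, h0⟩ := hz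
      rcases h with h | h
      · exact absurd h0 (h ζ hζ)
      · exact dom_suff hc0 hdom hζ h0 h

end Pool.Agent.H650R3.Cyc
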