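import Mathlib

set_option autoImplicit false

/-! One-variable estimates for zero-free polynomials (helper file). -/

namespace Pool.Agent.H650R3.Cyc
open Finset

/-- uniform bound for the sums of absolute values -/
def WB (b : ℕ → ℂ) (A : ℝ) : Prop := ∀ M : ℕ, ∑ n ∈ range M, ‖b n‖ ≤ A
/-- uniform bound for the Dirichlet type sums -/
def DB (b : ℕ → ℂ) (B : ℝ) : Prop := ∀ M : ℕ, ∑ n ∈ range M, (1 + (n:ℝ)) * ‖b n‖ ^ 2 ≤ B

lemma conv_le (a c : ℕ → ℝ) (ha : ∀ i, 0 ≤ a i) (hc : ∀ i, 0 ≤ c i) (M : ℕ) :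
    ∑ n ∈ range M, ∑ p ∈ antidiagonal n, a p.1 * c p.2 ≤
      (∑ i ∈ range M, a i) * ∑ j ∈ range M, c j := by
  rw [← Finset.sum_biUnion]
  · rw [Finset.sum_mul_sum, ← Finset.sum_product']
    apply Finset.sum_le_sum_of_subset_of_nonneg
    · intro p hp
      simp only [mem_biUnion, mem_range, HasAntidiagonal.mem_antidiagonal] at hp
      obtain ⟨n, hn, hpn⟩ := hp
      simp only [mem_product, mem_range]
      constructor <;> omega
    · intro p _ _
      exact mul_nonneg (ha _) (hc _)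
  · intro i _ j _ hij
    simp only [Function.onFun]
    rw [Finset.disjoint_left]
    intro p hp hq
    rw [HasAntidiagonal.mem_antidiagonal] at hp hq
    exact hij (hp.symm.trans hq)

lemma sum_snd (γ : ℕ → ℝ) (n : ℕ) : ∑ p ∈ antidiagonal n, γ p.2 = ∑ k ∈ range (n + 1), γ k := by
  rw [← Finset.Nat.sum_antidiagonal_swap]
  simp only [Prod.snd_swap]
  rw [Finset.Nat.sum_antidiagonal_eq_sum_range_succ (fun i _ => γ i)]

lemma young (β γ : ℕ → ℝ) (hβ : ∀ i, 0 ≤ β i) (hγ : ∀ i, 0 ≤ γ i) (Γ B : ℝ)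
    (hΓ : ∀ M, ∑ j ∈ range M, γ j ≤ Γ) (hB : ∀ M, ∑ j ∈ range M, β j ^ 2 ≤ B) (M : ℕ) :
    ∑ n ∈ range M, (∑ p ∈ antidiagonal n, β p.1 * γ p.2) ^ 2 ≤ Γ ^ 2 * B := by
  have hΓ0 : 0 ≤ Γ := by simpa using hΓ 0
  have hB0 : 0 ≤ B := by simpa using hB 0
  have h1 : ∀ n ∈ range M, (∑ p ∈ antidiagonal n, β p.1 * γ p.2) ^ 2 ≤
      Γ * ∑ p ∈ antidiagonal n, β p.1 ^ 2 * γ p.2 := by
    intro n _
    have e : ∑ p ∈ antidiagonal n, β p.1 * γ p.2 =
        ∑ p ∈ antidiagonal n, (β p.1 * Real.sqrt (γ p.2)) * Real.sqrt (γ p.2) := by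
      apply Finset.sum_congr rfl
      intro p _
      rw [mul_assoc, Real.mul_self_sqrt (hγ _)]
    rw [e]
    refine (Finset.sum_mul_sq_le_sq_mul_sq _ _ _).trans ?_
    have e1 : ∑ p ∈ antidiagonal n, (β p.1 * Real.sqrt (γ p.2)) ^ 2 =
        ∑ p ∈ antidiagonal n, β p.1 ^ 2 * γ p.2 := by
      apply Finset.sum_congr rfl
      intro p _
      rw [mul_pow, Real.sq_sqrt (hγ _)]
    have e2 : ∑ p ∈ antidiagonal n, Real.sqrt (γ p.2) ^ 2 = ∑ k ∈ range (n + 1), γ k := by
      rw [← sum_snd]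
      apply Finset.sum_congr rfl
      intro p _
      rw [Real.sq_sqrt (hγ _)]
    rw [e1, e2, mul_comm]
    apply mul_le_mul_of_nonneg_right (hΓ _)
    exact Finset.sum_nonneg fun p _ => mul_nonneg (sq_nonneg _) (hγ _)
  calc ∑ n ∈ range M, (∑ p ∈ antidiagonal n, β p.1 * γ p.2) ^ 2
      ≤ ∑ n ∈ range M, Γ * ∑ p ∈ antidiagonal n, β p.1 ^ 2 * γ p.2 := Finset.sum_le_sum h1
    _ = Γ * ∑ n ∈ range M, ∑ p ∈ antidiagonal n, β p.1 ^ 2 * γ p.2 := by rw [Finset.mul_sum]
    _ ≤ Γ * ((∑ i ∈ range M, β i ^ 2) * ∑ j ∈ range M, γ j) :=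
        mul_le_mul_of_nonneg_left (conv_le (fun i => β i ^ 2) γ (fun _ => sq_nonneg _) hγ M) hΓ0
    _ ≤ Γ * (B * Γ) := by
        apply mul_le_mul_of_nonneg_left _ hΓ0
        exact mul_le_mul (hB M) (hΓ M) (Finset.sum_nonneg fun _ _ => hγ _) hB0
    _ = Γ ^ 2 * B := by ring

lemma sqrt_add_le (i j : ℕ) : Real.sqrt (1 + ((i + j : ℕ) : ℝ)) ≤
    Real.sqrt (1 + (i:ℝ)) + Real.sqrt (1 + (j:ℝ)) := by
  apply Real.sqrt_le_iff.mpr
  constructor
  · positivity
  · have h1 : Real.sqrt (1 + (i:ℝ)) ^ 2 = 1 + i := Real.sq_sqrt (by positivity)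
    have h2 : Real.sqrt (1 + (j:ℝ)) ^ 2 = 1 + j := Real.sq_sqrt (by positivity)
    have h3 : 0 ≤ Real.sqrt (1 + (i:ℝ)) * Real.sqrt (1 + (j:ℝ)) := by positivity
    push_cast
    nlinarith

lemma WB_mul {f g : PowerSeries ℂ} {A A' : ℝ} (hf : WB (fun n => PowerSeries.coeff n f) A)
    (hg : WB (fun n => PowerSeries.coeff n g) A') :
    WB (fun n => PowerSeries.coeff n (f * g)) (A * A') := by
  intro M
  have hA : 0 ≤ A := by simpa using hf 0
  calc ∑ n ∈ range M, ‖PowerSeries.coeff n (f * g)‖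
      ≤ ∑ n ∈ range M, ∑ p ∈ antidiagonal n,
          ‖PowerSeries.coeff p.1 f‖ * ‖PowerSeries.coeff p.2 g‖ := by
        apply Finset.sum_le_sum
        intro n _
        rw [PowerSeries.coeff_mul]
        refine (norm_sum_le _ _).trans (le_of_eq ?_)
        apply Finset.sum_congr rfl
        intro p _
        rw [norm_mul]
    _ ≤ _ := conv_le (fun i => ‖PowerSeries.coeff i f‖) (fun i => ‖PowerSeries.coeff i g‖)
        (fun _ => norm_nonneg _) (fun _ => norm_nonneg _) M
    _ ≤ A * A' := mul_le_mul (hf M) (hg M) (Finset.sum_nonneg fun _ _ => norm_nonneg _) hA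

lemma DB_mul {f g : PowerSeries ℂ} {A A' B B' : ℝ} (hf : WB (fun n => PowerSeries.coeff n f) A)
    (hg : WB (fun n => PowerSeries.coeff n g) A')
    (hf2 : DB (fun n => PowerSeries.coeff n f) B)
    (hg2 : DB (fun n => PowerSeries.coeff n g) B') :
    DB (fun n => PowerSeries.coeff n (f * g)) (2 * (A' ^ 2 * B + A ^ 2 * B')) := by
  intro M
  set a : ℕ → ℝ := fun i => ‖PowerSeries.coeff i f‖ with ha
  set c : ℕ → ℝ := fun i => ‖PowerSeries.coeff i g‖ with hc
  have ha0 : ∀ i, 0 ≤ a i := fun _ => norm_nonneg _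
  have hc0 : ∀ i, 0 ≤ c i := fun _ => norm_nonneg _
  set x : ℕ → ℝ := fun n => ∑ p ∈ antidiagonal n, (Real.sqrt (1 + (p.1:ℝ)) * a p.1) * c p.2 with hx
  set y : ℕ → ℝ := fun n => ∑ p ∈ antidiagonal n, (Real.sqrt (1 + (p.1:ℝ)) * c p.1) * a p.2 with hy
  have key : ∀ n : ℕ, (1 + (n:ℝ)) * ‖PowerSeries.coeff n (f * g)‖ ^ 2 ≤ 2 * x n ^ 2 + 2 * y n ^ 2 := by
    intro n
    have h1 : Real.sqrt (1 + (n:ℝ)) * ‖PowerSeries.coeff n (f * g)‖ ≤ x n + y n := by
      have h2 : ‖PowerSeries.coeff n (f * g)‖ ≤ ∑ p ∈ antidiagonal n, a p.1 * c p.2 := by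
        rw [PowerSeries.coeff_mul]
        refine (norm_sum_le _ _).trans (le_of_eq ?_)
        apply Finset.sum_congr rfl
        intro p _
        rw [norm_mul]
      have h3 : y n = ∑ p ∈ antidiagonal n, (Real.sqrt (1 + (p.2:ℝ)) * c p.2) * a p.1 := by
        rw [hy]
        simp only
        rw [← Finset.Nat.sum_antidiagonal_swap]
        rfl
      rw [h3, hx]
      simp only
      rw [← Finset.sum_add_distrib]
      calc Real.sqrt (1 + (n:ℝ)) * ‖PowerSeries.coeff n (f * g)‖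
          ≤ Real.sqrt (1 + (n:ℝ)) * ∑ p ∈ antidiagonal n, a p.1 * c p.2 :=
            mul_le_mul_of_nonneg_left h2 (Real.sqrt_nonneg _)
        _ = ∑ p ∈ antidiagonal n, Real.sqrt (1 + (n:ℝ)) * (a p.1 * c p.2) := by rw [Finset.mul_sum]
        _ ≤ _ := by
            apply Finset.sum_le_sum
            intro p hp
            rw [HasAntidiagonal.mem_antidiagonal] at hp
            have h4 := sqrt_add_le p.1 p.2
            rw [hp] at h4
            have h5 : 0 ≤ a p.1 * c p.2 := mul_nonneg (ha0 _) (hc0 _)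
            nlinarith [mul_le_mul_of_nonneg_right h4 h5]
    have h6 : (1 + (n:ℝ)) * ‖PowerSeries.coeff n (f * g)‖ ^ 2 =
        (Real.sqrt (1 + (n:ℝ)) * ‖PowerSeries.coeff n (f * g)‖) ^ 2 := by
      rw [mul_pow, Real.sq_sqrt (by positivity)]
    rw [h6]
    have h7 : 0 ≤ Real.sqrt (1 + (n:ℝ)) * ‖PowerSeries.coeff n (f * g)‖ := by positivity
    nlinarith [sq_nonneg (x n - y n)]
  have hsqa : ∀ M, ∑ j ∈ range M, (Real.sqrt (1 + (j:ℝ)) * a j) ^ 2 ≤ B := by
    intro M
    refine le_trans (le_of_eq ?_) (hf2 M)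
    apply Finset.sum_congr rfl
    intro j _
    rw [mul_pow, Real.sq_sqrt (by positivity)]
  have hsqc : ∀ M, ∑ j ∈ range M, (Real.sqrt (1 + (j:ℝ)) * c j) ^ 2 ≤ B' := by
    intro M
    refine le_trans (le_of_eq ?_) (hg2 M)
    apply Finset.sum_congr rfl
    intro j _
    rw [mul_pow, Real.sq_sqrt (by positivity)]
  have h8 := young (fun j => Real.sqrt (1 + (j:ℝ)) * a j) c
    (fun j => mul_nonneg (Real.sqrt_nonneg _) (ha0 j)) hc0 A' B hg hsqa M
  have h9 := young (fun j => Real.sqrt (1 + (j:ℝ)) * c j) a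
    (fun j => mul_nonneg (Real.sqrt_nonneg _) (hc0 j)) ha0 A B' hf hsqc M
  calc ∑ n ∈ range M, (1 + (n:ℝ)) * ‖PowerSeries.coeff n (f * g)‖ ^ 2
      ≤ ∑ n ∈ range M, (2 * x n ^ 2 + 2 * y n ^ 2) := Finset.sum_le_sum fun n _ => key n
    _ = 2 * ∑ n ∈ range M, x n ^ 2 + 2 * ∑ n ∈ range M, y n ^ 2 := by
        rw [Finset.sum_add_distrib, Finset.mul_sum, Finset.mul_sum]
    _ ≤ 2 * (A' ^ 2 * B + A ^ 2 * B') := by
        have h8' : ∑ n ∈ range M, x n ^ 2 ≤ A' ^ 2 * B := h8
        have h9' : ∑ n ∈ range M, y n ^ 2 ≤ A ^ 2 * B' := h9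
        linarith

/-- the power series of `(1 - u X) / (1 - r u X)` -/
noncomputable def phi (r : ℝ) (u : ℂ) : PowerSeries ℂ :=
  PowerSeries.mk fun n => if n = 0 then 1 else -((1 - r : ℝ) : ℂ) * (r : ℂ) ^ (n - 1) * u ^ n

lemma phi_mul (r : ℝ) (u : ℂ) :
    phi r u * (1 - PowerSeries.C ((r : ℂ) * u) * PowerSeries.X) =
      1 - PowerSeries.C u * PowerSeries.X := by
  ext n
  rw [mul_sub, mul_one, map_sub, map_sub]
  have e : phi r u * (PowerSeries.C ((r : ℂ) * u) * PowerSeries.X) =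
      PowerSeries.C ((r : ℂ) * u) * (phi r u * PowerSeries.X) := by ring
  rw [e]
  rcases n with _ | n
  · simp [phi]
  · rw [PowerSeries.coeff_C_mul, PowerSeries.coeff_succ_mul_X, PowerSeries.coeff_C_mul]
    rw [PowerSeries.coeff_one, PowerSeries.coeff_X]
    rcases n with _ | n
    · simp [phi]
      ring
    · simp [phi]
      ring

lemma phi_norm (r : ℝ) (hr : 0 ≤ r) (hr1 : r < 1) (u : ℂ) (hu : ‖u‖ ≤ 1) (n : ℕ) :
    ‖PowerSeries.coeff (n + 1) (phi r u)‖ ≤ (1 - r) * r ^ n := by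
  simp only [phi, PowerSeries.coeff_mk, Nat.add_sub_cancel, if_neg (Nat.succ_ne_zero n)]
  rw [norm_mul, norm_mul, norm_neg, Complex.norm_real, norm_pow, norm_pow, Complex.norm_real,
    Real.norm_of_nonneg (by linarith), Real.norm_of_nonneg hr]
  have h1 : ‖u‖ ^ (n + 1) ≤ 1 := pow_le_one₀ (norm_nonneg _) hu
  have h2 : 0 ≤ (1 - r) * r ^ n := mul_nonneg (by linarith) (pow_nonneg hr _)
  calc (1 - r) * r ^ n * ‖u‖ ^ (n + 1) ≤ (1 - r) * r ^ n * 1 := mul_le_mul_of_nonneg_left h1 h2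
    _ = _ := mul_one _

lemma phi_zero (r : ℝ) (u : ℂ) : PowerSeries.coeff 0 (phi r u) = 1 := by simp [phi]

lemma phi_WB (r : ℝ) (hr : 0 ≤ r) (hr1 : r < 1) (u : ℂ) (hu : ‖u‖ ≤ 1) :
    WB (fun n => PowerSeries.coeff n (phi r u)) 2 := by
  intro M
  rcases M with _ | M
  · simp
  · rw [Finset.sum_range_succ']
    simp only [phi_zero, norm_one]
    have h1 : ∑ k ∈ range M, ‖PowerSeries.coeff (k + 1) (phi r u)‖ ≤
        ∑ k ∈ range M, (1 - r) * r ^ k := Finset.sum_le_sum fun k _ => phi_norm r hr hr1 u hu k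
    have h2 : ∑ k ∈ range M, (1 - r) * r ^ k ≤ 1 := by
      rw [← Finset.mul_sum, mul_neg_geom_sum]
      have := pow_nonneg hr M
      linarith
    linarith

lemma geom_two (x : ℝ) (M : ℕ) : (1 - x) ^ 2 * ∑ m ∈ range M, ((m:ℝ) + 1) * x ^ m =
    1 - (M + 1) * x ^ M + M * x ^ (M + 1) := by
  induction M with
  | zero => simp
  | succ M ih =>
    rw [Finset.sum_range_succ, mul_add, ih]
    push_cast
    ring

lemma phi_DB (r : ℝ) (hr : 0 ≤ r) (hr1 : r < 1) (u : ℂ) (hu : ‖u‖ ≤ 1) :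
    DB (fun n => PowerSeries.coeff n (phi r u)) 3 := by
  intro M
  rcases M with _ | M
  · simp
  · rw [Finset.sum_range_succ']
    simp only [phi_zero, norm_one]
    have h1 : ∑ k ∈ range M, (1 + ((k + 1 : ℕ):ℝ)) * ‖PowerSeries.coeff (k + 1) (phi r u)‖ ^ 2 ≤
        ∑ k ∈ range M, 2 * ((1 - r) ^ 2 * (((k:ℝ) + 1) * (r ^ 2) ^ k)) := by
      apply Finset.sum_le_sum
      intro k _
      have h2 := phi_norm r hr hr1 u hu k
      have h3 : ‖PowerSeries.coeff (k + 1) (phi r u)‖ ^ 2 ≤ ((1 - r) * r ^ k) ^ 2 :=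
        pow_le_pow_left₀ (norm_nonneg _) h2 2
      have h4 : ((1 - r) * r ^ k) ^ 2 = (1 - r) ^ 2 * (r ^ 2) ^ k := by ring
      rw [h4] at h3
      have h5 : (1 + ((k + 1 : ℕ):ℝ)) ≤ 2 * ((k:ℝ) + 1) := by push_cast; linarith [Nat.cast_nonneg (α := ℝ) k]
      have h6 : 0 ≤ (1 - r) ^ 2 * (r ^ 2) ^ k := by positivity
      calc (1 + ((k + 1 : ℕ):ℝ)) * ‖PowerSeries.coeff (k + 1) (phi r u)‖ ^ 2
          ≤ (2 * ((k:ℝ) + 1)) * ((1 - r) ^ 2 * (r ^ 2) ^ k) := by
            apply mul_le_mul h5 h3 (sq_nonneg _) (by positivity)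
        _ = _ := by ring
    rw [← Finset.mul_sum, ← Finset.mul_sum] at h1
    have h7 := geom_two (r ^ 2) M
    have h8 : (M:ℝ) * (r ^ 2) ^ (M + 1) ≤ (M + 1) * (r ^ 2) ^ M := by
      have h9 : (r ^ 2) ^ (M + 1) ≤ (r ^ 2) ^ M :=
        pow_le_pow_of_le_one (by positivity) (by nlinarith) (Nat.le_succ M)
      have h10 : 0 ≤ (r ^ 2) ^ M := by positivity
      nlinarith [Nat.cast_nonneg (α := ℝ) M]
    set S := ∑ m ∈ range M, ((m:ℝ) + 1) * (r ^ 2) ^ m with hS
    have hS0 : 0 ≤ S := Finset.sum_nonneg fun m _ => by positivity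
    have h11 : (1 - r) ^ 2 * S ≤ (1 - r ^ 2) ^ 2 * S := by
      apply mul_le_mul_of_nonneg_right _ hS0
      have : 1 - r ≤ 1 - r ^ 2 := by nlinarith
      nlinarith
    have e : (1 + ((0:ℕ):ℝ)) * (1:ℝ) ^ 2 = 1 := by norm_num
    rw [e]
    linarith

/-- the constants -/
noncomputable def Kc : ℕ → ℝ
  | 0 => 1
  | n + 1 => 2 * ((2 ^ n) ^ 2 * 3 + 2 ^ 2 * Kc n)

lemma Kc_pos (n : ℕ) : 0 < Kc n := by
  induction n with
  | zero => simp [Kc]
  | succ n ih => rw [Kc]; positivity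

lemma Kc_mono : Monotone Kc := by
  apply monotone_nat_of_le_succ
  intro n
  rw [Kc]
  have := Kc_pos n
  have : (0:ℝ) ≤ (2 ^ n) ^ 2 * 3 := by positivity
  linarith

lemma prod_bounds (r : ℝ) (hr : 0 ≤ r) (hr1 : r < 1) (l : List ℂ) (hl : ∀ u ∈ l, ‖u‖ ≤ 1) :
    WB (fun n => PowerSeries.coeff n ((l.map (phi r)).prod)) (2 ^ l.length) ∧
      DB (fun n => PowerSeries.coeff n ((l.map (phi r)).prod)) (Kc l.length) := by
  induction l with
  | nil =>
    constructor
    · intro M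
      rcases M with _ | M
      · simp
      · rw [Finset.sum_range_succ']
        simp [PowerSeries.coeff_one]
    · intro M
      rcases M with _ | M
      · simp [Kc]
      · rw [Finset.sum_range_succ']
        simp [PowerSeries.coeff_one, Kc]
  | cons u l ih =>
    obtain ⟨h1, h2⟩ := ih fun v hv => hl v (List.mem_cons_of_mem _ hv)
    have hu := hl u List.mem_cons_self
    rw [List.map_cons, List.prod_cons, List.length_cons]
    constructor
    · have := WB_mul (phi_WB r hr hr1 u hu) h1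
      rwa [pow_succ, mul_comm ((2:ℝ) ^ l.length)]
    · exact DB_mul (phi_WB r hr hr1 u hu) h1 (phi_DB r hr hr1 u hu) h2

lemma factor (N : ℕ) : ∀ p : Polynomial ℂ, p.natDegree ≤ N → (∀ z : ℂ, ‖z‖ < 1 → p.eval z ≠ 0) →
    ∃ l : List ℂ, l.length ≤ N ∧ (∀ u ∈ l, ‖u‖ ≤ 1) ∧
      p = Polynomial.C (p.coeff 0) * (l.map fun u => 1 - Polynomial.C u * Polynomial.X).prod := by
  induction N with
  | zero =>
    intro p hp _
    refine ⟨[], le_rfl, by simp, ?_⟩
    simpa using Polynomial.eq_C_of_natDegree_le_zero hp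
  | succ N ih =>
    intro p hp hz
    by_cases h0 : p.natDegree = 0
    · refine ⟨[], by simp, by simp, ?_⟩
      simpa using Polynomial.eq_C_of_natDegree_eq_zero h0
    · have hdeg : p.degree ≠ 0 := by
        intro h
        exact h0 (Polynomial.natDegree_eq_of_degree_eq_some h)
      obtain ⟨a, ha⟩ := IsAlgClosed.exists_root p hdeg
      obtain ⟨q, hq⟩ := Polynomial.dvd_iff_isRoot.mpr ha
      have ha1 : 1 ≤ ‖a‖ := by
        by_contra h
        exact hz a (not_le.mp h) ha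
      have hp0 : p ≠ 0 := by
        rintro rfl
        exact h0 (by simp)
      have hq0 : q ≠ 0 := by
        rintro rfl
        exact hp0 (by simpa using hq)
      have hdq : q.natDegree ≤ N := by
        have := Polynomial.natDegree_mul (Polynomial.X_sub_C_ne_zero a) hq0
        rw [← hq, Polynomial.natDegree_X_sub_C] at this
        omega
      have hqz : ∀ z : ℂ, ‖z‖ < 1 → q.eval z ≠ 0 := by
        intro z hz1 h
        apply hz z hz1
        rw [hq, Polynomial.eval_mul, h, mul_zero]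
      obtain ⟨l, hl1, hl2, hl3⟩ := ih q hdq hqz
      have ha0 : a ≠ 0 := by
        rintro rfl
        simp at ha1
        linarith
      refine ⟨a⁻¹ :: l, by simp [hl1], ?_, ?_⟩
      · intro u hu
        rcases List.mem_cons.mp hu with rfl | hu
        · rw [norm_inv]
          exact inv_le_one_of_one_le₀ ha1
        · exact hl2 u hu
      · have e0 : p.coeff 0 = -a * q.coeff 0 := by
          rw [hq, Polynomial.mul_coeff_zero]
          simp
        rw [e0, List.map_cons, List.prod_cons]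
        have e1 : (Polynomial.X - Polynomial.C a : Polynomial ℂ) =
            Polynomial.C (-a) * (1 - Polynomial.C a⁻¹ * Polynomial.X) := by
          have : Polynomial.C (-a) * (1 - Polynomial.C a⁻¹ * Polynomial.X) =
              - Polynomial.C a + Polynomial.C (a * a⁻¹) * Polynomial.X := by
            rw [Polynomial.C_mul, Polynomial.C_neg]
            ring
          rw [this, mul_inv_cancel₀ ha0]
          simp
          ring
        rw [Polynomial.C_mul]
        calc p = (Polynomial.X - Polynomial.C a) * q := hq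
          _ = (Polynomial.C (-a) * (1 - Polynomial.C a⁻¹ * Polynomial.X)) *
              (Polynomial.C (q.coeff 0) *
                (l.map fun u => 1 - Polynomial.C u * Polynomial.X).prod) := by rw [← e1, ← hl3]
          _ = _ := by ring

lemma coe_list (l : List ℂ) :
    (((l.map fun u => 1 - Polynomial.C u * Polynomial.X).prod : Polynomial ℂ) : PowerSeries ℂ) =
      (l.map fun u => 1 - PowerSeries.C u * PowerSeries.X).prod := by
  induction l with
  | nil => simp
  | cons u l ih =>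
    rw [List.map_cons, List.prod_cons, List.map_cons, List.prod_cons, Polynomial.coe_mul, ih]
    congr 1
    rw [Polynomial.coe_sub, Polynomial.coe_one, Polynomial.coe_mul, Polynomial.coe_C,
      Polynomial.coe_X]

lemma rescale_list (r : ℂ) (l : List ℂ) :
    PowerSeries.rescale r (l.map fun u => 1 - PowerSeries.C u * PowerSeries.X).prod =
      (l.map fun u => 1 - PowerSeries.C (r * u) * PowerSeries.X).prod := by
  induction l with
  | nil => simp
  | cons u l ih =>
    rw [List.map_cons, List.prod_cons, List.map_cons, List.prod_cons, map_mul, ih]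
    congr 1
    ext n
    rw [PowerSeries.coeff_rescale, map_sub, map_sub, PowerSeries.coeff_C_mul,
      PowerSeries.coeff_C_mul, PowerSeries.coeff_one, PowerSeries.coeff_X]
    rcases n with _ | n
    · simp
    · rcases n with _ | n
      · simp
      · simp

lemma phi_list (r : ℝ) (l : List ℂ) :
    (l.map (phi r)).prod * (l.map fun u => 1 - PowerSeries.C ((r:ℂ) * u) * PowerSeries.X).prod =
      (l.map fun u => 1 - PowerSeries.C u * PowerSeries.X).prod := by
  induction l with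
  | nil => simp
  | cons u l ih =>
    simp only [List.map_cons, List.prod_cons]
    rw [mul_mul_mul_comm, phi_mul, ih]

lemma list_ne_zero (r : ℂ) (l : List ℂ) :
    (l.map fun u => 1 - PowerSeries.C (r * u) * PowerSeries.X).prod ≠ 0 := by
  intro h
  rw [List.prod_eq_zero_iff] at h
  simp only [List.mem_map] at h
  obtain ⟨u, _, hu⟩ := h
  have := congrArg (PowerSeries.coeff 0) hu
  simp at this

theorem one_var_quot (N : ℕ) (p : Polynomial ℂ) (hN : p.natDegree ≤ N)
    (hz : ∀ z : ℂ, ‖z‖ < 1 → p.eval z ≠ 0) (r : ℝ) (hr : 0 ≤ r) (hr1 : r < 1)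
    (g : PowerSeries ℂ)
    (hg : g * PowerSeries.rescale (r:ℂ) (p : PowerSeries ℂ) = (p : PowerSeries ℂ)) :
    DB (fun n => PowerSeries.coeff n g) (Kc N) := by
  obtain ⟨l, hl1, hl2, hl3⟩ := factor N p hN hz
  have hp0 : p.coeff 0 ≠ 0 := by
    have := hz 0 (by simp)
    rwa [← Polynomial.coeff_zero_eq_eval_zero] at this
  have e1 : (p : PowerSeries ℂ) = PowerSeries.C (p.coeff 0) *
      (l.map fun u => 1 - PowerSeries.C u * PowerSeries.X).prod := by
    conv_lhs => rw [hl3]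
    rw [Polynomial.coe_mul, coe_list, Polynomial.coe_C]
  have e2 : PowerSeries.rescale (r:ℂ) (p : PowerSeries ℂ) = PowerSeries.C (p.coeff 0) *
      (l.map fun u => 1 - PowerSeries.C ((r:ℂ) * u) * PowerSeries.X).prod := by
    rw [e1, map_mul, rescale_list]
    congr 1
    ext n
    rw [PowerSeries.coeff_rescale, PowerSeries.coeff_C]
    rcases n with _ | n <;> simp
  have hne : PowerSeries.rescale (r:ℂ) (p : PowerSeries ℂ) ≠ 0 := by
    rw [e2]
    apply mul_ne_zero _ (list_ne_zero _ l)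
    intro h
    apply hp0
    have := congrArg (PowerSeries.coeff 0) h
    simpa using this
  have e3 : (l.map (phi r)).prod * PowerSeries.rescale (r:ℂ) (p : PowerSeries ℂ) =
      (p : PowerSeries ℂ) := by
    rw [e2, e1, mul_left_comm, phi_list]
  have e4 : g = (l.map (phi r)).prod := mul_right_cancel₀ hne (hg.trans e3.symm)
  intro M
  rw [e4]
  exact ((prod_bounds r hr hr1 l hl2).2 M).trans (Kc_mono hl1)

/-- geometric series -/
noncomputable def geo (u : ℂ) : PowerSeries ℂ := PowerSeries.mk fun n => u ^ n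

lemma geo_mul (u : ℂ) : geo u * (1 - PowerSeries.C u * PowerSeries.X) = 1 := by
  ext n
  rw [mul_sub, mul_one, map_sub]
  have e : geo u * (PowerSeries.C u * PowerSeries.X) =
      PowerSeries.C u * (geo u * PowerSeries.X) := by ring
  rw [e, PowerSeries.coeff_C_mul]
  rcases n with _ | n
  · simp [geo]
  · rw [PowerSeries.coeff_succ_mul_X]
    simp [geo, pow_succ, PowerSeries.coeff_one]
    ring

lemma geo_list (l : List ℂ) :
    (l.map geo).prod * (l.map fun u => 1 - PowerSeries.C u * PowerSeries.X).prod = 1 := by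
  induction l with
  | nil => simp
  | cons u l ih =>
    simp only [List.map_cons, List.prod_cons]
    rw [mul_mul_mul_comm, geo_mul, ih, one_mul]

lemma geo_bound (l : List ℂ) (hl : ∀ u ∈ l, ‖u‖ ≤ 1) (n : ℕ) :
    ‖PowerSeries.coeff n ((l.map geo).prod)‖ ≤ ((n:ℝ) + 1) ^ l.length := by
  induction l generalizing n with
  | nil =>
    simp [PowerSeries.coeff_one]
    split_ifs <;> simp
  | cons u l ih =>
    rw [List.map_cons, List.prod_cons, PowerSeries.coeff_mul, List.length_cons]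
    have hu := hl u List.mem_cons_self
    calc ‖∑ p ∈ antidiagonal n, PowerSeries.coeff p.1 (geo u) *
          PowerSeries.coeff p.2 ((l.map geo).prod)‖
        ≤ ∑ p ∈ antidiagonal n, ‖PowerSeries.coeff p.1 (geo u) *
          PowerSeries.coeff p.2 ((l.map geo).prod)‖ := norm_sum_le _ _
      _ ≤ ∑ p ∈ antidiagonal n, ((n:ℝ) + 1) ^ l.length := by
          apply Finset.sum_le_sum
          intro p hp
          rw [HasAntidiagonal.mem_antidiagonal] at hp
          rw [norm_mul]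
          have h1 : ‖PowerSeries.coeff p.1 (geo u)‖ ≤ 1 := by
            simp only [geo, PowerSeries.coeff_mk, norm_pow]
            exact pow_le_one₀ (norm_nonneg _) hu
          have h2 := ih (fun v hv => hl v (List.mem_cons_of_mem _ hv)) p.2
          have h3 : ((p.2:ℝ) + 1) ^ l.length ≤ ((n:ℝ) + 1) ^ l.length := by
            apply pow_le_pow_left₀ (by positivity)
            have : p.2 ≤ n := by omega
            have : (p.2:ℝ) ≤ n := by exact_mod_cast this
            linarith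
          calc _ ≤ 1 * ((p.2:ℝ) + 1) ^ l.length :=
                mul_le_mul h1 h2 (norm_nonneg _) zero_le_one
            _ ≤ _ := by rw [one_mul]; exact h3
      _ = ((n:ℝ) + 1) ^ (l.length + 1) := by
          rw [Finset.sum_const, Finset.Nat.card_antidiagonal, nsmul_eq_mul, pow_succ']
          push_cast
          ring

theorem one_var_inv (N : ℕ) (p : Polynomial ℂ) (hN : p.natDegree ≤ N)
    (hz : ∀ z : ℂ, ‖z‖ < 1 → p.eval z ≠ 0) (v : PowerSeries ℂ)
    (hv : v * (p : PowerSeries ℂ) = 1) (n : ℕ) :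
    ‖PowerSeries.coeff n v‖ ≤ ((n:ℝ) + 1) ^ N / ‖p.coeff 0‖ := by
  obtain ⟨l, hl1, hl2, hl3⟩ := factor N p hN hz
  have hp0 : p.coeff 0 ≠ 0 := by
    have := hz 0 (by simp)
    rwa [← Polynomial.coeff_zero_eq_eval_zero] at this
  have e1 : (p : PowerSeries ℂ) = PowerSeries.C (p.coeff 0) *
      (l.map fun u => 1 - PowerSeries.C u * PowerSeries.X).prod := by
    conv_lhs => rw [hl3]
    rw [Polynomial.coe_mul, coe_list, Polynomial.coe_C]
  have e2 : (PowerSeries.C (p.coeff 0)⁻¹ * (l.map geo).prod) * (p : PowerSeries ℂ) = 1 := by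
    rw [e1, mul_mul_mul_comm, geo_list, mul_one, ← map_mul, inv_mul_cancel₀ hp0, map_one]
  have hne : (p : PowerSeries ℂ) ≠ 0 := by
    intro h
    rw [h, mul_zero] at e2
    exact zero_ne_one e2
  have e3 : v = PowerSeries.C (p.coeff 0)⁻¹ * (l.map geo).prod :=
    mul_right_cancel₀ hne (hv.trans e2.symm)
  rw [e3, PowerSeries.coeff_C_mul, norm_mul, norm_inv, div_eq_inv_mul]
  apply mul_le_mul_of_nonneg_left _ (by positivity)
  refine (geo_bound l hl2 n).trans ?_
  exact pow_le_pow_right₀ (by linarith [Nat.cast_nonneg (α := ℝ) n]) hl1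

end Pool.Agent.H650R3.Cyc
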