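import Pool.Agent.H650R3.Cyc.One

set_option autoImplicit false

/-! Slices of power series in several variables and averages over roots of unity (helper file). -/

namespace Pool.Agent.H650R3.Cyc
open Finset

variable {d : ℕ}

/-- exponents of total degree `n` -/
noncomputable def fa (d n : ℕ) : Finset (Fin d →₀ ℕ) := Finset.finsuppAntidiag univ n

lemma mem_fa {n : ℕ} {α : Fin d →₀ ℕ} : α ∈ fa d n ↔ ∑ j, α j = n := by
  rw [fa, Finset.mem_finsuppAntidiag]
  simp

/-- the slice `λ ↦ f (λ ζ)` -/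
noncomputable def slice (ζ : Fin d → ℂ) (f : MvPowerSeries (Fin d) ℂ) : PowerSeries ℂ :=
  PowerSeries.mk fun n => ∑ α ∈ fa d n, MvPowerSeries.coeff α f * ∏ j, ζ j ^ α j

lemma coeff_slice (ζ : Fin d → ℂ) (f : MvPowerSeries (Fin d) ℂ) (n : ℕ) :
    PowerSeries.coeff n (slice ζ f) =
      ∑ α ∈ fa d n, MvPowerSeries.coeff α f * ∏ j, ζ j ^ α j := by
  rw [slice, PowerSeries.coeff_mk]

lemma slice_add (ζ : Fin d → ℂ) (f g : MvPowerSeries (Fin d) ℂ) :
    slice ζ (f + g) = slice ζ f + slice ζ g := by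
  ext n
  rw [map_add, coeff_slice, coeff_slice, coeff_slice, ← Finset.sum_add_distrib]
  apply Finset.sum_congr rfl
  intro α _
  rw [map_add, add_mul]

lemma slice_mul (ζ : Fin d → ℂ) (f g : MvPowerSeries (Fin d) ℂ) :
    slice ζ (f * g) = slice ζ f * slice ζ g := by
  classical
  ext n
  rw [PowerSeries.coeff_mul, coeff_slice]
  set F : (Fin d →₀ ℕ) × (Fin d →₀ ℕ) → ℂ := fun p =>
    (MvPowerSeries.coeff p.1 f * ∏ j, ζ j ^ p.1 j) * (MvPowerSeries.coeff p.2 g * ∏ j, ζ j ^ p.2 j)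
    with hF
  have h1 : ∑ α ∈ fa d n, MvPowerSeries.coeff α (f * g) * ∏ j, ζ j ^ α j =
      ∑ α ∈ fa d n, ∑ p ∈ antidiagonal α, F p := by
    apply Finset.sum_congr rfl
    intro α _
    rw [MvPowerSeries.coeff_mul, Finset.sum_mul]
    apply Finset.sum_congr rfl
    intro p hp
    rw [HasAntidiagonal.mem_antidiagonal] at hp
    have : ∏ j, ζ j ^ α j = (∏ j, ζ j ^ p.1 j) * ∏ j, ζ j ^ p.2 j := by
      rw [← Finset.prod_mul_distrib]
      apply Finset.prod_congr rfl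
      intro j _
      rw [← pow_add, ← hp]
      rfl
    rw [this, hF]
    ring
  have h2 : ∑ q ∈ antidiagonal n, PowerSeries.coeff q.1 (slice ζ f) *
      PowerSeries.coeff q.2 (slice ζ g) =
      ∑ q ∈ antidiagonal n, ∑ p ∈ fa d q.1 ×ˢ fa d q.2, F p := by
    apply Finset.sum_congr rfl
    intro q _
    rw [coeff_slice, coeff_slice, Finset.sum_mul_sum, ← Finset.sum_product']
  rw [h1, h2, ← Finset.sum_biUnion, ← Finset.sum_biUnion]
  · apply Finset.sum_congr _ fun _ _ => rfl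
    ext p
    simp only [mem_biUnion, mem_fa, HasAntidiagonal.mem_antidiagonal, mem_product]
    constructor
    · rintro ⟨α, h3, h4⟩
      refine ⟨(∑ j, p.1 j, ∑ j, p.2 j), ?_, rfl, rfl⟩
      simp only
      rw [← Finset.sum_add_distrib, ← h3, ← h4]
      rfl
    · rintro ⟨q, h3, h4, h5⟩
      refine ⟨p.1 + p.2, ?_, rfl⟩
      rw [← h3, ← h4, ← h5, ← Finset.sum_add_distrib]
      rfl
  · intro a _ b _ hab
    simp only [Function.onFun]
    rw [Finset.disjoint_left]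
    intro p hp hq
    rw [mem_product, mem_fa, mem_fa] at hp hq
    exact hab (Prod.ext (hp.1.symm.trans hq.1) (hp.2.symm.trans hq.2))
  · intro a _ b _ hab
    simp only [Function.onFun]
    rw [Finset.disjoint_left]
    intro p hp hq
    rw [HasAntidiagonal.mem_antidiagonal] at hp hq
    exact hab (hp.symm.trans hq)

lemma slice_C (ζ : Fin d → ℂ) (a : ℂ) :
    slice ζ (MvPowerSeries.C a) = PowerSeries.C a := by
  classical
  ext n
  rw [coeff_slice, PowerSeries.coeff_C]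
  simp only [MvPowerSeries.coeff_C]
  by_cases hn : n = 0
  · rw [if_pos hn, Finset.sum_eq_single 0]
    · simp
    · intro b _ hb
      rw [if_neg hb, zero_mul]
    · intro h
      exact absurd (mem_fa.mpr (by simp [hn])) h
  · rw [if_neg hn]
    apply Finset.sum_eq_zero
    intro α hα
    rw [mem_fa] at hα
    rw [if_neg, zero_mul]
    rintro rfl
    apply hn
    rw [← hα]
    simp

lemma slice_X (ζ : Fin d → ℂ) (i : Fin d) :
    slice ζ (MvPowerSeries.X i) = PowerSeries.C (ζ i) * PowerSeries.X := by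
  classical
  ext n
  rw [coeff_slice, PowerSeries.coeff_C_mul, PowerSeries.coeff_X]
  simp only [MvPowerSeries.coeff_X]
  by_cases hn : n = 1
  · rw [if_pos hn, Finset.sum_eq_single (Finsupp.single i 1)]
    · simp only [if_true, one_mul, mul_one]
      rw [Finset.prod_eq_single i]
      · simp
      · intro b _ hb
        rw [Finsupp.single_eq_of_ne hb, pow_zero]
      · intro h
        exact absurd (mem_univ i) h
    · intro b _ hb
      rw [if_neg hb, zero_mul]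
    · intro h
      exfalso
      apply h
      rw [mem_fa, hn, Finset.sum_eq_single i]
      · simp
      · intro b _ hb
        rw [Finsupp.single_eq_of_ne hb]
      · intro h
        exact absurd (mem_univ i) h
  · rw [if_neg hn, mul_zero]
    apply Finset.sum_eq_zero
    intro α hα
    rw [mem_fa] at hα
    rw [if_neg, zero_mul]
    rintro rfl
    apply hn
    rw [← hα, Finset.sum_eq_single i]
    · simp
    · intro b _ hb
      rw [Finsupp.single_eq_of_ne hb]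
    · intro h
      exact absurd (mem_univ i) h

/-- the slice of a polynomial -/
noncomputable def pslice (ζ : Fin d → ℂ) (P : MvPolynomial (Fin d) ℂ) : Polynomial ℂ :=
  MvPolynomial.aeval (fun j => Polynomial.C (ζ j) * Polynomial.X) P

lemma slice_poly (ζ : Fin d → ℂ) (P : MvPolynomial (Fin d) ℂ) :
    slice ζ (P : MvPowerSeries (Fin d) ℂ) = ((pslice ζ P : Polynomial ℂ) : PowerSeries ℂ) := by
  induction P using MvPolynomial.induction_on with
  | C a =>
    rw [MvPolynomial.coe_C, slice_C, pslice, MvPolynomial.aeval_C]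
    simp
  | add p q hp hq =>
    rw [MvPolynomial.coe_add, slice_add, hp, hq, pslice, pslice, pslice, map_add,
      Polynomial.coe_add]
  | mul_X p i hp =>
    rw [MvPolynomial.coe_mul, slice_mul, hp, MvPolynomial.coe_X, slice_X, pslice, pslice, map_mul,
      MvPolynomial.aeval_X, Polynomial.coe_mul, Polynomial.coe_mul, Polynomial.coe_C,
      Polynomial.coe_X]

lemma pslice_eval (ζ : Fin d → ℂ) (P : MvPolynomial (Fin d) ℂ) (z : ℂ) :
    (pslice ζ P).eval z = MvPolynomial.eval (fun j => ζ j * z) P := by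
  induction P using MvPolynomial.induction_on with
  | C a => simp [pslice]
  | add p q hp hq =>
    rw [pslice, map_add, Polynomial.eval_add, ← pslice, ← pslice, hp, hq, map_add]
  | mul_X p i hp =>
    rw [pslice, map_mul, Polynomial.eval_mul, ← pslice, hp, map_mul]
    simp

lemma pslice_natDegree (ζ : Fin d → ℂ) (P : MvPolynomial (Fin d) ℂ) :
    (pslice ζ P).natDegree ≤ P.totalDegree := by
  have h := MvPolynomial.aeval_natDegree_le (m := P.totalDegree) (n := 1) P le_rfl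
    (fun j : Fin d => Polynomial.C (ζ j) * Polynomial.X)
    (fun j => (Polynomial.natDegree_C_mul_le _ _).trans Polynomial.natDegree_X_le)
  rw [mul_one] at h
  exact h

lemma slice_rescale (ζ : Fin d → ℂ) (r : ℂ) (f : MvPowerSeries (Fin d) ℂ) :
    slice ζ (MvPowerSeries.rescale (fun _ => r) f) = PowerSeries.rescale r (slice ζ f) := by
  ext n
  rw [coeff_slice, PowerSeries.coeff_rescale, coeff_slice, Finset.mul_sum]
  apply Finset.sum_congr rfl
  intro α hα
  rw [mem_fa] at hα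
  rw [MvPowerSeries.coeff_rescale, Finsupp.prod_fintype _ _ (fun _ => pow_zero _),
    Finset.prod_pow_eq_pow_sum, hα]
  ring

lemma char_sum (K : ℕ) (ω : ℂ) (hω : IsPrimitiveRoot ω K) (hn : ‖ω‖ = 1)
    (a b : ℕ) (ha : a < K) (hb : b < K) :
    ∑ m : Fin K, (ω ^ (m:ℕ)) ^ a * (starRingEnd ℂ) ((ω ^ (m:ℕ)) ^ b) =
      if a = b then (K:ℂ) else 0 := by
  have hω0 : ω ≠ 0 := by
    intro h
    rw [h] at hn
    simp at hn
  have hc : (starRingEnd ℂ) ω = ω⁻¹ := (Complex.inv_eq_conj hn).symm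
  have h1 : ∀ m : Fin K, (ω ^ (m:ℕ)) ^ a * (starRingEnd ℂ) ((ω ^ (m:ℕ)) ^ b) =
      (ω ^ a * (ω ^ b)⁻¹) ^ (m:ℕ) := by
    intro m
    rw [map_pow, map_pow, hc, mul_pow, ← pow_mul, ← pow_mul, inv_pow, inv_pow, ← pow_mul,
      ← pow_mul, mul_comm a, mul_comm b]
  simp only [h1]
  rw [Fin.sum_univ_eq_sum_range (fun m => (ω ^ a * (ω ^ b)⁻¹) ^ m) K]
  by_cases hab : a = b
  · rw [if_pos hab, hab, mul_inv_cancel₀ (pow_ne_zero _ hω0)]
    simp
  · rw [if_neg hab]
    have hne : ω ^ a * (ω ^ b)⁻¹ ≠ 1 := by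
      intro h
      apply hab
      apply hω.pow_inj ha hb
      field_simp at h
      exact h
    rw [geom_sum_eq hne]
    have : (ω ^ a * (ω ^ b)⁻¹) ^ K = 1 := by
      rw [mul_pow, ← pow_mul, mul_comm a, pow_mul, hω.pow_eq_one, one_pow, inv_pow, ← pow_mul,
        mul_comm b, pow_mul, hω.pow_eq_one, one_pow, inv_one, one_mul]
    rw [this, sub_self, zero_div]

lemma char_sum_prod (K : ℕ) (ω : ℂ) (hω : IsPrimitiveRoot ω K) (hn : ‖ω‖ = 1)
    (α β : Fin d →₀ ℕ) (ha : ∀ j, α j < K) (hb : ∀ j, β j < K) :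
    ∑ m : Fin d → Fin K, (∏ j, (ω ^ (m j:ℕ)) ^ α j) *
      (starRingEnd ℂ) (∏ j, (ω ^ (m j:ℕ)) ^ β j) = if α = β then (K:ℂ) ^ d else 0 := by
  have h1 : ∀ m : Fin d → Fin K, (∏ j, (ω ^ (m j:ℕ)) ^ α j) *
      (starRingEnd ℂ) (∏ j, (ω ^ (m j:ℕ)) ^ β j) =
      ∏ j, ((ω ^ (m j:ℕ)) ^ α j * (starRingEnd ℂ) ((ω ^ (m j:ℕ)) ^ β j)) := by
    intro m
    rw [map_prod, ← Finset.prod_mul_distrib]
  simp only [h1]
  rw [← Fintype.piFinset_univ, ← Finset.prod_univ_sum (fun _ => (univ : Finset (Fin K)))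
    (fun j m => (ω ^ (m:ℕ)) ^ α j * (starRingEnd ℂ) ((ω ^ (m:ℕ)) ^ β j))]
  simp only [char_sum K ω hω hn _ _ (ha _) (hb _)]
  by_cases hab : α = β
  · rw [if_pos hab]
    simp [hab]
  · rw [if_neg hab]
    have : ∃ j, α j ≠ β j := by
      by_contra h
      push Not at h
      exact hab (Finsupp.ext h)
    obtain ⟨j, hj⟩ := this
    exact Finset.prod_eq_zero (mem_univ j) (if_neg hj)

lemma parseval (K : ℕ) (ω : ℂ) (hω : IsPrimitiveRoot ω K) (hn : ‖ω‖ = 1) (n : ℕ) (hnK : n < K)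
    (c : (Fin d →₀ ℕ) → ℂ) :
    ∑ m : Fin d → Fin K, ‖∑ α ∈ fa d n, c α * ∏ j, (ω ^ (m j:ℕ)) ^ α j‖ ^ 2 =
      (K:ℝ) ^ d * ∑ α ∈ fa d n, ‖c α‖ ^ 2 := by
  have hlt : ∀ α ∈ fa d n, ∀ j, α j < K := by
    intro α hα j
    rw [mem_fa] at hα
    have : α j ≤ ∑ i, α i := Finset.single_le_sum (fun _ _ => Nat.zero_le _) (mem_univ j)
    omega
  have key : (∑ m : Fin d → Fin K, (∑ α ∈ fa d n, c α * ∏ j, (ω ^ (m j:ℕ)) ^ α j) *
      (starRingEnd ℂ) (∑ α ∈ fa d n, c α * ∏ j, (ω ^ (m j:ℕ)) ^ α j)) =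
      (K:ℂ) ^ d * ∑ α ∈ fa d n, c α * (starRingEnd ℂ) (c α) := by
    have h1 : ∀ m : Fin d → Fin K, (∑ α ∈ fa d n, c α * ∏ j, (ω ^ (m j:ℕ)) ^ α j) *
        (starRingEnd ℂ) (∑ α ∈ fa d n, c α * ∏ j, (ω ^ (m j:ℕ)) ^ α j) =
        ∑ α ∈ fa d n, ∑ β ∈ fa d n, (c α * (starRingEnd ℂ) (c β)) *
          ((∏ j, (ω ^ (m j:ℕ)) ^ α j) * (starRingEnd ℂ) (∏ j, (ω ^ (m j:ℕ)) ^ β j)) := by
      intro m
      rw [map_sum, Finset.sum_mul_sum]
      apply Finset.sum_congr rfl
      intro α _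
      apply Finset.sum_congr rfl
      intro β _
      rw [map_mul]
      ring
    simp only [h1]
    rw [Finset.sum_comm, Finset.mul_sum]
    apply Finset.sum_congr rfl
    intro α hα
    rw [Finset.sum_comm]
    have h2 : ∀ β ∈ fa d n, ∑ m : Fin d → Fin K, (c α * (starRingEnd ℂ) (c β)) *
          ((∏ j, (ω ^ (m j:ℕ)) ^ α j) * (starRingEnd ℂ) (∏ j, (ω ^ (m j:ℕ)) ^ β j)) =
        (c α * (starRingEnd ℂ) (c β)) * (if α = β then (K:ℂ) ^ d else 0) := by
      intro β hβ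
      rw [← Finset.mul_sum, char_sum_prod K ω hω hn α β (hlt α hα) (hlt β hβ)]
    rw [Finset.sum_congr rfl h2, Finset.sum_eq_single α]
    · rw [if_pos rfl]
      ring
    · intro β _ hβ
      rw [if_neg (Ne.symm hβ), mul_zero]
    · intro h
      exact absurd hα h
  simp only [Complex.mul_conj, Complex.normSq_eq_norm_sq] at key
  exact_mod_cast key

theorem avg_le (M : ℕ) (a : ℕ → ℝ) (c : (Fin d →₀ ℕ) → ℂ) (B : ℝ)
    (h : ∀ ζ : Fin d → ℂ, (∀ j, ‖ζ j‖ = 1) →
      ∑ n ∈ range M, a n * ‖∑ α ∈ fa d n, c α * ∏ j, ζ j ^ α j‖ ^ 2 ≤ B) :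
    ∑ n ∈ range M, a n * ∑ α ∈ fa d n, ‖c α‖ ^ 2 ≤ B := by
  rcases Nat.eq_zero_or_pos M with rfl | hM
  · simpa using h (fun _ => 1) (by simp)
  · have hω := Complex.isPrimitiveRoot_exp M hM.ne'
    set ω := Complex.exp (2 * Real.pi * Complex.I / M) with hωd
    have hn : ‖ω‖ = 1 := hω.norm'_eq_one hM.ne'
    have hMd : (0:ℝ) < (M:ℝ) ^ d := by positivity
    have h1 : (M:ℝ) ^ d * ∑ n ∈ range M, a n * ∑ α ∈ fa d n, ‖c α‖ ^ 2 =
        ∑ m : Fin d → Fin M, ∑ n ∈ range M, a n *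
          ‖∑ α ∈ fa d n, c α * ∏ j, (ω ^ (m j:ℕ)) ^ α j‖ ^ 2 := by
      rw [Finset.sum_comm, Finset.mul_sum]
      apply Finset.sum_congr rfl
      intro n hnM
      rw [← Finset.mul_sum, parseval M ω hω hn n (mem_range.mp hnM) c]
      ring
    have h2 : ∑ m : Fin d → Fin M, ∑ n ∈ range M, a n *
          ‖∑ α ∈ fa d n, c α * ∏ j, (ω ^ (m j:ℕ)) ^ α j‖ ^ 2 ≤
        ∑ m : Fin d → Fin M, B := by
      apply Finset.sum_le_sum
      intro m _
      exact h (fun j => ω ^ (m j:ℕ)) (fun j => by rw [norm_pow, hn, one_pow])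
    rw [Finset.sum_const, nsmul_eq_mul, Finset.card_univ, Fintype.card_fun, Fintype.card_fin,
      Fintype.card_fin] at h2
    rw [← h1] at h2
    push_cast at h2
    exact le_of_mul_le_mul_left h2 hMd

end Pool.Agent.H650R3.Cyc
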