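import Pool.Agent.H650R3.Cyc.Slice
import Pool.Agent.H650R3.Cyc.Defs

set_option autoImplicit false

/-! Basic facts on the spaces `D_t(𝔻^d)` (helper file). -/

namespace Pool.Agent.H650R3.Cyc
open Finset MvPowerSeries

variable {d : ℕ}

lemma wt_pos (t : ℝ) (α : Fin d →₀ ℕ) : 0 < wt t α :=
  Finset.prod_pos fun j _ => Real.rpow_pos_of_pos (by positivity) _

lemma term_nonneg (t : ℝ) (f : MvPowerSeries (Fin d) ℂ) (α : Fin d →₀ ℕ) :
    0 ≤ wt t α * ‖coeff α f‖ ^ 2 := mul_nonneg (wt_pos t α).le (sq_nonneg _)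

lemma normSq_nonneg (t : ℝ) (f : MvPowerSeries (Fin d) ℂ) : 0 ≤ normSq t f :=
  tsum_nonneg (term_nonneg t f)

lemma wt_add (t : ℝ) (α β : Fin d →₀ ℕ) : wt t (α + β) ≤ wt |t| β * wt t α := by
  rw [wt, wt, wt, ← Finset.prod_mul_distrib]
  apply Finset.prod_le_prod
  · intro j _
    positivity
  · intro j _
    have ha : (0:ℝ) ≤ α j := Nat.cast_nonneg _
    have hb : (0:ℝ) ≤ β j := Nat.cast_nonneg _
    have e : (((α + β) j : ℕ) : ℝ) = α j + β j := by simp
    rw [e]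
    rcases le_or_gt 0 t with ht | ht
    · rw [abs_of_nonneg ht, ← Real.mul_rpow (by positivity) (by positivity)]
      apply Real.rpow_le_rpow (by positivity) _ ht
      nlinarith
    · have h1 : (1 + ((α j:ℝ) + β j)) ^ t ≤ (1 + (α j:ℝ)) ^ t :=
        Real.rpow_le_rpow_of_nonpos (by positivity) (by linarith) ht.le
      have h2 : 1 ≤ (1 + (β j:ℝ)) ^ |t| := Real.one_le_rpow (by linarith) (abs_nonneg t)
      have h3 : 0 ≤ (1 + (α j:ℝ)) ^ t := by positivity
      nlinarith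

lemma sq_add_le (a b : ℂ) : ‖a + b‖ ^ 2 ≤ 2 * ‖a‖ ^ 2 + 2 * ‖b‖ ^ 2 := by
  have h := norm_add_le a b
  have h0 := norm_nonneg (a + b)
  nlinarith [sq_nonneg (‖a‖ - ‖b‖)]

lemma mem_add {t : ℝ} {f g : MvPowerSeries (Fin d) ℂ} (hf : MemD t f) (hg : MemD t g) :
    MemD t (f + g) ∧ normSq t (f + g) ≤ 2 * normSq t f + 2 * normSq t g := by
  have hb : ∀ α : Fin d →₀ ℕ, wt t α * ‖coeff α (f + g)‖ ^ 2 ≤
      2 * (wt t α * ‖coeff α f‖ ^ 2) + 2 * (wt t α * ‖coeff α g‖ ^ 2) := by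
    intro α
    rw [map_add]
    have := mul_le_mul_of_nonneg_left (sq_add_le (coeff α f) (coeff α g)) (wt_pos t α).le
    linarith
  have hs : Summable fun α : Fin d →₀ ℕ =>
      2 * (wt t α * ‖coeff α f‖ ^ 2) + 2 * (wt t α * ‖coeff α g‖ ^ 2) :=
    (hf.mul_left 2).add (hg.mul_left 2)
  have h1 : MemD t (f + g) := Summable.of_nonneg_of_le (term_nonneg t _) hb hs
  refine ⟨h1, ?_⟩
  calc normSq t (f + g) ≤ ∑' α : Fin d →₀ ℕ,
        (2 * (wt t α * ‖coeff α f‖ ^ 2) + 2 * (wt t α * ‖coeff α g‖ ^ 2)) :=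
        Summable.tsum_le_tsum hb h1 hs
    _ = _ := by
        rw [Summable.tsum_add (hf.mul_left 2) (hg.mul_left 2), tsum_mul_left, tsum_mul_left]
        rfl

lemma mem_neg {t : ℝ} {f : MvPowerSeries (Fin d) ℂ} (hf : MemD t f) :
    MemD t (-f) ∧ normSq t (-f) = normSq t f := by
  have h : ∀ α : Fin d →₀ ℕ, wt t α * ‖coeff α (-f)‖ ^ 2 = wt t α * ‖coeff α f‖ ^ 2 := by
    intro α
    rw [map_neg, norm_neg]
  constructor
  · unfold MemD
    simp only [h]
    exact hf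
  · unfold normSq
    simp only [h]

lemma mem_mono {t : ℝ} {f : MvPowerSeries (Fin d) ℂ} (hf : MemD t f) (β : Fin d →₀ ℕ) (c : ℂ) :
    MemD t (monomial β c * f) ∧ normSq t (monomial β c * f) ≤
      (‖c‖ ^ 2 * wt |t| β) * normSq t f := by
  classical
  set F : (Fin d →₀ ℕ) → ℝ := fun α => wt t α * ‖coeff α (monomial β c * f)‖ ^ 2 with hF
  have hinj : Function.Injective fun γ : Fin d →₀ ℕ => γ + β := add_left_injective β
  have hzero : ∀ α, α ∉ Set.range (fun γ : Fin d →₀ ℕ => γ + β) → F α = 0 := by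
    intro α hα
    rw [hF]
    simp only
    rw [coeff_monomial_mul, if_neg]
    · simp
    · intro h
      exact hα ⟨α - β, tsub_add_cancel_of_le h⟩
  have hcomp : ∀ γ, F (γ + β) ≤ (‖c‖ ^ 2 * wt |t| β) * (wt t γ * ‖coeff γ f‖ ^ 2) := by
    intro γ
    rw [hF]
    simp only
    rw [coeff_monomial_mul, if_pos (le_add_self), add_tsub_cancel_right, norm_mul, mul_pow]
    have h1 := wt_add t γ β
    have h2 : 0 ≤ ‖c‖ ^ 2 * ‖coeff γ f‖ ^ 2 := by positivity
    calc wt t (γ + β) * (‖c‖ ^ 2 * ‖coeff γ f‖ ^ 2)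
        ≤ (wt |t| β * wt t γ) * (‖c‖ ^ 2 * ‖coeff γ f‖ ^ 2) := mul_le_mul_of_nonneg_right h1 h2
      _ = _ := by ring
  have hs : Summable (fun γ => F (γ + β)) :=
    Summable.of_nonneg_of_le (fun γ => term_nonneg t _ _) hcomp (hf.mul_left _)
  have hsF : Summable F := (hinj.summable_iff hzero).mp hs
  refine ⟨hsF, ?_⟩
  have e : ∑' γ, F (γ + β) = ∑' α, F α := by
    apply hinj.tsum_eq
    intro α hα
    by_contra h
    exact hα (hzero α h)
  calc normSq t (monomial β c * f) = ∑' γ, F (γ + β) := e.symm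
    _ ≤ ∑' γ, (‖c‖ ^ 2 * wt |t| β) * (wt t γ * ‖coeff γ f‖ ^ 2) :=
        Summable.tsum_le_tsum hcomp hs (hf.mul_left _)
    _ = _ := by rw [tsum_mul_left]; rfl

lemma mem_poly_mul (t : ℝ) (R : MvPolynomial (Fin d) ℂ) : ∃ C : ℝ, 0 ≤ C ∧
    ∀ f : MvPowerSeries (Fin d) ℂ, MemD t f →
      MemD t ((R : MvPowerSeries (Fin d) ℂ) * f) ∧
        normSq t ((R : MvPowerSeries (Fin d) ℂ) * f) ≤ C * normSq t f := by
  induction R using MvPolynomial.induction_on' with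
  | monomial u a =>
    refine ⟨‖a‖ ^ 2 * wt |t| u, mul_nonneg (sq_nonneg _) (wt_pos _ _).le, fun f hf => ?_⟩
    rw [MvPolynomial.coe_monomial]
    exact mem_mono hf u a
  | add p q hp hq =>
    obtain ⟨C1, hC1, h1⟩ := hp
    obtain ⟨C2, hC2, h2⟩ := hq
    refine ⟨2 * C1 + 2 * C2, by positivity, fun f hf => ?_⟩
    rw [MvPolynomial.coe_add, add_mul]
    obtain ⟨h3, h4⟩ := mem_add (h1 f hf).1 (h2 f hf).1
    refine ⟨h3, h4.trans ?_⟩
    have h5 := (h1 f hf).2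
    have h6 := (h2 f hf).2
    linarith

lemma mem_one (t : ℝ) : MemD t (1 : MvPowerSeries (Fin d) ℂ) := by
  classical
  apply summable_of_ne_finset_zero (s := {0})
  intro α hα
  rw [Finset.mem_singleton] at hα
  rw [coeff_one, if_neg hα]
  simp

lemma mem_poly (t : ℝ) (R : MvPolynomial (Fin d) ℂ) : MemD t (R : MvPowerSeries (Fin d) ℂ) := by
  obtain ⟨C, _, h⟩ := mem_poly_mul t R
  have := (h 1 (mem_one t)).1
  rwa [mul_one] at this

lemma trunc {t : ℝ} {g : MvPowerSeries (Fin d) ℂ} (hg : MemD t g) (ε : ℝ) (hε : 0 < ε) :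
    ∃ R : MvPolynomial (Fin d) ℂ, MemD t ((R : MvPowerSeries (Fin d) ℂ) - g) ∧
      normSq t ((R : MvPowerSeries (Fin d) ℂ) - g) < ε := by
  classical
  set f : (Fin d →₀ ℕ) → ℝ := fun α => wt t α * ‖coeff α g‖ ^ 2 with hf
  have hs : Summable f := hg
  have h1 := hs.hasSum
  rw [HasSum, SummationFilter.unconditional_filter, Metric.tendsto_atTop] at h1
  obtain ⟨s, hs1⟩ := h1 ε hε
  have h2 := hs1 s le_rfl
  refine ⟨∑ α ∈ s, MvPolynomial.monomial α (coeff α g), ?_⟩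
  set R : MvPolynomial (Fin d) ℂ := ∑ α ∈ s, MvPolynomial.monomial α (coeff α g) with hR
  have hco : ∀ α : Fin d →₀ ℕ, coeff α (R : MvPowerSeries (Fin d) ℂ) =
      if α ∈ s then coeff α g else 0 := by
    intro α
    rw [MvPolynomial.coeff_coe, hR, MvPolynomial.coeff_sum]
    simp only [MvPolynomial.coeff_monomial]
    rw [Finset.sum_ite_eq' s α]
  have h3 : ∀ α : Fin d →₀ ℕ, wt t α * ‖coeff α ((R : MvPowerSeries (Fin d) ℂ) - g)‖ ^ 2 =
      f α - (if α ∈ s then f α else 0) := by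
    intro α
    rw [map_sub, hco]
    by_cases h : α ∈ s
    · simp [h]
    · simp [h, hf]
  have h4 : Summable fun α => if α ∈ s then f α else 0 :=
    summable_of_ne_finset_zero (s := s) fun α hα => if_neg hα
  have h5 : ∑' α, (if α ∈ s then f α else 0) = ∑ α ∈ s, f α := by
    rw [tsum_eq_sum (s := s) fun α hα => if_neg hα]
    apply Finset.sum_congr rfl
    intro α hα
    rw [if_pos hα]
  constructor
  · unfold MemD
    simp only [h3]
    exact hs.sub h4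
  · unfold normSq
    simp only [h3]
    rw [Summable.tsum_sub hs h4, h5]
    rw [Real.dist_eq, abs_sub_comm] at h2
    exact (le_abs_self _).trans_lt h2

/-- `g` is a limit of polynomial multiples of `P` -/
def Approx (t : ℝ) (P : MvPolynomial (Fin d) ℂ) (g : MvPowerSeries (Fin d) ℂ) : Prop :=
  ∀ ε : ℝ, 0 < ε → ∃ Q : MvPolynomial (Fin d) ℂ,
    MemD t ((Q : MvPowerSeries (Fin d) ℂ) * (P : MvPowerSeries (Fin d) ℂ) - g) ∧
      normSq t ((Q : MvPowerSeries (Fin d) ℂ) * (P : MvPowerSeries (Fin d) ℂ) - g) < ε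

lemma cyclic_of_approx {t : ℝ} {P : MvPolynomial (Fin d) ℂ} (h : Approx t P 1) :
    ShiftCyclic t (P : MvPowerSeries (Fin d) ℂ) := by
  refine ⟨mem_poly t P, fun g hg ε hε => ?_⟩
  obtain ⟨R, hR1, hR2⟩ := trunc hg (ε / 4) (by positivity)
  obtain ⟨C, hC, hC1⟩ := mem_poly_mul t R
  obtain ⟨Q, hQ1, hQ2⟩ := h (ε / (4 * (C + 1))) (by positivity)
  obtain ⟨h1, h2⟩ := hC1 _ hQ1
  obtain ⟨h3, h4⟩ := mem_add h1 hR1
  have e : ((R * Q : MvPolynomial (Fin d) ℂ) : MvPowerSeries (Fin d) ℂ) *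
      (P : MvPowerSeries (Fin d) ℂ) - g =
      (R : MvPowerSeries (Fin d) ℂ) * ((Q : MvPowerSeries (Fin d) ℂ) *
        (P : MvPowerSeries (Fin d) ℂ) - 1) + ((R : MvPowerSeries (Fin d) ℂ) - g) := by
    rw [MvPolynomial.coe_mul]
    ring
  refine ⟨R * Q, ?_, ?_⟩
  · rw [e]
    exact h3
  · rw [e]
    have h5 : C * normSq t ((Q : MvPowerSeries (Fin d) ℂ) * (P : MvPowerSeries (Fin d) ℂ) - 1) ≤
        ε / 4 := by
      have h6 : C * normSq t ((Q : MvPowerSeries (Fin d) ℂ) * (P : MvPowerSeries (Fin d) ℂ) - 1) ≤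
          (C + 1) * (ε / (4 * (C + 1))) := by
        apply mul_le_mul (by linarith) hQ2.le (normSq_nonneg _ _) (by positivity)
      have h7 : (C + 1) * (ε / (4 * (C + 1))) = ε / 4 := by field_simp
      linarith
    linarith

lemma approx_mul {t : ℝ} {P1 P2 : MvPolynomial (Fin d) ℂ} (h1 : Approx t P1 1)
    (h2 : Approx t P2 1) : Approx t (P1 * P2) 1 := by
  intro ε hε
  obtain ⟨Q1, hQ1, hQ2⟩ := h1 (ε / 4) (by positivity)
  obtain ⟨C, hC, hC1⟩ := mem_poly_mul t (Q1 * P1)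
  obtain ⟨Q2, hQ3, hQ4⟩ := h2 (ε / (4 * (C + 1))) (by positivity)
  obtain ⟨h3, h4⟩ := hC1 _ hQ3
  obtain ⟨h5, h6⟩ := mem_add h3 hQ1
  have e : ((Q1 * Q2 : MvPolynomial (Fin d) ℂ) : MvPowerSeries (Fin d) ℂ) *
      ((P1 * P2 : MvPolynomial (Fin d) ℂ) : MvPowerSeries (Fin d) ℂ) - 1 =
      ((Q1 * P1 : MvPolynomial (Fin d) ℂ) : MvPowerSeries (Fin d) ℂ) *
        ((Q2 : MvPowerSeries (Fin d) ℂ) * (P2 : MvPowerSeries (Fin d) ℂ) - 1) +
      ((Q1 : MvPowerSeries (Fin d) ℂ) * (P1 : MvPowerSeries (Fin d) ℂ) - 1) := by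
    rw [MvPolynomial.coe_mul, MvPolynomial.coe_mul, MvPolynomial.coe_mul]
    ring
  refine ⟨Q1 * Q2, ?_, ?_⟩
  · rw [e]
    exact h5
  · rw [e]
    have h7 : C * normSq t ((Q2 : MvPowerSeries (Fin d) ℂ) * (P2 : MvPowerSeries (Fin d) ℂ) - 1) ≤
        ε / 4 := by
      have h8 : C * normSq t ((Q2 : MvPowerSeries (Fin d) ℂ) *
          (P2 : MvPowerSeries (Fin d) ℂ) - 1) ≤ (C + 1) * (ε / (4 * (C + 1))) := by
        apply mul_le_mul (by linarith) hQ4.le (normSq_nonneg _ _) (by positivity)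
      have h9 : (C + 1) * (ε / (4 * (C + 1))) = ε / 4 := by field_simp
      linarith
    linarith

lemma approx_one (t : ℝ) : Approx t (1 : MvPolynomial (Fin d) ℂ) 1 := by
  intro ε hε
  refine ⟨1, ?_⟩
  have e : ((1 : MvPolynomial (Fin d) ℂ) : MvPowerSeries (Fin d) ℂ) *
      ((1 : MvPolynomial (Fin d) ℂ) : MvPowerSeries (Fin d) ℂ) - 1 = 0 := by
    rw [MvPolynomial.coe_one, mul_one, sub_self]
  rw [e]
  constructor
  · unfold MemD
    simp only [map_zero, norm_zero]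
    simp [summable_zero]
  · unfold normSq
    simpa using hε

lemma approx_prod {t : ℝ} (l : List (MvPolynomial (Fin d) ℂ)) (h : ∀ P ∈ l, Approx t P 1) :
    Approx t l.prod 1 := by
  induction l with
  | nil => exact approx_one t
  | cons P l ih =>
    rw [List.prod_cons]
    exact approx_mul (h P List.mem_cons_self) (ih fun Q hQ => h Q (List.mem_cons_of_mem _ hQ))

/-- summability from the graded partial sums -/
lemma graded {f : (Fin d →₀ ℕ) → ℝ} (hf : ∀ α, 0 ≤ f α) {B : ℝ}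
    (h : ∀ M : ℕ, ∑ n ∈ range M, ∑ α ∈ fa d n, f α ≤ B) : Summable f ∧ ∑' α, f α ≤ B := by
  classical
  have h1 : ∀ u : Finset (Fin d →₀ ℕ), ∑ α ∈ u, f α ≤ B := by
    intro u
    set M := (u.sup fun α => ∑ j, α j) + 1 with hM
    refine le_trans ?_ (h M)
    rw [← Finset.sum_biUnion]
    · apply Finset.sum_le_sum_of_subset_of_nonneg
      · intro α hα
        rw [mem_biUnion]
        refine ⟨∑ j, α j, ?_, mem_fa.mpr rfl⟩
        rw [mem_range, hM]
        have := Finset.le_sup (f := fun α : Fin d →₀ ℕ => ∑ j, α j) hα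
        omega
      · intro α _ _
        exact hf α
    · intro a _ b _ hab
      simp only [Function.onFun]
      rw [Finset.disjoint_left]
      intro p hp hq
      rw [mem_fa] at hp hq
      exact hab (hp.symm.trans hq)
  have h2 : Summable f := summable_of_sum_le hf h1
  exact ⟨h2, h2.tsum_le_of_sum_le h1⟩

end Pool.Agent.H650R3.Cyc
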